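import Pool.Agent.Lib.MP_0dbebe_co.CQ.ADefs

/-!
# AHOM: homogenisation of several sets

PROOF of `hom_exists` by induction on `k` (for all `r`; `1 ≤ q`).
`k = 0`: nothing (`R = r`). Step `k → k + 1`: let `r₁ = q * r` and `R₁` the number for `k, r₁`. Let
`R = max R₁ (k * r₁ + q ^ (k * r₁) * (q * r))`. Given `T : Fin (k + 1) → Finset α`, apply the
induction hypothesis to the first `k` sets (`T ∘ Fin.castSucc`), get `T' i`, shrink them to exactly
`r₁` elements (`Finset.exists_subset_card_eq`). Let `U` be their union, `|U| ≤ k r₁`. The vertices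
`y` of the last set outside `U` (at least `q ^ (k r₁) * (q r)` of them) are sorted by the function
`x ↦ w x y` on `U` (at most `q ^ |U|` functions `U → ZMod q`; pigeonhole
`Finset.exists_le_card_fiber_of_mul_le_card_of_maps_to`) and then by the label `b y` (`q` values):
there is a set `T'_k` of at least `r` vertices with the same function `f : U → ZMod q` and the same
label. Finally `T' i` (`i < k`, exactly `q r` elements) is sorted by `f`: at least `r` elements with
the same value; replace `T' i` by them (homogeneity of pairs and constant labels are inherited by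
subsets). Pairs `(i, k)`: constant; pairs `(k, i)` by symmetry of `w`.
-/

set_option autoImplicit false

namespace MP0dbebe.CQ

open Finset

theorem Hom2.mono {α : Type} {q : ℕ} {w : α → α → ZMod q} {T T' S S' : Finset α} {c : ZMod q}
    (h : Hom2 w T T' c) (hS : S ⊆ T) (hS' : S' ⊆ T') : Hom2 w S S' c :=
  fun x hx y hy hxy => h x (hS hx) y (hS' hy) hxy

theorem hom_exists (q k r : ℕ) (hq : 1 ≤ q) : ∃ R : ℕ, r ≤ R ∧
    ∀ (α : Type) (w : α → α → ZMod q) (b : α → ZMod q) (T : Fin k → Finset α),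
    (∀ x y, w x y = w y x) → (∀ i, R ≤ (T i).card) →
    ∃ T' : Fin k → Finset α, (∀ i, T' i ⊆ T i ∧ r ≤ (T' i).card) ∧
      (∀ i, ∃ t, ∀ x ∈ T' i, b x = t) ∧ ∀ i j, i ≠ j → ∃ t, Hom2 w (T' i) (T' j) t := by
  classical
  have : NeZero q := ⟨by omega⟩
  induction k generalizing r with
  | zero =>
    exact ⟨r, le_rfl, fun α w b T _ _ => ⟨T, fun i => i.elim0, fun i => i.elim0,
      fun i => i.elim0⟩⟩
  | succ k ih =>
    obtain ⟨R₁, hR₁, hR⟩ := ih (q * r)
    refine ⟨max R₁ (k * (q * r) + q ^ (k * (q * r)) * (q * r)), ?_, ?_⟩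
    · have h1 : r ≤ q * r := Nat.le_mul_of_pos_left r hq
      exact (h1.trans hR₁).trans (le_max_left _ _)
    intro α w b T hw hT
    obtain ⟨T₁, h1, h2, h3⟩ := hR α w b (fun i => T i.castSucc) hw
      (fun i => (le_max_left _ _).trans (hT i.castSucc))
    choose S hS hSc using fun i => Finset.exists_subset_card_eq (h1 i).2
    obtain ⟨U, hU⟩ : ∃ U : Finset α, U = Finset.univ.biUnion S := ⟨_, rfl⟩
    have hUc : U.card ≤ k * (q * r) := by
      rw [hU]
      refine (Finset.card_biUnion_le).trans ?_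
      rw [Finset.sum_congr rfl (fun i _ => hSc i), Finset.sum_const, Finset.card_univ,
        Fintype.card_fin, smul_eq_mul]
    have hSU : ∀ i, S i ⊆ U := fun i x hx => by
      rw [hU]
      exact Finset.mem_biUnion.2 ⟨i, Finset.mem_univ i, hx⟩
    obtain ⟨Z, hZ⟩ : ∃ Z : Finset α, Z = T (Fin.last k) \ U := ⟨_, rfl⟩
    have hZc : q ^ (k * (q * r)) * (q * r) ≤ Z.card := by
      have h4 := (le_max_right R₁ (k * (q * r) + q ^ (k * (q * r)) * (q * r))).trans
        (hT (Fin.last k))
      have h5 := Finset.card_le_card_sdiff_add_card (s := T (Fin.last k)) (t := U)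
      rw [← hZ] at h5
      omega
    obtain ⟨f, hf⟩ : ∃ f : α → (U → ZMod q) × ZMod q,
        f = fun y => (fun x : U => w (x : α) y, b y) := ⟨_, rfl⟩
    have hpig : ∃ y ∈ (Finset.univ : Finset ((U → ZMod q) × ZMod q)),
        r ≤ (Z.filter fun x => f x = y).card := by
      refine Finset.exists_le_card_fiber_of_mul_le_card_of_maps_to
        (fun a _ => Finset.mem_univ _) ⟨(fun _ => 0, 0), Finset.mem_univ _⟩ ?_
      rw [Finset.card_univ, Fintype.card_prod, Fintype.card_fun, ZMod.card, Fintype.card_coe]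
      calc q ^ U.card * q * r = q ^ U.card * (q * r) := mul_assoc _ _ _
        _ ≤ q ^ (k * (q * r)) * (q * r) :=
            Nat.mul_le_mul_right _ (Nat.pow_le_pow_right hq hUc)
        _ ≤ Z.card := hZc
    obtain ⟨⟨g, β⟩, _, hgβ⟩ := hpig
    obtain ⟨Z', hZ'⟩ : ∃ Z' : Finset α, Z' = Z.filter fun x => f x = (g, β) := ⟨_, rfl⟩
    rw [← hZ'] at hgβ
    have hZ'1 : ∀ y ∈ Z', y ∈ T (Fin.last k) := fun y hy => by
      rw [hZ'] at hy
      have h4 := (Finset.mem_filter.1 hy).1
      rw [hZ] at h4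
      exact (Finset.mem_sdiff.1 h4).1
    have hZ'2 : ∀ y ∈ Z', (∀ x : U, w x y = g x) ∧ b y = β := fun y hy => by
      rw [hZ'] at hy
      have h4 := (Finset.mem_filter.1 hy).2
      rw [hf] at h4
      have h5 := Prod.mk.inj h4
      exact ⟨fun x => congrFun h5.1 x, h5.2⟩
    obtain ⟨g', hg'⟩ : ∃ g' : α → ZMod q, ∀ x (hx : x ∈ U), g' x = g ⟨x, hx⟩ :=
      ⟨fun x => if hx : x ∈ U then g ⟨x, hx⟩ else 0, fun x hx => dif_pos hx⟩
    have hpig2 : ∀ i, ∃ y ∈ (Finset.univ : Finset (ZMod q)),
        r ≤ ((S i).filter fun x => g' x = y).card := by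
      intro i
      refine Finset.exists_le_card_fiber_of_mul_le_card_of_maps_to
        (fun a _ => Finset.mem_univ _) ⟨0, Finset.mem_univ _⟩ ?_
      rw [Finset.card_univ, ZMod.card, hSc i]
    choose t _ ht using hpig2
    obtain ⟨S', hS'⟩ : ∃ S' : Fin k → Finset α, ∀ i, S' i = (S i).filter fun x => g' x = t i :=
      ⟨_, fun i => rfl⟩
    have hS'S : ∀ i, S' i ⊆ S i := fun i => by rw [hS']; exact Finset.filter_subset _ _
    have hcross : ∀ i, ∀ x ∈ S' i, ∀ y ∈ Z', w x y = t i := by
      intro i x hx y hy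
      have h4 := hx
      rw [hS'] at h4
      have h5 := (Finset.mem_filter.1 h4).2
      have h6 := hSU i (hS'S i hx)
      rw [hg' x h6] at h5
      rw [← h5]
      exact (hZ'2 y hy).1 ⟨x, h6⟩
    refine ⟨Fin.snoc (α := fun _ => Finset α) S' Z', ?_, ?_, ?_⟩
    · intro i
      refine Fin.lastCases ?_ (fun i => ?_) i
      · rw [Fin.snoc_last]
        exact ⟨hZ'1, hgβ⟩
      · rw [Fin.snoc_castSucc]
        refine ⟨((hS'S i).trans (hS i)).trans (h1 i).1, ?_⟩
        rw [hS']
        exact ht i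
    · intro i
      refine Fin.lastCases ?_ (fun i => ?_) i
      · rw [Fin.snoc_last]
        exact ⟨β, fun y hy => (hZ'2 y hy).2⟩
      · rw [Fin.snoc_castSucc]
        obtain ⟨s, hs⟩ := h2 i
        exact ⟨s, fun x hx => hs x (hS i (hS'S i hx))⟩
    · intro i j
      refine Fin.lastCases ?_ (fun i => ?_) i
      · refine Fin.lastCases ?_ (fun j => ?_) j
        · intro h
          exact absurd rfl h
        · intro _
          rw [Fin.snoc_last, Fin.snoc_castSucc]
          exact ⟨t j, fun x hx y hy _ => by rw [hw]; exact hcross j y hy x hx⟩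
      · refine Fin.lastCases ?_ (fun j => ?_) j
        · intro _
          rw [Fin.snoc_last, Fin.snoc_castSucc]
          exact ⟨t i, fun x hx y hy _ => hcross i x hx y hy⟩
        · intro hij
          rw [Fin.snoc_castSucc, Fin.snoc_castSucc]
          obtain ⟨s, hs⟩ := h3 i j (fun h => hij (by rw [h]))
          exact ⟨s, hs.mono ((hS'S i).trans (hS i)) ((hS'S j).trans (hS j))⟩

end MP0dbebe.CQ
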