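import Pool.Agent.Lib.MP_0dbebe_co.CQ.ADefs

/-!
# ANEXTG: the next group

`dbl D Γ` = all `c ∈ D` with `c + c ∈ Γ`.

PROOF of `next_dbl`. `Γ ≤ dbl D Γ ≤ D` is clear. Let `i` be the index of `Γ` in `D`
(`Γ.relIndex D`, or `Nat.card D = i * Nat.card Γ`). As `x ∈ D` and `x + x ∉ Γ`, the quotient `D / Γ`
has an element whose double is not zero, so `i ≥ 3` (in a group of order 1 or 2 all doubles
vanish). `D` is cyclic (subgroup of the cyclic group `ZMod q`), so is `D / Γ`; its elements of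
double zero form the image of `dbl D Γ`, and there are at most 2 of them (Group.lean:
`MP0dbebe.two_torsion K a b`: for `a, b ∉ K`, `a + a ∈ K`, `b + b ∈ K` one has `a + b ∈ K`, in a
finite cyclic group: use it in `ZMod q` with `K = Γ`). So either `dbl D Γ = Γ`, and
`3 |dbl D Γ| ≤ i |Γ| = |D|`; or `|dbl D Γ| = 2 |Γ|` (two cosets of `Γ`), `Γ < dbl D Γ`, and then
`2 |Γ|` divides `|D| = i |Γ|` (Lagrange), so `i` is even and `≥ 4`: `2 |dbl D Γ| = 4 |Γ| ≤ |D|`.
-/

set_option autoImplicit false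

namespace MP0dbebe.CQ

/-- the elements of `D` whose double is in `Γ` -/
def dbl {G : Type*} [AddCommGroup G] (D Γ : AddSubgroup G) : AddSubgroup G where
  carrier := {c | c ∈ D ∧ c + c ∈ Γ}
  zero_mem' := ⟨D.zero_mem, by simp⟩
  add_mem' := by
    rintro a b ⟨ha, ha2⟩ ⟨hb, hb2⟩
    refine ⟨D.add_mem ha hb, ?_⟩
    have : a + b + (a + b) = (a + a) + (b + b) := by abel
    rw [this]
    exact Γ.add_mem ha2 hb2
  neg_mem' := by
    rintro a ⟨ha, ha2⟩
    refine ⟨D.neg_mem ha, ?_⟩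
    have : -a + -a = -(a + a) := by abel
    rw [this]
    exact Γ.neg_mem ha2

theorem mem_dbl {G : Type*} [AddCommGroup G] {D Γ : AddSubgroup G} {c : G} :
    c ∈ dbl D Γ ↔ c ∈ D ∧ c + c ∈ Γ := Iff.rfl

/-- Cardinalities of nested subgroups. -/
theorem ANextG_card {G : Type*} [AddCommGroup G] {K D : AddSubgroup G} (h : K ≤ D) :
    Nat.card D = K.relIndex D * Nat.card K := by
  have h1 := AddSubgroup.relIndex_mul_relIndex (⊥ : AddSubgroup G) K D bot_le h
  rw [AddSubgroup.relIndex_bot_left, AddSubgroup.relIndex_bot_left] at h1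
  rw [← h1, mul_comm]

theorem next_dbl {q : ℕ} [NeZero q] {D Γ : AddSubgroup (ZMod q)} (hΓ : Γ ≤ D) {x : ZMod q}
    (hx : x ∈ D) (hx2 : x + x ∉ Γ) : Next D (dbl D Γ) Γ := by
  have hK : dbl D Γ ≤ D := fun c hc => hc.1
  have hΓK : Γ ≤ dbl D Γ := fun c hc => ⟨hΓ hc, Γ.add_mem hc hc⟩
  refine ⟨hK, hΓK, ?_⟩
  have hpos : ∀ K : AddSubgroup (ZMod q), 0 < Nat.card K := fun K => Nat.card_pos
  have hxΓ : x ∉ Γ := fun h => hx2 (Γ.add_mem h h)
  rcases eq_or_lt_of_le hΓK with hE | hlt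
  · left
    rw [← hE, ANextG_card hΓ]
    have h0 : Γ.relIndex D ≠ 0 := by
      intro h
      have h1 := ANextG_card hΓ
      rw [h, zero_mul] at h1
      exact (hpos D).ne' h1
    have h1 : Γ.relIndex D ≠ 1 := by
      intro h
      rw [AddSubgroup.relIndex_eq_one] at h
      exact hxΓ (h hx)
    have h2 : Γ.relIndex D ≠ 2 := by
      intro h
      have h3 := AddSubgroup.add_self_mem_of_index_two (H := Γ.addSubgroupOf D) h ⟨x, hx⟩
      rw [AddSubgroup.mem_addSubgroupOf] at h3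
      exact hx2 h3
    exact Nat.mul_le_mul_right _ (by omega)
  · right
    refine ⟨?_, hlt⟩
    rw [ANextG_card hK]
    have h0 : (dbl D Γ).relIndex D ≠ 0 := by
      intro h
      have h1 := ANextG_card hK
      rw [h, zero_mul] at h1
      exact (hpos D).ne' h1
    have h1 : (dbl D Γ).relIndex D ≠ 1 := by
      intro h
      rw [AddSubgroup.relIndex_eq_one] at h
      exact hx2 (h hx).2
    exact Nat.mul_le_mul_right _ (by omega)

end MP0dbebe.CQ
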