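import Pool.Agent.Lib.MP_0dbebe_co.CQ.AReal
import Pool.Agent.Lib.MP_0dbebe_co.CQ.AHom
import Pool.Agent.Lib.MP_0dbebe_co.CQ.ANextG

/-!
# ACLAIM: the waste lemma

If `Y` has labels in `D` without short zero chains, then either there are no large admissible
cliques in `Y` or `Y` is closed for the next groups.

PROOF of `claim` by induction on `n` (for all `k`). `n = 0`: `Nat.card (CG c) ≤ q` contradicts
`q < Nat.card (CG c) + 0` (take `r' = r`). Step: let `r₁` be the number of `n, k + 2` (the families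
there have `k + 3` sets), `R₁` the number of `hom_exists q (k + 3) (max r₁ (max 2 ..))`; let
`r' = max` of `r, K, 2, r₁, R₁`. Let `F = (T, c, a)` be a family with `k + 1` sets of size `≥ r'`.
`hfam_not_zw` (AReal): no zero walks; `two_label_not_mem` (ACyc): `a 0 + a 0 ∉ Γ := CG c`;
`hfam_le`: `Γ ≤ D`; `hfam_lab_mem`; `next_dbl`: `Next D (dbl D Γ) Γ`. If
`Closed w Y (dbl D Γ) Γ r'`, done. Otherwise there are `T₁, T₂ ⊆ Y` of size `≥ r'`, admissible
colours `t, t'`, cross colour `c₀`, and not (`t ∈ Γ` and `c₀ ∈ dbl D Γ`). By `Closed w V' D E r`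
(`r ≤ r'`): `c₀ ∈ D`, so `t ∉ Γ` or `c₀ + c₀ ∉ Γ`. Apply `hom_exists` to the `k + 3` sets
`T 0, .., T k, T₁, T₂` (e.g. `Fin.snoc (Fin.snoc T T₁) T₂`): subsets of size `≥ r₁`, pairwise
homogeneous, with constant labels. They form an `HFam w b Y r₁ T'' c'' a''`, where
`c'' i j = c i j` for old indices, `c'' = t, t'` on the diagonal at the new indices, `c₀` between
the two new ones (choose `c''` on the remaining pairs by `hom_exists`). `CG c ≤ CG c''`
(`CG_comp` with the inclusion of the old indices), and `t ∈ CG c''` (`loop_mem`),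
`c₀ + c₀ ∈ CG c''` (`two_mem`), so `CG c < CG c''` and `Nat.card (CG c) + 1 ≤ Nat.card (CG c'')`
(finite groups). Hence `q < Nat.card (CG c'') + n`: the induction hypothesis gives the result with
`r₁ ≤ r'` (`Closed` is monotone in `r`).

It may be convenient to use for `c''` a definition by cases on values:
`c'' i j := (hom_exists-colour or diagonal colour)`, all determined by: pick distinct elements
`x ∈ T'' i`, `y ∈ T'' j` and put `c'' i j = w x y` (possible as all sets have at least 2 elements);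
then every property is proved from homogeneity.

PROOF of `waste`: `r'' = max` of the number of `claim` for `n = q`, `k = 0` and the number of
`hom_exists q 1 r'`. If there is `T ⊆ Y` with `r'' ≤ |T|`, admissible colour `t`: a subset of size
`≥ r'` with constant label (`hom_exists` with `k = 1`), the family with one set, `c 0 0 = t`;
`q < Nat.card (CG c) + q`.
-/

set_option autoImplicit false

namespace MP0dbebe.CQ

open Finset

theorem Closed.mono {α : Type} {q : ℕ} {w : α → α → ZMod q} {V' : Finset α}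
    {D E : AddSubgroup (ZMod q)} {r r' : ℕ} (h : Closed w V' D E r) (hr : r ≤ r') :
    Closed w V' D E r' :=
  fun T hT T' hT' h1 h2 => h T hT T' hT' (hr.trans h1) (hr.trans h2)

theorem claim (q : ℕ) (hq : 4 ≤ q) (K r : ℕ) (n : ℕ) : ∀ k : ℕ, ∃ r' : ℕ, r ≤ r' ∧
    ∀ (α : Type) (w : α → α → ZMod q), (∀ x y, w x y = w y x) →
    ∀ (V' Y : Finset α) (b : α → ZMod q) (D E : AddSubgroup (ZMod q)),
    Closed w V' D E r → Y ⊆ V' → (∀ y ∈ Y, b y ∈ D) → NoChain w b K Y → KL q D E K →
    ∀ (T : Fin (k + 1) → Finset α) (c : Fin (k + 1) → Fin (k + 1) → ZMod q)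
      (a : Fin (k + 1) → ZMod q), HFam w b Y r' T c a → q < Nat.card (CG c) + n →
    ∃ D' E' : AddSubgroup (ZMod q), Next D D' E' ∧ Closed w Y D' E' r' := by
  have : NeZero q := ⟨by omega⟩
  induction n with
  | zero =>
    intro k
    refine ⟨r, le_rfl, ?_⟩
    intro α w hw V' Y b D E _ _ _ _ _ T c a _ hlt
    exfalso
    have h1 : Nat.card (CG c) ≤ Nat.card (ZMod q) :=
      Nat.card_le_card_of_injective (fun x : CG c => (x : ZMod q)) Subtype.val_injective
    rw [Nat.card_zmod] at h1
    omega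
  | succ n ih =>
    intro k
    obtain ⟨r₁, hr₁, h₁⟩ := ih (k + 2)
    obtain ⟨R₁, hR₁, h₂⟩ := hom_exists q (k + 3) (max r₁ 2) (by omega)
    obtain ⟨r', hr'⟩ : ∃ r', r' = max r (max K (max 2 (max r₁ R₁))) := ⟨_, rfl⟩
    have e1 : r ≤ r' := by rw [hr']; exact le_max_left _ _
    have e2 : K ≤ r' := by rw [hr']; exact (le_max_left _ _).trans (le_max_right _ _)
    have e3 : 2 ≤ r' := by
      rw [hr']; exact (le_max_left _ _).trans ((le_max_right _ _).trans (le_max_right _ _))
    have e4 : r₁ ≤ r' := by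
      rw [hr']
      exact (le_max_left _ _).trans ((le_max_right _ _).trans
        ((le_max_right _ _).trans (le_max_right _ _)))
    have e5 : R₁ ≤ r' := by
      rw [hr']
      exact (le_max_right _ _).trans ((le_max_right _ _).trans
        ((le_max_right _ _).trans (le_max_right _ _)))
    refine ⟨r', e1, ?_⟩
    intro α w hw V' Y b D E hcl hYV hb hno hKL T c a hF hlt
    have hz := hfam_not_zw hw hF e3 hcl e1 hYV hb hno hKL e2
    have hsym : ∀ i j, c i j = c j i := fun i j => hfam_symm hw hF e3 i j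
    have h3 := two_label_not_mem hsym hz 0
    have h4 : CG c ≤ D := hfam_le hF hcl e1 hYV
    have h5 : a 0 ∈ D := hfam_lab_mem hF (by omega) hb 0
    have hN := next_dbl h4 h5 h3
    by_cases hC : Closed w Y (dbl D (CG c)) (CG c) r'
    · exact ⟨_, _, hN, hC⟩
    unfold Closed at hC
    push Not at hC
    obtain ⟨T₁, hT₁, T₂, hT₂, c1, c2, t, t', c₀, ht, ht', m1, m2, m3, hbad⟩ := hC
    have h6 : c₀ ∈ D := (hcl T₁ (hT₁.trans hYV) T₂ (hT₂.trans hYV) (e1.trans c1) (e1.trans c2)
      t t' c₀ ht ht' m1 m2 m3).2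
    have h7 : t ∉ CG c ∨ c₀ + c₀ ∉ CG c := by
      by_contra hcon
      push Not at hcon
      exact hbad hcon.1 (mem_dbl.2 ⟨h6, hcon.2⟩)
    -- the sets
    let S : Fin (k + 3) → Finset α :=
      Fin.snoc (α := fun _ => Finset α) (Fin.snoc (α := fun _ => Finset α) T T₁) T₂
    let old : Fin (k + 1) → Fin (k + 3) := fun i => i.castSucc.castSucc
    let i₁ : Fin (k + 3) := (Fin.last (k + 1)).castSucc
    let i₂ : Fin (k + 3) := Fin.last (k + 2)
    have hSold : ∀ i, S (old i) = T i := by
      intro i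
      simp only [S, old]
      rw [Fin.snoc_castSucc, Fin.snoc_castSucc]
    have hS1 : S i₁ = T₁ := by
      simp only [S, i₁]
      rw [Fin.snoc_castSucc, Fin.snoc_last]
    have hS2 : S i₂ = T₂ := by
      simp only [S, i₂]
      rw [Fin.snoc_last]
    have hcases : ∀ P : Fin (k + 3) → Prop, (∀ i, P (old i)) → P i₁ → P i₂ → ∀ i, P i := by
      intro P p1 p2 p3 i
      induction i using Fin.lastCases with
      | last => exact p3
      | cast j =>
        induction j using Fin.lastCases with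
        | last => exact p2
        | cast l => exact p1 l
    have hScard : ∀ i, R₁ ≤ (S i).card := by
      apply hcases
      · intro i; rw [hSold]; exact e5.trans (hF.card i)
      · rw [hS1]; exact e5.trans c1
      · rw [hS2]; exact e5.trans c2
    have hSsub : ∀ i, S i ⊆ Y := by
      apply hcases
      · intro i; rw [hSold]; exact hF.sub i
      · rw [hS1]; exact hT₁
      · rw [hS2]; exact hT₂
    have hSmono : ∀ i, ∃ s, AdmC s ∧ Mono w (S i) s := by
      apply hcases
      · intro i; rw [hSold]; exact ⟨c i i, hF.adm i, hF.hom i i⟩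
      · rw [hS1]; exact ⟨t, ht, m1⟩
      · rw [hS2]; exact ⟨t', ht', m2⟩
    obtain ⟨T', hT', hlab, hhom⟩ := h₂ α w b S hw hScard
    have hsub' : ∀ i, T' i ⊆ S i := fun i => (hT' i).1
    have hcard' : ∀ i, r₁ ≤ (T' i).card := fun i => (le_max_left _ _).trans (hT' i).2
    have hcard2 : ∀ i, 2 ≤ (T' i).card := fun i => (le_max_right _ _).trans (hT' i).2
    have hpick : ∀ i j, ∃ x ∈ T' i, ∃ y ∈ T' j, x ≠ y := by
      intro i j
      have hne : (T' i).Nonempty := Finset.card_pos.1 (by have := hcard2 i; omega)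
      obtain ⟨x, hx⟩ := hne
      obtain ⟨y, hy, hyx⟩ := Finset.exists_mem_ne (show 1 < (T' j).card by have := hcard2 j; omega) x
      exact ⟨x, hx, y, hy, hyx.symm⟩
    choose x hx y hy hxy using hpick
    let c' : Fin (k + 3) → Fin (k + 3) → ZMod q := fun i j => w (x i j) (y i j)
    choose a' ha' using hlab
    have hhom' : ∀ i j, Hom2 w (T' i) (T' j) (c' i j) := by
      intro i j
      by_cases hij : i = j
      · subst hij
        obtain ⟨s, _, hs⟩ := hSmono i
        intro u hu v hv huv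
        rw [hs u (hsub' i hu) v (hsub' i hv) huv]
        exact (hs _ (hsub' i (hx i i)) _ (hsub' i (hy i i)) (hxy i i)).symm
      · obtain ⟨s, hs⟩ := hhom i j hij
        intro u hu v hv huv
        rw [hs u hu v hv huv]
        exact (hs _ (hx i j) _ (hy i j) (hxy i j)).symm
    have hF' : HFam w b Y r₁ T' c' a' := by
      refine ⟨fun i => (hsub' i).trans (hSsub i), hcard', hhom', ?_, ha'⟩
      intro i
      obtain ⟨s, hs1, hs2⟩ := hSmono i
      have : c' i i = s := hs2 _ (hsub' i (hx i i)) _ (hsub' i (hy i i)) (hxy i i)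
      rw [this]; exact hs1
    have hsym' : ∀ i j, c' i j = c' j i := by
      intro i j
      have := hhom' j i (y i j) (hy i j) (x i j) (hx i j) (hxy i j).symm
      rw [← this]
      exact hw _ _
    have hold : (fun i j => c' (old i) (old j)) = c := by
      funext i j
      have h8 := hF.hom i j (x (old i) (old j))
        (by have := hsub' _ (hx (old i) (old j)); rwa [hSold] at this)
        (y (old i) (old j))
        (by have := hsub' _ (hy (old i) (old j)); rwa [hSold] at this) (hxy _ _)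
      exact h8
    have hle : CG c ≤ CG c' := by
      have := CG_comp (c := c') old
      rwa [hold] at this
    have ht1 : t ∈ CG c' := by
      have h8 : c' i₁ i₁ = t := m1 _ (by have := hsub' _ (hx i₁ i₁); rwa [hS1] at this) _
        (by have := hsub' _ (hy i₁ i₁); rwa [hS1] at this) (hxy _ _)
      rw [← h8]; exact loop_mem i₁
    have ht2 : c₀ + c₀ ∈ CG c' := by
      have h8 : c' i₁ i₂ = c₀ := m3 _ (by have := hsub' _ (hx i₁ i₂); rwa [hS1] at this) _
        (by have := hsub' _ (hy i₁ i₂); rwa [hS2] at this) (hxy _ _)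
      rw [← h8]; exact two_mem hsym' i₁ i₂
    have hlt' : Nat.card (CG c) < Nat.card (CG c') := by
      have hss : (CG c : Set (ZMod q)) ⊂ (CG c' : Set (ZMod q)) := by
        refine ⟨hle, fun hge => ?_⟩
        rcases h7 with h7 | h7
        · exact h7 (hge ht1)
        · exact h7 (hge ht2)
      have := Set.ncard_lt_ncard hss (Set.toFinite _)
      rwa [← Nat.card_coe_set_eq, ← Nat.card_coe_set_eq] at this
    obtain ⟨D', E', hD', hE'⟩ := h₁ α w hw V' Y b D E hcl hYV hb hno hKL T' c' a' hF' (by omega)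
    exact ⟨D', E', hD', hE'.mono e4⟩

theorem waste (q : ℕ) (hq : 4 ≤ q) (K r : ℕ) : ∃ r' : ℕ, r ≤ r' ∧
    ∀ (α : Type) (w : α → α → ZMod q), (∀ x y, w x y = w y x) →
    ∀ (V' Y : Finset α) (b : α → ZMod q) (D E : AddSubgroup (ZMod q)),
    Closed w V' D E r → Y ⊆ V' → (∀ y ∈ Y, b y ∈ D) → NoChain w b K Y → KL q D E K →
    (∀ T ⊆ Y, r' ≤ T.card → ∀ t, AdmC t → ¬ Mono w T t) ∨
    ∃ D' E' : AddSubgroup (ZMod q), Next D D' E' ∧ Closed w Y D' E' r' := by
  have : NeZero q := ⟨by omega⟩
  obtain ⟨r₁, hr₁, h₁⟩ := claim q hq K r q 0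
  obtain ⟨R₁, hR₁, h₂⟩ := hom_exists q 1 r₁ (by omega)
  refine ⟨R₁, hr₁.trans hR₁, ?_⟩
  intro α w hw V' Y b D E hcl hYV hb hno hKL
  by_cases hT : ∀ T ⊆ Y, R₁ ≤ T.card → ∀ t, AdmC t → ¬ Mono w T t
  · exact Or.inl hT
  right
  push Not at hT
  obtain ⟨T, hTY, hTc, t, ht, hm⟩ := hT
  obtain ⟨T', hT', hlab, -⟩ := h₂ α w b (fun _ => T) hw (fun _ => hTc)
  choose a ha using hlab
  have hF : HFam w b Y r₁ T' (fun _ _ => t) a := by
    refine ⟨fun i => (hT' i).1.trans hTY, fun i => (hT' i).2, ?_, fun _ => ht, ha⟩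
    intro i j u hu v hv huv
    exact hm u ((hT' i).1 hu) v ((hT' j).1 hv) huv
  have hpos : 0 < Nat.card (CG (fun _ _ : Fin (0 + 1) => t)) := Nat.card_pos
  obtain ⟨D', E', hD', hE'⟩ := h₁ α w hw V' Y b D E hcl hYV hb hno hKL T' (fun _ _ => t) a hF
    (by omega)
  exact ⟨D', E', hD', hE'.mono hR₁⟩

end MP0dbebe.CQ
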