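import Pool.Agent.Lib.MP_0dbebe_co.CQ.AWalk

/-!
# ACYC: the closed walk group

`CG c` = subgroup generated by the loops `c x x` and the triangles `c x y + c y z + c z x`.
`c` is symmetric.

PROOFS.
* `two_mem`: triangle `x, y, x` is `c x y + c y x + c x x`; subtract the loop.
* `cocycle_mem`: triangle minus twice `c x z`.
* `pw_mem`: induction on the list (for `[]`: `- c p p`), `cocycle_mem`.
* `reach_coset`: `reach_list` and `pw_mem` (or induction on the derivation: `start`: `p = x`,
  `g - (a x + c x x) = - c x x`; `step`: `cocycle_mem`).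
* `realize` (`G` finite): for fixed `x` the set `V_x` of all `g` such that `g = 0` or
  `g = pw c (x :: (l ++ [x]))` for some list `l` is closed under addition (concatenate:
  `x :: (l ++ x :: (l' ++ [x]))`), contains `0` as value `n • g` (`G` finite), so it is closed under
  negation: `- g = (order - 1) • g`. It contains `c x x` (`l = []`), `c x y + c y x` (`l = [y]`),
  `c y y` (`l = [y, y]` gives `c x y + c y y + c y x`, subtract `c x y + c y x`), and the triangle
  `y z u` (`l = [y, z, u, y]` gives `c x y + (triangle) + c y x`). So it contains `CG c`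
  (`AddSubgroup.closure_le` / `closure_induction`). For `g = 0` itself use
  `n • c x x = 0` with `n = addOrderOf (c x x) > 0`: the list of `n - 1` copies of `x`.
* `two_label_not_mem`: if `a x + a x` were in `CG c`, then `- (a x + a x)` would be realised by
  `x :: (l ++ [x])`, whose `cval` is `0`.
* `CG_comp`: `AddSubgroup.closure_mono`-like: generators go to generators.
* `CG_map`: `CG` of the image is the image (`AddMonoidHom.map_closure`), only the inequality needed.
-/

set_option autoImplicit false

namespace MP0dbebe.CQ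

variable {X G : Type*} [AddCommGroup G] {c : X → X → G} {a : X → G}

theorem loop_mem (x : X) : c x x ∈ CG c :=
  AddSubgroup.subset_closure (Or.inl ⟨x, rfl⟩)

theorem tri_mem (x y z : X) : c x y + c y z + c z x ∈ CG c :=
  AddSubgroup.subset_closure (Or.inr ⟨x, y, z, rfl⟩)

theorem two_mem (hc : ∀ x y, c x y = c y x) (x y : X) : c x y + c x y ∈ CG c := by
  have h1 := (CG c).sub_mem (tri_mem (c := c) x y x) (loop_mem x)
  rw [hc y x, add_sub_cancel_right] at h1
  exact h1

theorem cocycle_mem (hc : ∀ x y, c x y = c y x) (x y z : X) :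
    c x y + c y z - c x z ∈ CG c := by
  have h1 := (CG c).sub_mem (tri_mem (c := c) x y z) (two_mem hc x z)
  rw [hc z x] at h1
  have h2 : c x y + c y z - c x z = c x y + c y z + c x z - (c x z + c x z) := by abel
  rw [h2]
  exact h1

theorem pw_mem (hc : ∀ x y, c x y = c y x) (p : X) (l : List X) :
    pw c (p :: l) - c p ((p :: l).getLast (List.cons_ne_nil p l)) ∈ CG c := by
  induction l generalizing p with
  | nil =>
    have h1 := (CG c).neg_mem (loop_mem (c := c) p)
    rw [pw_single, zero_sub]
    exact h1
  | cons q l ih =>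
    have h1 := (CG c).add_mem (ih q)
      (cocycle_mem hc p q ((q :: l).getLast (List.cons_ne_nil q l)))
    rw [pw_cons_cons, List.getLast_cons (List.cons_ne_nil q l)]
    have h2 : c p q + pw c (q :: l) - c p ((q :: l).getLast (List.cons_ne_nil q l)) =
        pw c (q :: l) - c q ((q :: l).getLast (List.cons_ne_nil q l)) +
          (c p q + c q ((q :: l).getLast (List.cons_ne_nil q l)) -
            c p ((q :: l).getLast (List.cons_ne_nil q l))) := by abel
    rw [h2]
    exact h1

theorem reach_coset (hc : ∀ x y, c x y = c y x) {P : X → Prop} {k : ℕ} {x : X} {g : G}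
    (h : Reach c a P k x g) : ∃ p, P p ∧ g - (a p + c p x) ∈ CG c := by
  induction h with
  | start k x hx =>
    refine ⟨x, hx, ?_⟩
    have h1 := (CG c).neg_mem (loop_mem (c := c) x)
    have h2 : a x - (a x + c x x) = - c x x := by abel
    rw [h2]
    exact h1
  | step k y x g h ih =>
    obtain ⟨p, hp, hg⟩ := ih
    refine ⟨p, hp, ?_⟩
    have h1 := (CG c).add_mem hg (cocycle_mem hc p y x)
    have h2 : g + c y x - (a p + c p x) =
        g - (a p + c p y) + (c p y + c y x - c p x) := by abel
    rw [h2]
    exact h1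

theorem ACyc_pw_append (p x : X) (l m : List X) :
    pw c (p :: (l ++ x :: m)) = pw c (p :: (l ++ [x])) + pw c (x :: m) := by
  induction l generalizing p with
  | nil =>
    rw [List.nil_append, List.nil_append, pw_cons_cons, pw_cons_cons, pw_single, add_zero]
  | cons q l ih =>
    rw [List.cons_append, List.cons_append, pw_cons_cons, pw_cons_cons, ih q, add_assoc]

theorem realize [Finite G] (hc : ∀ x y, c x y = c y x) {g : G} (hg : g ∈ CG c) (x : X) :
    ∃ l : List X, pw c (x :: (l ++ [x])) = g := by
  have hadd : ∀ u v : G, (∃ l : List X, pw c (x :: (l ++ [x])) = u) →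
      (∃ l : List X, pw c (x :: (l ++ [x])) = v) →
      ∃ l : List X, pw c (x :: (l ++ [x])) = u + v := by
    rintro u v ⟨l, rfl⟩ ⟨m, rfl⟩
    refine ⟨l ++ x :: m, ?_⟩
    rw [List.append_assoc, List.cons_append, ACyc_pw_append]
  have hloop : ∃ l : List X, pw c (x :: (l ++ [x])) = c x x :=
    ⟨[], by rw [List.nil_append, pw_cons_cons, pw_single, add_zero]⟩
  have hsmul : ∀ u : G, (∃ l : List X, pw c (x :: (l ++ [x])) = u) → ∀ n : ℕ,
      ∃ l : List X, pw c (x :: (l ++ [x])) = (n + 1) • u := by
    intro u hu n
    induction n with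
    | zero => rw [zero_add, one_nsmul]; exact hu
    | succ n ih => rw [succ_nsmul]; exact hadd _ _ ih hu
  have hzero : ∀ u : G, (∃ l : List X, pw c (x :: (l ++ [x])) = u) →
      ∃ l : List X, pw c (x :: (l ++ [x])) = 0 := by
    intro u hu
    have h1 : 0 < addOrderOf u := (isOfFinAddOrder_of_finite u).addOrderOf_pos
    have h2 := hsmul u hu (addOrderOf u - 1)
    rw [Nat.sub_add_cancel h1, addOrderOf_nsmul_eq_zero] at h2
    exact h2
  have hneg : ∀ u : G, (∃ l : List X, pw c (x :: (l ++ [x])) = u) →
      ∃ l : List X, pw c (x :: (l ++ [x])) = -u := by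
    intro u hu
    have h1 : 0 < addOrderOf u := (isOfFinAddOrder_of_finite u).addOrderOf_pos
    have h2 := addOrderOf_nsmul_eq_zero u
    rcases Nat.eq_zero_or_pos (addOrderOf u - 1) with h3 | h3
    · have h4 : addOrderOf u = 1 := by omega
      rw [h4, one_nsmul] at h2
      rw [h2, neg_zero]
      exact hzero u hu
    · obtain ⟨m, hm⟩ : ∃ m, addOrderOf u = m + 1 + 1 := ⟨addOrderOf u - 2, by omega⟩
      rw [hm, succ_nsmul] at h2
      have h4 : -u = (m + 1) • u := (eq_neg_of_add_eq_zero_left h2).symm
      rw [h4]
      exact hsmul u hu m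
  let S : AddSubgroup G :=
    { carrier := {g | ∃ l : List X, pw c (x :: (l ++ [x])) = g}
      add_mem' := fun {u v} hu hv => hadd u v hu hv
      zero_mem' := hzero _ hloop
      neg_mem' := fun {u} hu => hneg u hu }
  have h2 : ∀ y, c x y + c y x ∈ S := fun y =>
    ⟨[y], by
      rw [List.cons_append, List.nil_append, pw_cons_cons, pw_cons_cons, pw_single, add_zero]⟩
  have hle : CG c ≤ S := by
    unfold CG
    rw [AddSubgroup.closure_le]
    rintro g (⟨y, rfl⟩ | ⟨y, z, u, rfl⟩)
    · have h3 : c x y + (c y y + c y x) ∈ S :=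
        ⟨[y, y], by
          rw [List.cons_append, List.cons_append, List.nil_append, pw_cons_cons, pw_cons_cons,
            pw_cons_cons, pw_single, add_zero]⟩
      have h4 := S.sub_mem h3 (h2 y)
      have h5 : c x y + (c y y + c y x) - (c x y + c y x) = c y y := by abel
      rw [h5] at h4
      exact h4
    · have h3 : c x y + (c y z + (c z u + (c u y + c y x))) ∈ S :=
        ⟨[y, z, u, y], by
          rw [List.cons_append, List.cons_append, List.cons_append, List.cons_append,
            List.nil_append, pw_cons_cons, pw_cons_cons, pw_cons_cons, pw_cons_cons,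
            pw_cons_cons, pw_single, add_zero]⟩
      have h4 := S.sub_mem h3 (h2 y)
      have h5 : c x y + (c y z + (c z u + (c u y + c y x))) - (c x y + c y x) =
          c y z + c z u + c u y := by abel
      rw [h5] at h4
      exact h4
  exact hle hg

theorem two_label_not_mem [Finite G] (hc : ∀ x y, c x y = c y x) (hz : ¬ ∃ L, ZW c a L) (x : X) :
    a x + a x ∉ CG c := by
  intro hx
  obtain ⟨l, hl⟩ := realize hc ((CG c).neg_mem hx) x
  refine hz ⟨(x :: (l ++ [x])).length, x :: (l ++ [x]), List.cons_ne_nil _ _, le_rfl, ?_⟩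
  have h1 : (x :: (l ++ [x])).getLast (List.cons_ne_nil _ _) = x := by
    rw [List.getLast_cons (by simp), List.getLast_append_singleton]
  change a x + pw c (x :: (l ++ [x])) + a ((x :: (l ++ [x])).getLast (List.cons_ne_nil _ _)) = 0
  rw [h1, hl]
  abel

theorem CG_comp {Y : Type*} (f : Y → X) : CG (fun y z => c (f y) (f z)) ≤ CG c := by
  unfold CG
  rw [AddSubgroup.closure_le]
  rintro g (⟨y, rfl⟩ | ⟨y, z, u, rfl⟩)
  · exact loop_mem (c := c) (f y)
  · exact tri_mem (c := c) (f y) (f z) (f u)

theorem CG_le {D : AddSubgroup G} (h : ∀ x y, c x y ∈ D) : CG c ≤ D := by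
  unfold CG
  rw [AddSubgroup.closure_le]
  rintro g (⟨y, rfl⟩ | ⟨y, z, u, rfl⟩)
  · exact h y y
  · exact D.add_mem (D.add_mem (h y z) (h z u)) (h u y)

end MP0dbebe.CQ
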