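import Pool.Agent.Lib.MP_0dbebe_co.CQ.BDefs
import Pool.Agent.Lib.MP_0dbebe_co.FB

/-!
# Composite moduli, part (a): definitions (walks, closed walk group, families)
-/

set_option autoImplicit false

namespace MP0dbebe.CQ

open Finset

section Walks

variable {X G : Type*} [AddCommGroup G]

/-- The value of a nonempty list: label of the first element, weight of the list, label of the last
element. -/
def cval (c : X → X → G) (a : X → G) : List X → G
  | [] => 0
  | x :: l => a x + pw c (x :: l) + a ((x :: l).getLast (List.cons_ne_nil x l))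

/-- There is a zero walk with at most `L` vertices (repetitions are allowed, the loop weights
`c x x` are used for repeated vertices). -/
def ZW (c : X → X → G) (a : X → G) (L : ℕ) : Prop :=
  ∃ l : List X, l ≠ [] ∧ l.length ≤ L ∧ cval c a l = 0

/-- Walks with at most `k` vertices that start in `P` and end in `x`; `g` is the label of the first
vertex plus the weight of the walk. -/
inductive Reach (c : X → X → G) (a : X → G) (P : X → Prop) : ℕ → X → G → Prop
  | start (k : ℕ) (x : X) (hx : P x) : Reach c a P (k + 1) x (a x)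
  | step (k : ℕ) (y x : X) (g : G) (h : Reach c a P k y g) : Reach c a P (k + 1) x (g + c y x)

/-- The set of values of walks with at most `k` vertices from `P` to `x`. -/
def RS (c : X → X → G) (a : X → G) (P : X → Prop) (k : ℕ) (x : X) : Set G :=
  {g | Reach c a P k x g}

/-- The closed walk group: generated by the loops and the triangles. -/
def CG (c : X → X → G) : AddSubgroup G :=
  AddSubgroup.closure ({g | ∃ x, g = c x x} ∪ {g | ∃ x y z, g = c x y + c y z + c z x})

end Walks

section Cliques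

variable {α : Type} {q : ℕ}

/-- All pairs of distinct elements of `T` have weight `t`. -/
def Mono (w : α → α → ZMod q) (T : Finset α) (t : ZMod q) : Prop :=
  ∀ x ∈ T, ∀ y ∈ T, x ≠ y → w x y = t

/-- All pairs of distinct elements of `T × T'` have weight `c`. -/
def Hom2 (w : α → α → ZMod q) (T T' : Finset α) (c : ZMod q) : Prop :=
  ∀ x ∈ T, ∀ y ∈ T', x ≠ y → w x y = c

/-- Admissible colours: nonzero and not a unit. -/
def AdmC (t : ZMod q) : Prop := t ≠ 0 ∧ ¬ IsUnit t

/-- Every `W ⊆ V'` with `|α| ≤ D₀ |W|` contains an admissible clique with `R` elements. -/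
def Rich [Fintype α] (w : α → α → ZMod q) (V' : Finset α) (D₀ R : ℕ) : Prop :=
  ∀ W ⊆ V', Fintype.card α ≤ D₀ * W.card → ∃ t : ZMod q, AdmC t ∧ ∃ T ⊆ W, T.card = R ∧ Mono w T t

/-- Admissible cliques in `V'` with at least `r` elements have colours in `E`, homogeneous pairs of
them have cross colours in `D`. -/
def Closed (w : α → α → ZMod q) (V' : Finset α) (D E : AddSubgroup (ZMod q)) (r : ℕ) : Prop :=
  ∀ T ⊆ V', ∀ T' ⊆ V', r ≤ T.card → r ≤ T'.card → ∀ t t' c : ZMod q, AdmC t → AdmC t' →
    Mono w T t → Mono w T' t' → Hom2 w T T' c → t ∈ E ∧ c ∈ D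

/-- A homogeneous family with constant labels. -/
structure HFam (w : α → α → ZMod q) (b : α → ZMod q) (Y : Finset α) (r : ℕ) {k : ℕ}
    (T : Fin k → Finset α) (c : Fin k → Fin k → ZMod q) (a : Fin k → ZMod q) : Prop where
  sub : ∀ i, T i ⊆ Y
  card : ∀ i, r ≤ (T i).card
  hom : ∀ i j, Hom2 w (T i) (T j) (c i j)
  adm : ∀ i, AdmC (c i i)
  lab : ∀ i, ∀ x ∈ T i, b x = a i

/-- `Y` contains no zero chain with at most `K` vertices for the labels `b`. -/
def NoChain (w : α → α → ZMod q) (b : α → ZMod q) (K : ℕ) (Y : Finset α) : Prop :=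
  ∀ l : List α, l ≠ [] → l.Nodup → l.length ≤ K → (∀ x ∈ l, x ∈ Y) → cval w b l ≠ 0

end Cliques

section Groups

/-- The chain lemma for labels and weights in `D` and loops in `E`, with the bound `K`. -/
def KL (q : ℕ) (D E : AddSubgroup (ZMod q)) (K : ℕ) : Prop :=
  ∀ (k : ℕ) (c : Fin k → Fin k → ZMod q) (a : Fin k → ZMod q), (∀ i j, c i j = c j i) →
    (∀ i j, c i j ∈ D) → (∀ i, c i i ∈ E ∧ AdmC (c i i)) → (∀ i, a i ∈ D) →
    (∃ L, ZW c a L) → ZW c a K

/-- The invariant of level `i` of the recursion. -/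
def Inv (q i : ℕ) (D E : AddSubgroup (ZMod q)) : Prop :=
  E ≤ D ∧ ((2 ^ i * Nat.card D ≤ q ∧ (E < D ∨ D = ⊤)) ∨ 3 * 2 ^ i * Nat.card D ≤ 2 * q)

/-- The next groups of the recursion. -/
def Next {q : ℕ} (D D' E' : AddSubgroup (ZMod q)) : Prop :=
  D' ≤ D ∧ E' ≤ D' ∧ (3 * Nat.card D' ≤ Nat.card D ∨ (2 * Nat.card D' ≤ Nat.card D ∧ E' < D'))

end Groups

end MP0dbebe.CQ
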