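import Pool.Agent.Lib.MP_0dbebe_co.CQ.ACyc

/-!
# AGROW: growth of the sets of walk values

`G` finite, `c` symmetric, `R k x := RS c a P k x`, `Γ := CG c`. All cardinalities are at most
`Nat.card G`, so maxima over `x` exist although `X` may be infinite.

FACTS. (F1) `R k x ⊆ R (k+1) x` (`reach_mono`). (F2) `(R k y) + c y x ⊆ R (k+1) x` (`Reach.step`).
`grow_all`: from `n ≤ (R k x₀).ncard` and (F2) with `y = x₀`: `n ≤ (R (k+1) x).ncard` for all `x`
(translation is injective).

STEP. Let `1 ≤ k`, and let `μ` be the maximum of `(R k x).ncard` over `x`, attained at `x₀`, with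
`1 ≤ μ`. Claim: there is `x` with `min (μ + 1) (Nat.card Γ) ≤ (R (k+2) x).ncard`. If some
`(R (k+2) x).ncard ≥ μ + 1`, done. Otherwise `(R (k+2) x).ncard ≤ μ` for all `x`. By `grow_all`
`μ ≤ (R (k+1) x).ncard`, and by (F1), (F2) `R (k+1) y + c y x ⊆ R (k+2) x`,
`R (k+1) x ⊆ R (k+2) x`; all sets have exactly `μ` elements, so
`R (k+1) x = R (k+2) x = R (k+1) y + c y x` for all `x, y`. Hence `R (k+1) x` is invariant under
adding `c x x` (take `y = x`) and `c x y + c y z + c z x` (three times the equation), so under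
adding any element of `Γ` (closure induction; for negatives: the set is finite, or
`S = S + g` implies `S + (-g) = S`). As it is nonempty (`μ ≥ 1`), it contains a coset of `Γ`, so
`μ ≥ Nat.card Γ`.

`grow1`: induction on `i`: `i = 0`: `R 1 x ∋ a x` for `x` with `P x`. Step: apply STEP with
`k = 2 i + 1` (`min` arithmetic).

`grow2` (`Γ = ⊤`, `P` always true, `2 ≤ Nat.card G`): first `i = 1`: some `(R 2 x).ncard ≥ 2`.
Otherwise `R 2 x = {a x}` for all `x` (it contains `a x` by `start`), and it contains
`a y + c y x` (`start` and `step`), so `c y x = a x - a y`. With `y = x`: loops are `0`; triangles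
are `0` too. So all generators of `Γ` vanish, `Γ = ⊥ ≠ ⊤`, contradiction with `2 ≤ Nat.card G`.
Step `i → i + 1`: STEP with `k = 2 i` and `Nat.card Γ = Nat.card G`.
-/

set_option autoImplicit false

namespace MP0dbebe.CQ

variable {X G : Type*} [AddCommGroup G] [Finite G] {c : X → X → G} {a : X → G}

theorem AGrow_sub (P : X → Prop) (k : ℕ) (x y : X) :
    (fun g => g + c x y) '' RS c a P k x ⊆ RS c a P (k + 1) y := by
  rintro _ ⟨g, hg, rfl⟩
  exact Reach.step k x y g hg

theorem grow_all {P : X → Prop} {k n : ℕ} (h : ∃ x, n ≤ (RS c a P k x).ncard) (x : X) :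
    n ≤ (RS c a P (k + 1) x).ncard := by
  obtain ⟨x₀, h0⟩ := h
  have h1 := Set.ncard_le_ncard (AGrow_sub (c := c) (a := a) P k x₀ x) (Set.toFinite _)
  rw [Set.ncard_image_of_injective _ (add_left_injective _)] at h1
  exact h0.trans h1

/-- The stabiliser of a set under translations. -/
def AGrow_stab (S : Set G) : AddSubgroup G where
  carrier := {g | (fun u => u + g) '' S = S}
  add_mem' := by
    intro g g' hg hg'
    have h1 : (fun u : G => u + g) '' S = S := hg
    have h2 : (fun u : G => u + g') '' S = S := hg'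
    change (fun u : G => u + (g + g')) '' S = S
    have h3 : (fun u : G => u + (g + g')) = (fun u => u + g') ∘ fun u => u + g := by
      funext u
      exact (add_assoc u g g').symm
    rw [h3, Set.image_comp, h1, h2]
  zero_mem' := by
    change (fun u : G => u + 0) '' S = S
    simp
  neg_mem' := by
    intro g hg
    have h1 : (fun u : G => u + g) '' S = S := hg
    change (fun u : G => u + -g) '' S = S
    conv_lhs => rw [← h1]
    rw [← Set.image_comp]
    have h3 : (fun u : G => u + -g) ∘ (fun u : G => u + g) = id := by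
      funext u
      simp
    rw [h3, Set.image_id]

theorem AGrow_stab_mem {S : Set G} {g : G} :
    g ∈ AGrow_stab S ↔ (fun u => u + g) '' S = S := Iff.rfl

theorem AGrow_step (hc : ∀ x y, c x y = c y x) {P : X → Prop} {k μ : ℕ} (hμ : 1 ≤ μ)
    (h : ∃ x, μ ≤ (RS c a P k x).ncard) :
    ∃ x, min (μ + 1) (Nat.card (CG c)) ≤ (RS c a P (k + 2) x).ncard := by
  by_contra hcon
  push Not at hcon
  have hle : ∀ x, (RS c a P (k + 2) x).ncard ≤ μ := fun x => by
    have h1 := hcon x
    omega
  have hge : ∀ x, μ ≤ (RS c a P (k + 1) x).ncard := grow_all h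
  have hsub : ∀ x, RS c a P (k + 1) x ⊆ RS c a P (k + 2) x := fun x g hg =>
    reach_mono (Nat.le_succ _) hg
  have heq : ∀ x, RS c a P (k + 1) x = RS c a P (k + 2) x := fun x =>
    Set.eq_of_subset_of_ncard_le (hsub x) ((hle x).trans (hge x)) (Set.toFinite _)
  have htr : ∀ x y, (fun g => g + c x y) '' RS c a P (k + 1) x = RS c a P (k + 1) y := by
    intro x y
    rw [heq y]
    refine Set.eq_of_subset_of_ncard_le (AGrow_sub P (k + 1) x y) ?_ (Set.toFinite _)
    rw [Set.ncard_image_of_injective _ (add_left_injective _)]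
    exact (hle y).trans (hge x)
  obtain ⟨x₀, _⟩ := h
  obtain ⟨S, hS⟩ : ∃ S : Set G, S = RS c a P (k + 1) x₀ := ⟨_, rfl⟩
  have hcomm : ∀ (T : Set G) (u v : G),
      (fun g => g + u) '' ((fun g => g + v) '' T) = (fun g => g + v) '' ((fun g => g + u) '' T) := by
    intro T u v
    rw [← Set.image_comp, ← Set.image_comp]
    congr 1
    funext g
    exact add_right_comm g v u
  have hadd : ∀ (T : Set G) (u v : G),
      (fun g => g + (u + v)) '' T = (fun g => g + v) '' ((fun g => g + u) '' T) := by
    intro T u v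
    rw [← Set.image_comp]
    congr 1
    funext g
    exact (add_assoc g u v).symm
  have hstab : CG c ≤ AGrow_stab S := by
    unfold CG
    rw [AddSubgroup.closure_le]
    rintro g (⟨y, rfl⟩ | ⟨y, z, u, rfl⟩)
    · change (fun g => g + c y y) '' S = S
      rw [hS, ← htr y x₀, hcomm, htr y y]
    · change (fun g => g + (c y z + c z u + c u y)) '' S = S
      have h1 : (fun g => g + (c y z + c z u + c u y)) '' RS c a P (k + 1) y =
          RS c a P (k + 1) y := by
        rw [hadd, hadd, htr y z, htr z u, htr u y]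
      rw [hS, ← htr y x₀, hcomm, h1]
  have hne : S.Nonempty := by
    have h1 : 0 < S.ncard := by
      rw [hS]
      exact lt_of_lt_of_le hμ (hge x₀)
    exact (Set.ncard_pos (Set.toFinite _)).1 h1
  obtain ⟨s, hs⟩ := hne
  have hcoset : (fun g => s + g) '' (CG c : Set G) ⊆ S := by
    rintro _ ⟨g, hg, rfl⟩
    have h1 := AGrow_stab_mem.1 (hstab hg)
    rw [← h1]
    exact ⟨s, hs, rfl⟩
  have h1 := Set.ncard_le_ncard hcoset (Set.toFinite _)
  rw [Set.ncard_image_of_injective _ (add_right_injective s)] at h1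
  have h2 : Nat.card (CG c) = (CG c : Set G).ncard := rfl
  have h3 := hcon x₀
  have h4 : S.ncard ≤ (RS c a P (k + 2) x₀).ncard := by
    rw [hS, heq x₀]
  omega

theorem grow1 (hc : ∀ x y, c x y = c y x) {P : X → Prop} (hP : ∃ x, P x) (i : ℕ) :
    ∃ x, min (i + 1) (Nat.card (CG c)) ≤ (RS c a P (2 * i + 1) x).ncard := by
  have hpos : 0 < Nat.card (CG c) := Nat.card_pos
  induction i with
  | zero =>
    obtain ⟨x, hx⟩ := hP
    refine ⟨x, ?_⟩
    have h1 : (RS c a P (2 * 0 + 1) x).Nonempty := ⟨a x, Reach.start 0 x hx⟩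
    have h2 := (Set.ncard_pos (Set.toFinite _)).2 h1
    omega
  | succ i ih =>
    obtain ⟨x, hx⟩ := AGrow_step hc (by omega) ih
    refine ⟨x, ?_⟩
    have h1 : 2 * (i + 1) + 1 = 2 * i + 1 + 2 := by ring
    rw [h1]
    omega

theorem grow2 [Nonempty X] (hc : ∀ x y, c x y = c y x) (htop : CG c = ⊤)
    (hG : 2 ≤ Nat.card G) (i : ℕ) (hi : 1 ≤ i) :
    ∃ x, min (i + 1) (Nat.card G) ≤ (RS c a (fun _ => True) (2 * i) x).ncard := by
  have hcard : Nat.card (CG c) = Nat.card G := by
    rw [htop]
    exact AddSubgroup.card_top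
  induction i, hi using Nat.le_induction with
  | base =>
    by_contra hcon
    push Not at hcon
    have h1 : ∀ x, (RS c a (fun _ => True) 2 x).ncard ≤ 1 := fun x => by
      have h2 := hcon x
      have h3 : (RS c a (fun _ => True) (2 * 1) x).ncard =
        (RS c a (fun _ => True) 2 x).ncard := rfl
      omega
    have h2 : ∀ x y, a y + c y x = a x := by
      intro x y
      exact (Set.ncard_le_one (Set.toFinite _)).1 (h1 x) _
        (Reach.step 1 y x (a y) (Reach.start 0 y trivial)) _ (Reach.start 1 x trivial)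
    have h3 : ∀ x y, c y x = a x - a y := fun x y => by
      rw [← h2 x y]; abel
    have h4 : CG c ≤ ⊥ := by
      unfold CG
      rw [AddSubgroup.closure_le]
      rintro g (⟨y, rfl⟩ | ⟨y, z, u, rfl⟩)
      · change c y y ∈ (⊥ : AddSubgroup G)
        rw [AddSubgroup.mem_bot, h3, sub_self]
      · change c y z + c z u + c u y ∈ (⊥ : AddSubgroup G)
        rw [AddSubgroup.mem_bot, h3, h3, h3]
        abel
    have h5 : Nat.card G ≤ 1 := by
      rw [← hcard, le_bot_iff.1 h4, AddSubgroup.card_bot]
    omega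
  | succ i hi ih =>
    have h0 : 1 ≤ min (i + 1) (Nat.card G) := by omega
    obtain ⟨x, hx⟩ := AGrow_step hc h0 ih
    refine ⟨x, ?_⟩
    have h1 : 2 * (i + 1) = 2 * i + 2 := by ring
    rw [h1]
    omega

end MP0dbebe.CQ
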