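import Pool.Agent.Lib.MP_0dbebe_co.CQ.AZero

/-!
# AKCORE: the chain lemma in a finite cyclic group

`G` finite cyclic of order `d ≥ 4`, all loops nonzero and no generators, and there is a zero walk.
Then there is one with at most `d - 2` vertices.

`lift_loops`: `- cval c a l ∈ zmultiples (c y y)`, so it is `j • c y y` with
`j < addOrderOf (c y y)`; `cval_insert` (AWalk) inserts `j` copies of `y`.

PROOF of `kcore`. `X` is nonempty (zero walk). For a vertex `y` let `H = zmultiples (c y y)`,
`h = addOrderOf (c y y) = Nat.card H`, `Q = G ⧸ H`, `g = Nat.card Q`, `g * h = d`, `g ≥ 2` as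
`H ≠ ⊤`, `h ≥ 2` as `c y y ≠ 0`. Let `π : G → Q`, `c' = π ∘ c`, `a' = π ∘ a`; `cval_map`: a zero
walk of `c', a'` is a list `l` with `cval c a l ∈ H`; zero walks of `c, a` are zero walks of
`c', a'`. If `CG c' ≠ ⊤` then `2 * Nat.card (CG c') ≤ g`.

Case A: some `y` has `h ≥ 3`. If `g = 2`: `cval c a [y] = a y + a y ∈ H` (group `Q` of order 2), so
`ZW (1 + h - 1)`, and `h = d / 2 ≤ d - 2`. If `g ≥ 3` and `CG c' = ⊤`: `zero_top` at `y`:
`ZW (2 g - 1 + h - 1)` and `2 g + h - 2 ≤ g h - 2` because `(g - 1) (h - 2) ≥ 2`. If `g ≥ 3` and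
`CG c' ≠ ⊤`: `zero_through` at `y`: length `≤ g + 1`, so `ZW (g + 1 + h - 1)` and
`g + h ≤ g h - 2` because `(g - 1) (h - 1) ≥ 4`.

Case B: all `y` have `h = 2`. All subgroups `zmultiples (c y y)` have order 2, hence are equal to one
subgroup `H` (cyclic group; Group.lean has `MP0dbebe.subgroup_unique` for equal index, with
`[Finite G] [IsAddCyclic G]`), `g = d / 2 ≥ 2`. If `g = 2`: `[y]` as before, `ZW 2`, `d - 2 = 2`. If
`g ≥ 3`: `CG c' = ⊤`: `zero_half`: a list `l` with at most `2 g - 3` vertices and `cval c a l ∈ H`;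
take any `y ∈ l`; `lift_loops`: `ZW (2 g - 3 + 1)`, `= d - 2`. `CG c' ≠ ⊤`: `zero_any`: length
`≤ g`, so `ZW (g + 1)` and `g + 1 ≤ 2 g - 2`.
-/

set_option autoImplicit false

namespace MP0dbebe.CQ

variable {X G : Type*} [AddCommGroup G] [Finite G] {c : X → X → G} {a : X → G}

theorem lift_loops (y : X) (l : List X) (hy : y ∈ l)
    (hl : cval c a l ∈ AddSubgroup.zmultiples (c y y)) :
    ZW c a (l.length + addOrderOf (c y y) - 1) := by
  classical
  have h1 : - cval c a l ∈ AddSubgroup.zmultiples (c y y) := neg_mem hl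
  rw [mem_zmultiples_iff_mem_range_addOrderOf, Finset.mem_image] at h1
  obtain ⟨j, hj, hj2⟩ := h1
  rw [Finset.mem_range] at hj
  obtain ⟨l', hl1, hl2, hl3⟩ := cval_insert (c := c) (a := a) l y hy j
  refine ⟨l', hl1, by omega, ?_⟩
  rw [hl3]
  have hj3 : j • c y y = - cval c a l := hj2
  rw [hj3]; abel

private theorem quot_zw (H : AddSubgroup G) {L : ℕ} (h : ZW c a L) :
    ZW (fun x y => QuotientAddGroup.mk' H (c x y)) (fun x => QuotientAddGroup.mk' H (a x)) L := by
  obtain ⟨l, h1, h2, h3⟩ := h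
  refine ⟨l, h1, h2, ?_⟩
  rw [cval_map, h3, map_zero]

private theorem quot_mem (H : AddSubgroup G) {l : List X}
    (h : cval (fun x y => QuotientAddGroup.mk' H (c x y))
      (fun x => QuotientAddGroup.mk' H (a x)) l = 0) : cval c a l ∈ H := by
  rw [cval_map] at h
  exact (QuotientAddGroup.eq_zero_iff _).1 h

private theorem two_card_le {Q : Type*} [AddCommGroup Q] [Finite Q] (K : AddSubgroup Q)
    (hK : K ≠ ⊤) : 2 * Nat.card K ≤ Nat.card Q := by
  have h1 := K.card_mul_index
  have h2 : 1 < K.index := K.one_lt_index_of_ne_top hK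
  rw [← h1, mul_comm]
  exact Nat.mul_le_mul_left _ h2

private theorem card_facts (t : G) (h0 : t ≠ 0) (hT : AddSubgroup.zmultiples t ≠ ⊤) :
    Nat.card (G ⧸ AddSubgroup.zmultiples t) * addOrderOf t = Nat.card G ∧
      2 ≤ Nat.card (G ⧸ AddSubgroup.zmultiples t) ∧ 2 ≤ addOrderOf t := by
  refine ⟨?_, ?_, ?_⟩
  · rw [← Nat.card_zmultiples]
    exact (AddSubgroup.card_eq_card_quotient_mul_card_addSubgroup _).symm
  · exact (AddSubgroup.zmultiples t).one_lt_index_of_ne_top hT
  · have h1 : addOrderOf t ≠ 1 := by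
      rw [Ne, AddMonoid.addOrderOf_eq_one_iff]; exact h0
    have h2 : 0 < addOrderOf t := addOrderOf_pos t
    omega

theorem kcore [IsAddCyclic G] (hc : ∀ x y, c x y = c y x) (hd : 4 ≤ Nat.card G)
    (hl : ∀ x, c x x ≠ 0 ∧ AddSubgroup.zmultiples (c x x) ≠ ⊤) (h : ∃ L, ZW c a L) :
    ZW c a (Nat.card G - 2) := by
  classical
  obtain ⟨L0, hL0⟩ := h
  have hX : Nonempty X := by
    obtain ⟨l, h1, -, -⟩ := hL0
    obtain ⟨x, hx⟩ := List.exists_mem_of_ne_nil l h1
    exact ⟨x⟩
  -- the case of a quotient of order two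
  by_cases hg2 : ∃ y : X, Nat.card (G ⧸ AddSubgroup.zmultiples (c y y)) = 2
  · obtain ⟨y, hy⟩ := hg2
    obtain ⟨f1, f2, f3⟩ := card_facts (c y y) (hl y).1 (hl y).2
    have hm : cval c a [y] ∈ AddSubgroup.zmultiples (c y y) := by
      apply quot_mem
      have h5 : ∀ z : G ⧸ AddSubgroup.zmultiples (c y y), z + z = 0 := by
        intro z
        have h6 := card_nsmul_eq_zero' (x := z)
        rw [hy, two_nsmul] at h6
        exact h6
      have h7 : cval (fun x y' => QuotientAddGroup.mk' (AddSubgroup.zmultiples (c y y)) (c x y'))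
          (fun x => QuotientAddGroup.mk' (AddSubgroup.zmultiples (c y y)) (a x)) [y]
          = QuotientAddGroup.mk' (AddSubgroup.zmultiples (c y y)) (a y)
            + QuotientAddGroup.mk' (AddSubgroup.zmultiples (c y y)) (a y) := by
        show _ + pw _ [y] + _ = _
        rw [pw_single, add_zero]
        rfl
      rw [h7]
      exact h5 _
    refine (lift_loops y [y] (by simp) hm).mono ?_
    rw [hy] at f1
    simp only [List.length_singleton]
    omega
  have hg3 : ∀ y : X, 3 ≤ Nat.card (G ⧸ AddSubgroup.zmultiples (c y y)) := by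
    intro y
    have h1 := (card_facts (c y y) (hl y).1 (hl y).2).2.1
    have h2 : Nat.card (G ⧸ AddSubgroup.zmultiples (c y y)) ≠ 2 := fun h => hg2 ⟨y, h⟩
    omega
  have hcs : ∀ H : AddSubgroup G, ∀ x y, QuotientAddGroup.mk' H (c x y)
      = QuotientAddGroup.mk' H (c y x) := fun H x y => by rw [hc x y]
  by_cases hA : ∃ y : X, 3 ≤ addOrderOf (c y y)
  · obtain ⟨y, hy⟩ := hA
    obtain ⟨f1, -, -⟩ := card_facts (c y y) (hl y).1 (hl y).2
    have f2 := hg3 y
    set H := AddSubgroup.zmultiples (c y y) with hH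
    set g := Nat.card (G ⧸ H) with hg
    set o := addOrderOf (c y y) with ho
    by_cases htop : CG (fun x y => QuotientAddGroup.mk' H (c x y)) = ⊤
    · obtain ⟨l, l1, l2, l3, l4⟩ := zero_top (a := fun x => QuotientAddGroup.mk' H (a x))
        (hcs H) htop y
      refine (lift_loops y l l2 (quot_mem H l4)).mono ?_
      rw [← hg] at l3
      rw [← ho, ← f1]
      have h9 : 2 * g + o ≤ g * o := by nlinarith
      omega
    · have h8 := two_card_le _ htop
      obtain ⟨l, l1, l2, l3, l4⟩ := zero_through (a := fun x => QuotientAddGroup.mk' H (a x))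
        (hcs H) ⟨L0, quot_zw H hL0⟩ y
      refine (lift_loops y l l2 (quot_mem H l4)).mono ?_
      rw [← hg] at h8
      rw [← ho, ← f1]
      have h9 : g + o + 3 ≤ g * o := by nlinarith
      omega
  · have hB : ∀ y : X, addOrderOf (c y y) = 2 := by
      intro y
      have h1 := (card_facts (c y y) (hl y).1 (hl y).2).2.2
      have h2 : ¬ 3 ≤ addOrderOf (c y y) := fun h => hA ⟨y, h⟩
      omega
    obtain ⟨y0⟩ := hX
    have hX : Nonempty X := ⟨y0⟩
    obtain ⟨f1, -, -⟩ := card_facts (c y0 y0) (hl y0).1 (hl y0).2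
    have f2 := hg3 y0
    have hsame : ∀ y : X, AddSubgroup.zmultiples (c y y) = AddSubgroup.zmultiples (c y0 y0) := by
      intro y
      obtain ⟨e1, -, -⟩ := card_facts (c y y) (hl y).1 (hl y).2
      apply subgroup_unique
      rw [hB y, ← f1, hB y0] at e1
      exact Nat.eq_of_mul_eq_mul_right (by norm_num) e1
    rw [hB y0] at f1
    set H := AddSubgroup.zmultiples (c y0 y0) with hH
    set g := Nat.card (G ⧸ H) with hg
    have key : ∀ l : List X, l ≠ [] → l.length ≤ 2 * g - 3 →
        cval (fun x y => QuotientAddGroup.mk' H (c x y))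
          (fun x => QuotientAddGroup.mk' H (a x)) l = 0 → ZW c a (Nat.card G - 2) := by
      intro l l1 l3 l4
      obtain ⟨y, hy⟩ := List.exists_mem_of_ne_nil l l1
      have h1 := quot_mem H l4
      rw [← hsame y] at h1
      refine (lift_loops y l hy h1).mono ?_
      rw [hB y]
      omega
    by_cases htop : CG (fun x y => QuotientAddGroup.mk' H (c x y)) = ⊤
    · obtain ⟨l, l1, l3, l4⟩ := zero_half (a := fun x => QuotientAddGroup.mk' H (a x))
        (hcs H) htop f2
      exact key l l1 l3 l4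
    · have h8 := two_card_le _ htop
      obtain ⟨l, l1, l3, l4⟩ := zero_any (a := fun x => QuotientAddGroup.mk' H (a x))
        (hcs H) ⟨L0, quot_zw H hL0⟩
      rw [← hg] at h8
      exact key l l1 (by omega) l4

end MP0dbebe.CQ
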