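import Pool.Agent.Lib.MP_0dbebe_co.CQ.AKcore

/-!
# AKL: the chain lemma at level `i`

PROOF of `kl_of_inv`. Let `k, c, a` be as in the definition of `KL`; a zero walk exists, so `k > 0`.
Let `G = ↥D` (finite, cyclic as a subgroup of the cyclic group `ZMod q`), `c' : Fin k → Fin k → D`,
`a' : Fin k → D` the lifts; `cval_map` with `D.subtype` transfers zero walks in both directions
(`D.subtype` injective). Let `d = Nat.card D`.

(N) If all loops are no generators of `D` (`zmultiples (c' x x) ≠ ⊤` in `D`): they are nonzero, so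
with a loop `t`: `zmultiples t` has at least 2 elements and index at least 2, so `d ≥ 4`; `kcore`:
`ZW (d - 2)`. (S) If some loop `c' x x` is a generator of `D`: `lift_loops` for the list `[x]`:
`ZW (1 + d - 1)`.

`Inv` case 1 (`2 ^ i * d ≤ q`, `E < D` or `D = ⊤`): loops are in `E < D`, so
no generators of `D`; if `D = ⊤` they are no units, so no generators of `ZMod q` (if
`zmultiples t = ⊤` then `1 ∈ zmultiples t`, so `t` is a unit). So (N), and
`d - 2 ≤ (q - 2) / 2 ^ i` because `(d - 2) 2 ^ i ≤ q - 2 * 2 ^ i ≤ q - 2`.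
`Inv` case 2 (`3 * 2 ^ i * d ≤ 2 q`): (N) or (S) gives `ZW d` and `d ≤ (q - 2) / 2 ^ i`, because
`2 ^ i * d ≤ q - 2`: otherwise `3 (q - 1) ≤ 2 q`, `q ≤ 3`.

`inv_next`: arithmetic: `3 |D'| ≤ |D|` gives `3 * 2 ^ (i+1) * |D'| ≤ 2 ^ (i+1) * |D| ≤ 2 q` (in both
cases of `Inv`, `2 ^ i |D| ≤ q`); `2 |D'| ≤ |D|`, `E' < D'` gives the first alternative.
`inv_zero`: `Nat.card (⊤ : AddSubgroup (ZMod q)) = q`.
-/

set_option autoImplicit false

namespace MP0dbebe.CQ

/-- Transfer of zero walks to a subgroup that contains all labels and weights. -/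
private theorem zw_sub {X G : Type*} [AddCommGroup G] {c : X → X → G} {a : X → G}
    {D : AddSubgroup G} (hc : ∀ x y, c x y ∈ D) (ha : ∀ x, a x ∈ D) (L : ℕ) :
    ZW (fun x y => (⟨c x y, hc x y⟩ : D)) (fun x => (⟨a x, ha x⟩ : D)) L ↔ ZW c a L := by
  have key : ∀ l : List X, cval c a l =
      (cval (fun x y => (⟨c x y, hc x y⟩ : D)) (fun x => (⟨a x, ha x⟩ : D)) l : D) := fun l =>
    cval_map (c := fun x y => (⟨c x y, hc x y⟩ : D)) (a := fun x => (⟨a x, ha x⟩ : D))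
      D.subtype l
  constructor
  · rintro ⟨l, h1, h2, h3⟩
    refine ⟨l, h1, h2, ?_⟩
    rw [key, h3]; rfl
  · rintro ⟨l, h1, h2, h3⟩
    refine ⟨l, h1, h2, ?_⟩
    rw [key] at h3
    exact Subtype.ext h3

/-- The two cases of the chain lemma. -/
private theorem kl_cases {q : ℕ} [NeZero q] {D : AddSubgroup (ZMod q)} {k : ℕ}
    {c : Fin k → Fin k → ZMod q} {a : Fin k → ZMod q} (hc : ∀ i j, c i j = c j i)
    (hD : ∀ i j, c i j ∈ D) (ha : ∀ i, a i ∈ D) (h0 : ∀ i, c i i ≠ 0) (hz : ∃ L, ZW c a L) :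
    ((∀ x, AddSubgroup.zmultiples (⟨c x x, hD x x⟩ : D) ≠ ⊤) →
      4 ≤ Nat.card D ∧ ZW c a (Nat.card D - 2)) ∧ ZW c a (Nat.card D) := by
  have hz' : ∃ L, ZW (fun x y => (⟨c x y, hD x y⟩ : D)) (fun x => (⟨a x, ha x⟩ : D)) L := by
    obtain ⟨L, hL⟩ := hz
    exact ⟨L, (zw_sub hD ha L).2 hL⟩
  have hN : (∀ x, AddSubgroup.zmultiples (⟨c x x, hD x x⟩ : D) ≠ ⊤) →
      4 ≤ Nat.card D ∧ ZW c a (Nat.card D - 2) := by
    intro hgen
    have h4 : 4 ≤ Nat.card D := by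
      obtain ⟨L, l, hl, _, _⟩ := hz
      obtain ⟨x, _⟩ := List.exists_mem_of_ne_nil l hl
      set H := AddSubgroup.zmultiples (⟨c x x, hD x x⟩ : D) with hH
      have h1 := H.card_mul_index
      have h2 : 1 < Nat.card H := by
        rw [AddSubgroup.one_lt_card_iff_ne_bot]
        intro hb
        have h3 : (⟨c x x, hD x x⟩ : D) ∈ H := AddSubgroup.mem_zmultiples _
        rw [hb, AddSubgroup.mem_bot] at h3
        exact h0 x (congrArg Subtype.val h3)
      have h3 : H.index ≠ 0 := AddSubgroup.index_ne_zero_of_finite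
      have h5 : H.index ≠ 1 := fun h => hgen x (AddSubgroup.index_eq_one.1 h)
      have h6 : 2 ≤ H.index := by omega
      calc 4 = 2 * 2 := rfl
        _ ≤ Nat.card H * H.index := Nat.mul_le_mul h2 h6
        _ = Nat.card D := h1
    refine ⟨h4, (zw_sub hD ha _).1 ?_⟩
    refine kcore (fun x y => Subtype.ext (hc x y)) h4 (fun x => ⟨fun h => h0 x ?_, hgen x⟩) hz'
    exact congrArg Subtype.val h
  refine ⟨hN, ?_⟩
  by_cases hgen : ∀ x, AddSubgroup.zmultiples (⟨c x x, hD x x⟩ : D) ≠ ⊤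
  · exact (hN hgen).2.mono (Nat.sub_le _ _)
  · push Not at hgen
    obtain ⟨x, hx⟩ := hgen
    have h1 := lift_loops (c := fun x y => (⟨c x y, hD x y⟩ : D)) (a := fun x => (⟨a x, ha x⟩ : D))
      x [x] (by simp) (by rw [hx]; exact AddSubgroup.mem_top _)
    have h2 : addOrderOf (⟨c x x, hD x x⟩ : D) = Nat.card D := by
      rw [← Nat.card_zmultiples, hx]
      exact AddSubgroup.card_top
    refine (zw_sub hD ha _).1 (h1.mono ?_)
    rw [h2]
    simp

theorem kl_of_inv {q : ℕ} (hq : 4 ≤ q) {i : ℕ} {D E : AddSubgroup (ZMod q)} (h : Inv q i D E) :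
    KL q D E ((q - 2) / 2 ^ i) := by
  have : NeZero q := ⟨by omega⟩
  intro k c a hc hD hE ha hz
  obtain ⟨hN, hS⟩ := kl_cases hc hD ha (fun x => (hE x).2.1) hz
  have h2i : 0 < 2 ^ i := by positivity
  obtain ⟨hED, ⟨h1, h2⟩ | h1⟩ := h
  · have hgen : ∀ x, AddSubgroup.zmultiples (⟨c x x, hD x x⟩ : D) ≠ ⊤ := by
      intro x hx
      have hall : ∀ y ∈ D, ∃ j : ℤ, j • c x x = y := by
        intro y hy
        have h3 : (⟨y, hy⟩ : D) ∈ AddSubgroup.zmultiples (⟨c x x, hD x x⟩ : D) := by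
          rw [hx]; exact AddSubgroup.mem_top _
        obtain ⟨j, hj⟩ := AddSubgroup.mem_zmultiples_iff.1 h3
        exact ⟨j, congrArg Subtype.val hj⟩
      rcases h2 with h2 | h2
      · refine absurd h2 (not_lt_of_ge ?_)
        intro y hy
        obtain ⟨j, rfl⟩ := hall y hy
        exact E.zsmul_mem (hE x).1 j
      · obtain ⟨j, hj⟩ := hall 1 (by rw [h2]; exact AddSubgroup.mem_top _)
        apply (hE x).2.2
        rw [zsmul_eq_mul, mul_comm] at hj
        exact IsUnit.of_mul_eq_one _ hj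
    obtain ⟨h4, h5⟩ := hN hgen
    refine h5.mono ?_
    rw [Nat.le_div_iff_mul_le h2i]
    obtain ⟨e, he⟩ := Nat.exists_eq_add_of_le h4
    rw [he] at h1 ⊢
    have h6 : (4 + e - 2) * 2 ^ i + 2 * 2 ^ i = 2 ^ i * (4 + e) := by
      have : 4 + e - 2 = 2 + e := by omega
      rw [this]; ring
    omega
  · refine hS.mono ?_
    rw [Nat.le_div_iff_mul_le h2i]
    have h6 : 3 * 2 ^ i * Nat.card D = 3 * (Nat.card D * 2 ^ i) := by ring
    omega

theorem inv_next {q : ℕ} {i : ℕ} {D E D' E' : AddSubgroup (ZMod q)} (h : Inv q i D E)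
    (h' : Next D D' E') : Inv q (i + 1) D' E' := by
  obtain ⟨-, h1⟩ := h
  obtain ⟨-, h2, h3⟩ := h'
  have h4 : 2 ^ i * Nat.card D ≤ q := by
    rcases h1 with ⟨h1, -⟩ | h1
    · exact h1
    · have : 3 * 2 ^ i * Nat.card D = 3 * (2 ^ i * Nat.card D) := by ring
      omega
  refine ⟨h2, ?_⟩
  rcases h3 with h3 | ⟨h3, h5⟩
  · right
    have h6 : 3 * 2 ^ (i + 1) * Nat.card D' = 2 * (2 ^ i * (3 * Nat.card D')) := by
      rw [pow_succ]; ring
    have h7 : 2 ^ i * (3 * Nat.card D') ≤ 2 ^ i * Nat.card D := Nat.mul_le_mul_left _ h3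
    omega
  · left
    have h6 : 2 ^ (i + 1) * Nat.card D' = 2 ^ i * (2 * Nat.card D') := by
      rw [pow_succ]; ring
    have h7 : 2 ^ i * (2 * Nat.card D') ≤ 2 ^ i * Nat.card D := Nat.mul_le_mul_left _ h3
    exact ⟨by omega, Or.inl h5⟩

theorem inv_zero {q : ℕ} (hq : 1 ≤ q) : Inv q 0 (⊤ : AddSubgroup (ZMod q)) ⊤ := by
  refine ⟨le_rfl, Or.inl ⟨?_, Or.inr rfl⟩⟩
  rw [AddSubgroup.card_top, Nat.card_zmod, pow_zero, one_mul]

end MP0dbebe.CQ
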