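import Pool.Agent.Lib.MP_0dbebe_co.CQ.AHom

/-!
# ALABEL: popular labels are in `D`

PROOF. `R = 2 q² r + 1`, `D₀ = 2 q 2 ^ R B₀ + 1`. Suppose `|α| ≤ D₀ |Bad|`. `Rich`: a clique
`T ⊆ Bad` with `R` elements. For every `y ∈ T` at least `|B| / q` elements `s ∈ B` have
`w s y = a y`, so the number of pairs `(s, y) ∈ B × T` with `w s y = a y` is at least `R |B| / q`.
Let `B₁` be the set of `s ∈ B` with `2 q |T_s| ≥ R`, `T_s = {y ∈ T : w s y = a y}`; then
`R |B| / q ≤ |B₁| R + |B| R / (2 q)`, so `|B| ≤ 2 q |B₁|`. Pigeonhole over the subsets `T_s ⊆ T`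
(at most `2 ^ R`): a set `T₀ ⊆ T` and `B₂ ⊆ B₁` with `|B₁| ≤ 2 ^ R |B₂|` and `T_s = T₀` for all
`s ∈ B₂`; `2 q |T₀| ≥ R` (if `B₂` is empty then `B` is empty and `|α| = 0`, but `B ⊆ ..`: then
`|α| = 0` and there is no clique with `R ≥ 1` elements; treat it first). Pigeonhole over the
label: `T₁ ⊆ T₀` with constant label `c₀` and `|T₀| ≤ q |T₁|`, so `|T₁| ≥ R / (2 q²) ≥ r`.
`|α| ≤ B₀ |B| ≤ B₀ 2 q 2 ^ R |B₂| ≤ D₀ |B₂|`: `Rich` gives a clique `T' ⊆ B₂` with `R ≥ r`
elements. `Hom2 w T' T₁ c₀`. `T', T₁ ⊆ V'`, both monochromatic with admissible colours, so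
`Closed` gives `c₀ ∈ D`; but `c₀ = a y` for some `y ∈ T₁ ⊆ Bad` (`T₁` nonempty as `R > 0`).
-/

set_option autoImplicit false

namespace MP0dbebe.CQ

open Finset
open scoped Classical

theorem rich_mono {α : Type} [Fintype α] {q : ℕ} {w : α → α → ZMod q} {V' V'' : Finset α}
    {D₀ D₁ R₀ R₁ : ℕ} (h : Rich w V' D₁ R₁) (hV : V'' ⊆ V') (hD : D₀ ≤ D₁) (hR : R₀ ≤ R₁) :
    Rich w V'' D₀ R₀ := by
  intro W hW hc
  obtain ⟨t, ht, T, hTW, hTc, hT⟩ := h W (hW.trans hV)
    (hc.trans (Nat.mul_le_mul_right _ hD))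
  obtain ⟨S, hS, hSc⟩ := Finset.exists_subset_card_eq (show R₀ ≤ T.card by rw [hTc]; exact hR)
  exact ⟨t, ht, S, hS.trans hTW, hSc, fun x hx y hy hxy => hT x (hS hx) y (hS hy) hxy⟩

private theorem alabel_pigeon {β γ : Type*} [DecidableEq γ] (s : Finset β) (t : Finset γ) (f : β → γ)
    (hf : ∀ x ∈ s, f x ∈ t) (ht : t.Nonempty) :
    ∃ y ∈ t, s.card ≤ t.card * (s.filter fun x => f x = y).card := by
  obtain ⟨y, hy, hmax⟩ := t.exists_max_image (fun y => (s.filter fun x => f x = y).card) ht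
  refine ⟨y, hy, ?_⟩
  rw [Finset.card_eq_sum_card_fiberwise hf]
  calc ∑ b ∈ t, (s.filter fun x => f x = b).card
      ≤ ∑ _b ∈ t, (s.filter fun x => f x = y).card := Finset.sum_le_sum fun b hb => hmax b hb
    _ = t.card * (s.filter fun x => f x = y).card := by rw [Finset.sum_const, smul_eq_mul]

private theorem alabel_count {α : Type} {q : ℕ} (w : α → α → ZMod q) (B T : Finset α)
    (a : α → ZMod q) :
    ∑ y ∈ T, (B.filter fun s => w s y = a y).card
      = ∑ s ∈ B, (T.filter fun y => w s y = a y).card := by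
  simp only [Finset.card_filter]
  exact Finset.sum_comm

theorem label (q : ℕ) (hq : 2 ≤ q) (r B₀ : ℕ) : ∃ D₀ R : ℕ, ∀ D₁ : ℕ, D₀ ≤ D₁ →
    ∀ (α : Type) [Fintype α] (w : α → α → ZMod q), (∀ x y, w x y = w y x) →
    ∀ (V' : Finset α) (D E : AddSubgroup (ZMod q)), Closed w V' D E r → Rich w V' D₁ R →
    ∀ B ⊆ V', Fintype.card α ≤ B₀ * B.card → ∀ a : α → ZMod q,
    (∀ y, B.card ≤ q * cn w B y (a y)) →
    ∀ Bad ⊆ V', (∀ y ∈ Bad, a y ∉ D) → D₁ * Bad.card < Fintype.card α ∨ Bad = ∅ := by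
  refine ⟨2 * q * 2 ^ (2 * q ^ 2 * r + 1) * B₀ + 1, 2 * q ^ 2 * r + 1, ?_⟩
  intro D₁ hD₁ α _ w hw V' D E hClosed hRich B hBV hB a ha Bad hBad hbad
  haveI : NeZero q := ⟨by omega⟩
  by_contra hcon
  rw [not_or, not_lt] at hcon
  obtain ⟨hcard, hne⟩ := hcon
  obtain ⟨t, ht, T, hTB, hTc, hT⟩ := hRich Bad hBad hcard
  set R := 2 * q ^ 2 * r + 1 with hR
  have hRpos : 0 < R := by omega
  -- the ground set is not empty
  obtain ⟨y₀, hy₀⟩ := Finset.nonempty_iff_ne_empty.mpr hne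
  have hα : 0 < Fintype.card α := Fintype.card_pos_iff.mpr ⟨y₀⟩
  have hBpos : 0 < B.card := by
    rcases Nat.eq_zero_or_pos B.card with h0 | h0
    · rw [h0, Nat.mul_zero] at hB; omega
    · exact h0
  -- double counting
  have h1 : B.card * R ≤ q * ∑ s ∈ B, (T.filter fun y => w s y = a y).card := by
    rw [← alabel_count w B T a, Finset.mul_sum, ← hTc, mul_comm, ← smul_eq_mul,
      ← Finset.sum_const]
    exact Finset.sum_le_sum fun y _ => ha y
  set B₁ := B.filter (fun s => R ≤ 2 * q * (T.filter fun y => w s y = a y).card) with hB₁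
  have h2 : 2 * q * ∑ s ∈ B, (T.filter fun y => w s y = a y).card
      ≤ 2 * q * (B₁.card * R) + B.card * R := by
    rw [← Finset.sum_filter_add_sum_filter_not B
      (fun s => R ≤ 2 * q * (T.filter fun y => w s y = a y).card), mul_add]
    refine Nat.add_le_add ?_ ?_
    · refine Nat.mul_le_mul_left _ ?_
      rw [← smul_eq_mul B₁.card R, ← Finset.sum_const]
      refine Finset.sum_le_sum fun s _ => ?_
      rw [← hTc]
      exact Finset.card_filter_le _ _
    · rw [Finset.mul_sum]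
      calc ∑ s ∈ B.filter (fun s => ¬ R ≤ 2 * q * (T.filter fun y => w s y = a y).card),
            2 * q * (T.filter fun y => w s y = a y).card
          ≤ ∑ _s ∈ B.filter (fun s => ¬ R ≤ 2 * q * (T.filter fun y => w s y = a y).card), R :=
            Finset.sum_le_sum fun s hs => by
              have := (Finset.mem_filter.mp hs).2
              omega
        _ = (B.filter (fun s => ¬ R ≤ 2 * q * (T.filter fun y => w s y = a y).card)).card * R := by
            rw [Finset.sum_const, smul_eq_mul]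
        _ ≤ B.card * R := Nat.mul_le_mul_right _ (Finset.card_filter_le _ _)
  have h3 : B.card ≤ 2 * q * B₁.card := by
    have h4 : B.card * R ≤ 2 * q * B₁.card * R := by
      have e1 : 2 * (B.card * R) ≤ 2 * q * (B₁.card * R) + B.card * R := by
        calc 2 * (B.card * R) ≤ 2 * (q * ∑ s ∈ B, (T.filter fun y => w s y = a y).card) :=
              Nat.mul_le_mul_left _ h1
          _ = 2 * q * ∑ s ∈ B, (T.filter fun y => w s y = a y).card := by ring
          _ ≤ _ := h2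
      have e2 : 2 * q * (B₁.card * R) = 2 * q * B₁.card * R := by ring
      omega
    exact Nat.le_of_mul_le_mul_right h4 hRpos
  -- pigeonhole over the subsets of `T`
  obtain ⟨T₀, hT₀, h5⟩ := alabel_pigeon B₁ T.powerset (fun s => T.filter fun y => w s y = a y)
    (fun s _ => Finset.mem_powerset.mpr (Finset.filter_subset _ _)) ⟨∅, Finset.empty_mem_powerset T⟩
  rw [Finset.card_powerset, hTc] at h5
  set B₂ := B₁.filter (fun s => (T.filter fun y => w s y = a y) = T₀) with hB₂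
  replace h5 : B₁.card ≤ 2 ^ R * B₂.card := h5
  have hB₂pos : 0 < B₂.card := by
    rcases Nat.eq_zero_or_pos B₂.card with h0 | h0
    · rw [h0, Nat.mul_zero] at h5
      have : B₁.card = 0 := by omega
      rw [this, Nat.mul_zero] at h3
      omega
    · exact h0
  obtain ⟨s₀, hs₀⟩ := Finset.card_pos.mp hB₂pos
  have hT₀R : R ≤ 2 * q * T₀.card := by
    have e1 := Finset.mem_filter.mp hs₀
    have e2 := (Finset.mem_filter.mp e1.1).2
    rw [e1.2] at e2
    exact e2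
  have hT₀T : T₀ ⊆ T := Finset.mem_powerset.mp hT₀
  -- pigeonhole over the labels
  obtain ⟨c₀, _, h6⟩ := alabel_pigeon T₀ (Finset.univ : Finset (ZMod q)) a
    (fun _ _ => Finset.mem_univ _) ⟨0, Finset.mem_univ _⟩
  rw [Finset.card_univ, ZMod.card] at h6
  set T₁ := T₀.filter (fun y => a y = c₀) with hT₁
  replace h6 : T₀.card ≤ q * T₁.card := h6
  have hrT₁ : r < T₁.card := by
    have e1 : 2 * q ^ 2 * r + 1 ≤ 2 * q ^ 2 * T₁.card := by
      calc 2 * q ^ 2 * r + 1 = R := rfl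
        _ ≤ 2 * q * T₀.card := hT₀R
        _ ≤ 2 * q * (q * T₁.card) := Nat.mul_le_mul_left _ h6
        _ = 2 * q ^ 2 * T₁.card := by ring
    by_contra hlt
    have e2 : 2 * q ^ 2 * T₁.card ≤ 2 * q ^ 2 * r := Nat.mul_le_mul_left _ (not_lt.mp hlt)
    omega
  have hT₁T : T₁ ⊆ T := (Finset.filter_subset _ _).trans hT₀T
  -- the second clique
  have hB₂V : B₂ ⊆ V' := ((Finset.filter_subset _ _).trans (Finset.filter_subset _ _)).trans hBV
  have hcard2 : Fintype.card α ≤ D₁ * B₂.card := by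
    calc Fintype.card α ≤ B₀ * B.card := hB
      _ ≤ B₀ * (2 * q * B₁.card) := Nat.mul_le_mul_left _ h3
      _ ≤ B₀ * (2 * q * (2 ^ R * B₂.card)) :=
          Nat.mul_le_mul_left _ (Nat.mul_le_mul_left _ h5)
      _ = (2 * q * 2 ^ R * B₀) * B₂.card := by ring
      _ ≤ (2 * q * 2 ^ R * B₀ + 1) * B₂.card := Nat.mul_le_mul_right _ (Nat.le_succ _)
      _ ≤ D₁ * B₂.card := Nat.mul_le_mul_right _ hD₁
  obtain ⟨t', ht', T', hT'B, hT'c, hT'⟩ := hRich B₂ hB₂V hcard2
  have hrR : r ≤ R := by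
    have : 1 * r ≤ 2 * q ^ 2 * r := Nat.mul_le_mul_right _ (by
      have : 0 < q ^ 2 := by positivity
      omega)
    omega
  have hhom : Hom2 w T' T₁ c₀ := by
    intro x hx y hy _
    have e1 := (Finset.mem_filter.mp (hT'B hx)).2
    have e2 := Finset.mem_filter.mp hy
    have e3 : y ∈ T.filter (fun y => w x y = a y) := by rw [e1]; exact e2.1
    rw [(Finset.mem_filter.mp e3).2, e2.2]
  have hc := (hClosed T' (hT'B.trans hB₂V) T₁ ((hT₁T.trans hTB).trans hBad)
    (by rw [hT'c]; exact hrR) hrT₁.le t' t c₀ ht' ht hT'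
    (fun x hx y hy hxy => hT x (hT₁T hx) y (hT₁T hy) hxy) hhom).2
  obtain ⟨y₁, hy₁⟩ := Finset.card_pos.mp (lt_of_le_of_lt (Nat.zero_le r) hrT₁)
  refine hbad y₁ (hTB (hT₁T hy₁)) ?_
  rw [(Finset.mem_filter.mp hy₁).2]
  exact hc

end MP0dbebe.CQ
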