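import Pool.Agent.Lib.MP_0dbebe_co.CQ.ANest

/-!
# AMAIN: main theorem of part (a)

PROOF. `nest` with `ε' = min ε (ε / (8 q))`, `n = q`, `i = 0`, `D = E = ⊤`, `r = 1`,
`B₀ = ⌈1 / b₀⌉`; `inv_zero`; `Closed w N ⊤ ⊤ 1` is trivial; `Nat.card ⊤ = q`.
`(2 q - 1) (|B| + 2 ε' |α|) ≤ 2 q |B| + ε |α|`.
-/

set_option autoImplicit false

namespace MP0dbebe.CQ

open Finset
open scoped Classical

theorem chains_main (q : ℕ) (hq : 4 ≤ q) (ε : ℝ) (hε : 0 < ε) : ∃ s₀ : ℝ, 0 < s₀ ∧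
    ∀ b₀ : ℝ, 0 < b₀ → ∃ D₀ R : ℕ,
    ∀ (α : Type) [Fintype α] (w : α → α → ZMod q), (∀ x y, w x y = w y x) →
    ∀ N : Finset α, ε * Fintype.card α ≤ N.card →
    (∀ W ⊆ N, Fintype.card α ≤ D₀ * W.card → ∃ t : ZMod q, t ≠ 0 ∧ ¬ IsUnit t ∧
      ∃ T ⊆ W, T.card = R ∧ ∀ x ∈ T, ∀ y ∈ T, x ≠ y → w x y = t) →
    ∃ V₁ ⊆ N, s₀ * Fintype.card α ≤ V₁.card ∧
      ∀ B ⊆ V₁, b₀ * Fintype.card α ≤ B.card → ∀ a : α → ZMod q,
      (∀ y, B.card ≤ q * cn w B y (a y)) → ∀ d : α,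
      ∃ CC : Finset (List α),
        (∀ l ∈ CC, IsChain w a d l ∧ l.length ≤ q - 2 ∧ ∀ x ∈ l, x ∈ N ∧ x ∉ B) ∧
        (∀ l ∈ CC, ∀ l' ∈ CC, l ≠ l' → ∀ x ∈ l, x ∉ l') ∧
        (N.card : ℝ) ≤ ((q - 2 : ℕ) : ℝ) * CC.card + 2 * q * B.card +
          ε * Fintype.card α := by
  have hq0 : (0 : ℝ) < q := by
    have : (4 : ℝ) ≤ q := by exact_mod_cast hq
    linarith
  have : NeZero q := ⟨by omega⟩
  refine ⟨ε / (8 * q), by positivity, fun b₀ hb₀ => ?_⟩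
  have hε' : 0 < ε / (8 * q) := by positivity
  have hle : ε / (8 * q) ≤ ε := by
    rw [div_le_iff₀ (by positivity)]
    have : (4 : ℝ) ≤ q := by exact_mod_cast hq
    nlinarith
  obtain ⟨D₀, R, h⟩ := nest q hq (ε / (8 * q)) hε' q 0 1 ⌈1 / b₀⌉₊
  refine ⟨D₀, R, fun α _ w hw N hN hrich => ?_⟩
  have hcard : Nat.card (⊤ : AddSubgroup (ZMod q)) = q := by
    rw [AddSubgroup.card_top, Nat.card_zmod]
  have hα : (0 : ℝ) ≤ Fintype.card α := Nat.cast_nonneg _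
  have hclosed : Closed w N ⊤ ⊤ 1 := by
    intro T _ T' _ _ _ t t' c _ _ _ _ _
    exact ⟨AddSubgroup.mem_top _, AddSubgroup.mem_top _⟩
  have hrich' : Rich w N D₀ R := by
    intro W hW hWc
    obtain ⟨t, ht0, htu, T, hT, hTc, hm⟩ := hrich W hW hWc
    exact ⟨t, ⟨ht0, htu⟩, T, hT, hTc, hm⟩
  obtain ⟨V₁, hV₁, hV₁c, hB⟩ := h α w hw N ⊤ ⊤ (le_of_eq hcard) (inv_zero (by omega)) hclosed hrich'
    (le_trans (mul_le_mul_of_nonneg_right hle hα) hN)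
  refine ⟨V₁, hV₁, hV₁c, fun B hBV hBc a ha d => ?_⟩
  have hB₀ : Fintype.card α ≤ ⌈1 / b₀⌉₊ * B.card := by
    have h1 : (Fintype.card α : ℝ) ≤ (⌈1 / b₀⌉₊ : ℝ) * B.card := by
      have h2 : (Fintype.card α : ℝ) ≤ (1 / b₀) * B.card := by
        rw [one_div, inv_mul_eq_div, le_div_iff₀ hb₀]
        linarith
      exact h2.trans (mul_le_mul_of_nonneg_right (Nat.le_ceil _) (Nat.cast_nonneg _))
    exact_mod_cast h1
  obtain ⟨CC, h1, h2, h3⟩ := hB B hBV hB₀ a ha d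
  refine ⟨CC, h1, h2, ?_⟩
  rw [hcard, pow_zero, one_mul, one_mul] at h3
  refine h3.trans ?_
  have hBn : (0 : ℝ) ≤ B.card := Nat.cast_nonneg _
  have h4 : (2 * (q : ℝ) - 1) * (B.card + 2 * (ε / (8 * q)) * Fintype.card α) ≤
      2 * q * B.card + ε * Fintype.card α := by
    have h5 : 2 * (q : ℝ) * (2 * (ε / (8 * q)) * Fintype.card α) =
        ε / 2 * Fintype.card α := by
      field_simp
      ring
    have h6 : 0 ≤ 2 * (ε / (8 * q)) * (Fintype.card α : ℝ) := by positivity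
    have h7 : 0 ≤ ε / 2 * (Fintype.card α : ℝ) := by positivity
    nlinarith
  linarith

end MP0dbebe.CQ
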