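import Pool.Agent.Lib.MP_0dbebe_co.CQ.ADefs

/-!
# APACK: greedy packing of zero chains

PROOF. Induction on `A.card` (strong), for all `A` satisfying the hypothesis (subsets inherit it).
If `A.card ≤ h`: `CC = ∅`. Otherwise take the chain `l` for `W = A`; apply the induction hypothesis
to `A \ l.toFinset` (smaller, as `l` is nonempty) and insert `l`: `l ∉ CC` since `l` is nonempty and
the chains of `CC` avoid it; `A.card ≤ l.length + (A \ l.toFinset).card ≤ K + K * CC.card + h`.
-/

set_option autoImplicit false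

namespace MP0dbebe.CQ

open Finset
open scoped Classical

theorem pack {α : Type} {q : ℕ} (w : α → α → ZMod q) (a : α → ZMod q) (d : α) (K h : ℕ)
    (A : Finset α)
    (hA : ∀ W ⊆ A, h < W.card → ∃ l, IsChain w a d l ∧ l.length ≤ K ∧ ∀ x ∈ l, x ∈ W) :
    ∃ CC : Finset (List α), (∀ l ∈ CC, IsChain w a d l ∧ l.length ≤ K ∧ ∀ x ∈ l, x ∈ A) ∧
      (∀ l ∈ CC, ∀ l' ∈ CC, l ≠ l' → ∀ x ∈ l, x ∉ l') ∧ A.card ≤ K * CC.card + h := by
  induction A using Finset.strongInduction with
  | H A ih =>
    by_cases hc : A.card ≤ h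
    · exact ⟨∅, by simp, by simp, by simpa using hc⟩
    · have hc' : h < A.card := by omega
      obtain ⟨l, hl1, hl2, hl3⟩ := hA A (Finset.Subset.refl A) hc'
      obtain ⟨x₀, hx₀⟩ := List.exists_mem_of_ne_nil l hl1.1
      have hsub : A \ l.toFinset ⊂ A := by
        rw [Finset.ssubset_iff_of_subset sdiff_subset]
        refine ⟨x₀, hl3 x₀ hx₀, ?_⟩
        intro hx
        exact (mem_sdiff.1 hx).2 (List.mem_toFinset.2 hx₀)
      obtain ⟨CC, h1, h2, h3⟩ := ih _ hsub (fun W hW hh => hA W (hW.trans sdiff_subset) hh)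
      have havoid : ∀ l' ∈ CC, ∀ x ∈ l, x ∉ l' := by
        intro l' hl' x hx hx'
        exact (mem_sdiff.1 ((h1 l' hl').2.2 x hx')).2 (List.mem_toFinset.2 hx)
      have hlC : l ∉ CC := fun hmem => havoid l hmem x₀ hx₀ hx₀
      refine ⟨insert l CC, ?_, ?_, ?_⟩
      · intro l' hl'
        rcases mem_insert.1 hl' with rfl | hl'
        · exact ⟨hl1, hl2, hl3⟩
        · obtain ⟨g1, g2, g3⟩ := h1 l' hl'
          exact ⟨g1, g2, fun x hx => (mem_sdiff.1 (g3 x hx)).1⟩
      · intro l₁ hl₁ l₂ hl₂ hne x hx hx'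
        rcases mem_insert.1 hl₁ with e1 | hl₁ <;> rcases mem_insert.1 hl₂ with e2 | hl₂
        · exact hne (e1.trans e2.symm)
        · rw [e1] at hx
          exact havoid l₂ hl₂ x hx hx'
        · rw [e2] at hx'
          exact havoid l₁ hl₁ x hx' hx
        · exact h2 l₁ hl₁ l₂ hl₂ hne x hx hx'
      · rw [card_insert_of_notMem hlC]
        have h4 : A.card ≤ (A \ l.toFinset).card + l.toFinset.card := by
          have h5 := Finset.card_le_card (show A ⊆ (A \ l.toFinset) ∪ l.toFinset by
            intro x hx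
            rw [mem_union, mem_sdiff]
            by_cases hxl : x ∈ l.toFinset
            · exact Or.inr hxl
            · exact Or.inl ⟨hx, hxl⟩)
          exact h5.trans (Finset.card_union_le _ _)
        have h6 : l.toFinset.card ≤ l.length := List.toFinset_card_le l
        have h7 : K * (CC.card + 1) = K * CC.card + K := by ring
        omega

end MP0dbebe.CQ
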