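import Pool.Agent.Lib.MP_0dbebe_co.CQ.AClaim
import Pool.Agent.Lib.MP_0dbebe_co.CQ.ALabel
import Pool.Agent.Lib.MP_0dbebe_co.CQ.APack
import Pool.Agent.Lib.MP_0dbebe_co.CQ.AKl

/-!
# ANEST: nested largest waste sets

PROOF by induction on `n` (all `i, r, B₀`). `n = 0`: `Nat.card D ≥ 1`, nothing to prove. Step
`n → n + 1`: let `K = (q - 2) / 2 ^ i`, `r'` from `waste q hq K r`, `(D₁, R₁)` the numbers of the
induction hypothesis for `i + 1, r', B₀`, `(D₂, R₂)` those of `label q _ r B₀`, and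
`D₀ = max D₁ (max D₂ ⌈1 / ε⌉)`, `R = max R₁ (max R₂ r')`. `rich_mono` for the three uses.
Let `Y ⊆ V'` be a subset of the largest cardinality for which there is `b` with `b y ∈ D` for all
`y ∈ Y` and `NoChain w b K Y` (the empty set is one).

MAXIMALITY: (M) if `a : α → ZMod q` and `W ⊆ V'` with `a y ∈ D` for all `y ∈ W` and
`Y.card < W.card`, then `W` contains a zero chain for `a` with at most `K` vertices
(`cval_eq_zero_iff` of AWalk translates to `IsChain`).

Let `V₁` be as below, `B ⊆ V₁` with `|α| ≤ B₀ |B|`, `a` popular on `B`, `Bad` = the `y ∈ V'` with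
`a y ∉ D`; `label`: `|Bad| ≤ ε |α|` (`D₀ |Bad| < |α|` and `1 ≤ ε D₀`). Let `e = |B| + 2 ε |α|`.

Case `|Y| < ε |α|`: `V₁ = V'`. `pack` for `A = V' \ (B ∪ Bad)` with `h = |Y|`: `CC` with
`|V'| - |B| - |Bad| ≤ K |CC| + |Y|`, so `|V'| ≤ K |CC| + e`; multiply by `2 ^ i`,
`2 ^ i K ≤ q - 2`, and `1 ≤ 2 |D| - 1`.

Case `ε |α| ≤ |Y|`: `waste` for `Y` and its labels `b`, with `kl_of_inv`: the first alternative
contradicts `Rich` applied to `W = Y` (`|α| ≤ D₀ |Y|` as `D₀ ≥ 1 / ε`; the clique has `R ≥ r'`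
elements). So there are `D', E'` with `Next D D' E'`, `Closed w Y D' E' r'`. `Nat.card D' ≤ n`
(from `3 |D'| ≤ |D|` or `2 |D'| ≤ |D|`, `|D'| ≥ 1`, `|D| ≤ n + 1`), `inv_next`. The induction
hypothesis for `Y`: `V₁ ⊆ Y` and for `B` a family `CC₂` in `Y \ B` with
`2 ^ (i+1) |Y| ≤ (q - 2) |CC₂| + 2 ^ (i+1) (2 |D'| - 1) e`. `pack` for
`A = V' \ (Y ∪ B ∪ Bad)`, `h = |Y|`: `CC₁` with `|V'| - |Y| - |B| - |Bad| ≤ K |CC₁| + |Y|`. Take
`CC = CC₁ ∪ CC₂` (disjoint vertex sets, all lists nonempty, so the union is disjoint):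
`2 ^ i |V'| ≤ (q - 2) |CC₁| + 2 ^ i e + 2 ^ (i+1) |Y|
 ≤ (q - 2) |CC| + 2 ^ i (1 + 2 (2 |D'| - 1)) e` and `4 |D'| - 1 ≤ 2 |D| - 1`.
-/

set_option autoImplicit false

namespace MP0dbebe.CQ

open Finset
open scoped Classical

/-- the members of the maximal set -/
def ANest_Q {α : Type} {q : ℕ} (w : α → α → ZMod q) (D : AddSubgroup (ZMod q)) (K : ℕ)
    (Y : Finset α) : Prop :=
  ∃ b : α → ZMod q, (∀ y ∈ Y, b y ∈ D) ∧ NoChain w b K Y

theorem ANest_max {α : Type} {q : ℕ} (w : α → α → ZMod q) (D : AddSubgroup (ZMod q)) (K : ℕ)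
    (V' : Finset α) : ∃ Y ⊆ V', ANest_Q w D K Y ∧ ∀ a : α → ZMod q, ∀ d : α, ∀ W ⊆ V',
      (∀ y ∈ W, a y ∈ D) → Y.card < W.card →
      ∃ l, IsChain w a d l ∧ l.length ≤ K ∧ ∀ x ∈ l, x ∈ W := by
  have hne : (V'.powerset.filter fun Y => ANest_Q w D K Y).Nonempty := by
    refine ⟨∅, mem_filter.2 ⟨mem_powerset.2 (empty_subset _), fun _ => 0, ?_, ?_⟩⟩
    · intro y hy
      exact absurd hy (notMem_empty y)
    · intro l hl _ _ h1 _
      cases l with
      | nil => exact hl rfl
      | cons x t => exact notMem_empty x (h1 x List.mem_cons_self)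
  obtain ⟨Y, hY, hmax⟩ := exists_max_image _ (fun Y => Y.card) hne
  rw [mem_filter, mem_powerset] at hY
  refine ⟨Y, hY.1, hY.2, fun a d W hW haD hlt => ?_⟩
  by_contra hno
  have hWQ : ANest_Q w D K W := by
    refine ⟨a, haD, fun l hl hnd hlen hmem h0 => hno ⟨l, ⟨hl, hnd, ?_⟩, hlen, hmem⟩⟩
    exact (cval_eq_zero_iff w a d l hl).1 h0
  have := hmax W (mem_filter.2 ⟨mem_powerset.2 hW, hWQ⟩)
  omega

theorem ANest_bad {N ε : ℝ} (hε : 0 < ε) {D₀ b : ℕ} (hD : 1 / ε ≤ D₀) (h : (D₀ : ℝ) * b ≤ N) :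
    (b : ℝ) ≤ ε * N := by
  have hb : (0 : ℝ) ≤ b := Nat.cast_nonneg b
  have h1 : 1 / ε * b ≤ D₀ * b := mul_le_mul_of_nonneg_right hD hb
  have h2 : 1 / ε * b ≤ N := h1.trans h
  have h3 := mul_le_mul_of_nonneg_left h2 hε.le
  have h4 : ε * (1 / ε * b) = b := by
    field_simp
  rw [h4] at h3
  exact h3

theorem nest (q : ℕ) (hq : 4 ≤ q) (ε : ℝ) (hε : 0 < ε) (n : ℕ) : ∀ i r B₀ : ℕ, ∃ D₀ R : ℕ,
    ∀ (α : Type) [Fintype α] (w : α → α → ZMod q), (∀ x y, w x y = w y x) →
    ∀ (V' : Finset α) (D E : AddSubgroup (ZMod q)), Nat.card D ≤ n → Inv q i D E →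
    Closed w V' D E r → Rich w V' D₀ R → ε * Fintype.card α ≤ V'.card →
    ∃ V₁ ⊆ V', ε * Fintype.card α ≤ V₁.card ∧
      ∀ B ⊆ V₁, Fintype.card α ≤ B₀ * B.card → ∀ a : α → ZMod q,
      (∀ y, B.card ≤ q * cn w B y (a y)) → ∀ d : α,
      ∃ CC : Finset (List α),
        (∀ l ∈ CC, IsChain w a d l ∧ l.length ≤ q - 2 ∧ ∀ x ∈ l, x ∈ V' ∧ x ∉ B) ∧
        (∀ l ∈ CC, ∀ l' ∈ CC, l ≠ l' → ∀ x ∈ l, x ∉ l') ∧
        (2 : ℝ) ^ i * V'.card ≤ ((q - 2 : ℕ) : ℝ) * CC.card +
          2 ^ i * (2 * Nat.card D - 1) * (B.card + 2 * ε * Fintype.card α) := by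
  have : NeZero q := ⟨by omega⟩
  have hcard : ∀ D : AddSubgroup (ZMod q), 1 ≤ Nat.card D := fun D => Nat.card_pos
  induction n with
  | zero =>
    intro i r B₀
    refine ⟨0, 0, ?_⟩
    intro α _ w _ V' D E hD
    have := hcard D
    omega
  | succ n IH =>
    intro i r B₀
    obtain ⟨r', hrr', hwaste⟩ := waste q hq ((q - 2) / 2 ^ i) r
    obtain ⟨D₁, R₁, ih⟩ := IH (i + 1) r' B₀
    obtain ⟨D₂, R₂, hlabel⟩ := label q (by omega) r B₀
    obtain ⟨M, hM⟩ := exists_nat_ge (1 / ε)
    refine ⟨max D₁ (max D₂ M), max R₁ (max R₂ r'), ?_⟩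
    intro α _ w hw V' D E hDn hInv hClosed hRich hV'
    obtain ⟨D₀, hD₀⟩ : ∃ D₀, D₀ = max D₁ (max D₂ M) := ⟨_, rfl⟩
    rw [← hD₀] at hRich
    have hD₀1 : D₁ ≤ D₀ := by rw [hD₀]; exact le_max_left _ _
    have hD₀2 : D₂ ≤ D₀ := by rw [hD₀]; exact (le_max_left _ _).trans (le_max_right _ _)
    have hD₀M : M ≤ D₀ := by rw [hD₀]; exact (le_max_right _ _).trans (le_max_right _ _)
    have hεD : 1 / ε ≤ (D₀ : ℝ) := hM.trans (by exact_mod_cast hD₀M)
    obtain ⟨K, hK⟩ : ∃ K, K = (q - 2) / 2 ^ i := ⟨_, rfl⟩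
    rw [← hK] at hwaste
    have hKq : 2 ^ i * K ≤ q - 2 := by rw [hK]; exact Nat.mul_div_le _ _
    have hKq' : K ≤ q - 2 := by rw [hK]; exact Nat.div_le_self _ _
    have hKqR : (2 : ℝ) ^ i * K ≤ ((q - 2 : ℕ) : ℝ) := by exact_mod_cast hKq
    obtain ⟨Y, hYV, ⟨b, hbD, hbN⟩, hmax⟩ := ANest_max w D K V'
    have hN0 : (0 : ℝ) ≤ Fintype.card α := Nat.cast_nonneg _
    have h2i : (0 : ℝ) < 2 ^ i := by positivity
    have hDcR : (1 : ℝ) ≤ Nat.card D := by exact_mod_cast hcard D
    -- the bad labels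
    have hBad : ∀ B ⊆ V', Fintype.card α ≤ B₀ * B.card → ∀ a : α → ZMod q,
        (∀ y, B.card ≤ q * cn w B y (a y)) →
        ((V'.filter fun y => a y ∉ D).card : ℝ) ≤ ε * Fintype.card α := by
      intro B hB hB0 a ha
      rcases hlabel D₀ hD₀2 α w hw V' D E hClosed (rich_mono hRich (Subset.refl _) le_rfl
        ((le_max_left _ _).trans (le_max_right _ _))) B hB hB0 a ha
        (V'.filter fun y => a y ∉ D) (filter_subset _ _) (fun y hy => (mem_filter.1 hy).2) with
        h1 | h1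
      · refine ANest_bad hε hεD ?_
        exact_mod_cast h1.le
      · rw [h1, card_empty, Nat.cast_zero]
        positivity
    rcases lt_or_ge (Y.card : ℝ) (ε * Fintype.card α) with hYs | hYl
    · refine ⟨V', Subset.refl _, hV', fun B hB hB0 a ha d => ?_⟩
      have hbad := hBad B hB hB0 a ha
      obtain ⟨Bad, hBd⟩ : ∃ Bad, Bad = V'.filter fun y => a y ∉ D := ⟨_, rfl⟩
      rw [← hBd] at hbad
      obtain ⟨CC, h1, h2, h3⟩ := pack w a d K Y.card (V' \ (B ∪ Bad)) (fun W hW hlt =>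
        hmax a d W (hW.trans sdiff_subset) (fun y hy => by
          have h4 := mem_sdiff.1 (hW hy)
          by_contra h5
          refine h4.2 (mem_union_right _ ?_)
          rw [hBd]
          exact mem_filter.2 ⟨h4.1, h5⟩) hlt)
      refine ⟨CC, fun l hl => ⟨(h1 l hl).1, (h1 l hl).2.1.trans hKq', fun x hx => ?_⟩, h2, ?_⟩
      · have h4 := mem_sdiff.1 ((h1 l hl).2.2 x hx)
        exact ⟨h4.1, fun h5 => h4.2 (mem_union_left _ h5)⟩
      · have h4 : V'.card ≤ (V' \ (B ∪ Bad)).card + (B ∪ Bad).card := by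
          have := card_le_card_sdiff_add_card (s := V') (t := B ∪ Bad)
          omega
        have h5 := card_union_le B Bad
        have h6 : V'.card ≤ K * CC.card + Y.card + B.card + Bad.card := by omega
        have h7 : (V'.card : ℝ) ≤ K * CC.card + Y.card + B.card + Bad.card := by exact_mod_cast h6
        have h8 : (V'.card : ℝ) ≤ K * CC.card + (B.card + 2 * ε * Fintype.card α) := by linarith
        have h9 := mul_le_mul_of_nonneg_left h8 h2i.le
        have hcc : (0 : ℝ) ≤ CC.card := Nat.cast_nonneg _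
        have h10 := mul_le_mul_of_nonneg_right hKqR hcc
        have he : (0 : ℝ) ≤ B.card + 2 * ε * Fintype.card α := by positivity
        have h11 : (2 : ℝ) ^ i * (B.card + 2 * ε * Fintype.card α) ≤
            2 ^ i * (2 * Nat.card D - 1) * (B.card + 2 * ε * Fintype.card α) := by
          refine mul_le_mul_of_nonneg_right ?_ he
          nlinarith
        have h12 : (2 : ℝ) ^ i * (K * CC.card + (B.card + 2 * ε * Fintype.card α)) =
            2 ^ i * K * CC.card + 2 ^ i * (B.card + 2 * ε * Fintype.card α) := by ring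
        rw [h12] at h9
        linarith
    · rcases hwaste α w hw V' Y b D E hClosed hYV hbD hbN (by rw [hK]; exact kl_of_inv hq hInv)
        with hw1 | ⟨D', E', hNext, hCl'⟩
      · exfalso
        have h1 : (Fintype.card α : ℝ) ≤ D₀ * Y.card := by
          have h2 : 1 / ε * (ε * Fintype.card α) ≤ D₀ * Y.card :=
            mul_le_mul hεD hYl (by positivity) (Nat.cast_nonneg _)
          have h3 : 1 / ε * (ε * Fintype.card α) = Fintype.card α := by
            field_simp
          rwa [h3] at h2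
        obtain ⟨t, ht, T, hT, hTc, hTm⟩ := hRich Y hYV (by exact_mod_cast h1)
        refine hw1 T hT ?_ t ht hTm
        rw [hTc]
        exact (le_max_right _ _).trans (le_max_right _ _)
      · have hD'1 := hcard D'
        have hD'2 : 2 * Nat.card D' ≤ Nat.card D := by
          rcases hNext.2.2 with h | h
          · omega
          · exact h.1
        obtain ⟨V₁, hV₁, hV₁c, hV₁p⟩ := ih α w hw Y D' E' (by omega) (inv_next hInv hNext) hCl'
          (rich_mono hRich hYV hD₀1 (le_max_left _ _)) hYl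
        refine ⟨V₁, hV₁.trans hYV, hV₁c, fun B hB hB0 a ha d => ?_⟩
        obtain ⟨CC₂, g1, g2, g3⟩ := hV₁p B hB hB0 a ha d
        have hbad := hBad B (hB.trans (hV₁.trans hYV)) hB0 a ha
        obtain ⟨Bad, hBd⟩ : ∃ Bad, Bad = V'.filter fun y => a y ∉ D := ⟨_, rfl⟩
        rw [← hBd] at hbad
        obtain ⟨CC₁, h1, h2, h3⟩ := pack w a d K Y.card (V' \ (Y ∪ (B ∪ Bad))) (fun W hW hlt =>
          hmax a d W (hW.trans sdiff_subset) (fun y hy => by
            have h4 := mem_sdiff.1 (hW hy)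
            by_contra h5
            refine h4.2 (mem_union_right _ (mem_union_right _ ?_))
            rw [hBd]
            exact mem_filter.2 ⟨h4.1, h5⟩) hlt)
        have hsep : ∀ l ∈ CC₁, ∀ l' ∈ CC₂, ∀ x ∈ l, x ∉ l' := by
          intro l hl l' hl' x hx hx'
          have h4 := mem_sdiff.1 ((h1 l hl).2.2 x hx)
          exact h4.2 (mem_union_left _ ((g1 l' hl').2.2 x hx').1)
        have hdisj : Disjoint CC₁ CC₂ := by
          rw [disjoint_left]
          intro l hl hl'
          have hne : l ≠ [] := (h1 l hl).1.1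
          cases l with
          | nil => exact hne rfl
          | cons x t => exact hsep _ hl _ hl' x List.mem_cons_self List.mem_cons_self
        refine ⟨CC₁ ∪ CC₂, ?_, ?_, ?_⟩
        · intro l hl
          rcases mem_union.1 hl with hl | hl
          · refine ⟨(h1 l hl).1, (h1 l hl).2.1.trans hKq', fun x hx => ?_⟩
            have h4 := mem_sdiff.1 ((h1 l hl).2.2 x hx)
            exact ⟨h4.1, fun h5 => h4.2 (mem_union_right _ (mem_union_left _ h5))⟩
          · refine ⟨(g1 l hl).1, (g1 l hl).2.1, fun x hx => ?_⟩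
            exact ⟨hYV ((g1 l hl).2.2 x hx).1, ((g1 l hl).2.2 x hx).2⟩
        · intro l hl l' hl' hll x hx hx'
          rcases mem_union.1 hl with hl | hl <;> rcases mem_union.1 hl' with hl' | hl'
          · exact h2 l hl l' hl' hll x hx hx'
          · exact hsep l hl l' hl' x hx hx'
          · exact hsep l' hl' l hl x hx' hx
          · exact g2 l hl l' hl' hll x hx hx'
        · have h4 : V'.card ≤ (V' \ (Y ∪ (B ∪ Bad))).card + (Y ∪ (B ∪ Bad)).card := by
            have := card_le_card_sdiff_add_card (s := V') (t := Y ∪ (B ∪ Bad))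
            omega
          have h5 := card_union_le Y (B ∪ Bad)
          have h5' := card_union_le B Bad
          have h6 : V'.card ≤ K * CC₁.card + Y.card + Y.card + B.card + Bad.card := by omega
          have h7 : (V'.card : ℝ) ≤ K * CC₁.card + Y.card + Y.card + B.card + Bad.card := by
            exact_mod_cast h6
          have h8 : (V'.card : ℝ) ≤ K * CC₁.card + 2 * Y.card +
              (B.card + 2 * ε * Fintype.card α) := by
            have : (0 : ℝ) ≤ ε * Fintype.card α := by positivity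
            linarith
          have h9 := mul_le_mul_of_nonneg_left h8 h2i.le
          have hcc : (0 : ℝ) ≤ CC₁.card := Nat.cast_nonneg _
          have h10 := mul_le_mul_of_nonneg_right hKqR hcc
          have he : (0 : ℝ) ≤ B.card + 2 * ε * Fintype.card α := by positivity
          have hD'R : 2 * (Nat.card D' : ℝ) ≤ Nat.card D := by exact_mod_cast hD'2
          have h11 : (2 : ℝ) ^ i * (1 + 2 * (2 * Nat.card D' - 1)) *
              (B.card + 2 * ε * Fintype.card α) ≤
              2 ^ i * (2 * Nat.card D - 1) * (B.card + 2 * ε * Fintype.card α) := by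
            refine mul_le_mul_of_nonneg_right ?_ he
            refine mul_le_mul_of_nonneg_left ?_ h2i.le
            linarith
          have h12 : (2 : ℝ) ^ i * (K * CC₁.card + 2 * Y.card +
              (B.card + 2 * ε * Fintype.card α)) = 2 ^ i * K * CC₁.card + 2 ^ (i + 1) * Y.card +
              2 ^ i * (B.card + 2 * ε * Fintype.card α) := by
            rw [pow_succ]
            ring
          rw [h12] at h9
          rw [card_union_of_disjoint hdisj]
          push_cast
          have h13 : (2 : ℝ) ^ (i + 1) * (2 * Nat.card D' - 1) *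
              (B.card + 2 * ε * Fintype.card α) = 2 ^ i * (2 * (2 * Nat.card D' - 1)) *
              (B.card + 2 * ε * Fintype.card α) := by
            rw [pow_succ]
            ring
          rw [h13] at g3
          have h14 : (2 : ℝ) ^ i * (1 + 2 * (2 * Nat.card D' - 1)) *
              (B.card + 2 * ε * Fintype.card α) = 2 ^ i * (B.card + 2 * ε * Fintype.card α) +
              2 ^ i * (2 * (2 * Nat.card D' - 1)) * (B.card + 2 * ε * Fintype.card α) := by ring
          rw [h14] at h11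
          linarith

end MP0dbebe.CQ
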