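import Pool.Agent.Lib.MP_0dbebe_co.CQ.ACyc

/-!
# AREAL: homogeneous families, realisation of walks by chains

PROOFS.
* `hfam_symm` (`2 ≤ r`): `|T i| ≥ 2`, so there are `x ∈ T i`, `y ∈ T j`, `x ≠ y`;
  `c i j = w x y = w y x = c j i`.
* `hfam_real`: walks with at most `r` vertices lift to lists without repetition: prove by induction
  on `l` (from the left): for every finite set `F` of forbidden vertices with
  `F.card + l.length ≤ r` and `l ≠ []` there is a list `l'` with `l'.length = l.length`,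
  `l'.Nodup`, no element in `F`, all elements in `Y`, first element in `T (first of l)`, last element
  in `T (last of l)`, and `pw w l' = pw c l`: choose the first vertex `x ∈ T i` outside `F`
  (`|T i| ≥ r > |F|`), forbid it too, use the induction hypothesis and `hom` for the first pair
  (they are different). Then `cval` agrees by `lab`.
* `hfam_not_zw`: if there were a zero walk, `KL` (symmetry of `c` by `hfam_symm`, `c i j ∈ D` and
  `c i i ∈ E` by `Closed` applied to `T i, T j ⊆ Y ⊆ V'`, with `Mono w (T i) (c i i)` from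
  `hom i i`; `a i = b x ∈ D` for any `x ∈ T i`, nonempty) gives one with at most `K ≤ r` vertices,
  and `hfam_real` gives a chain in `Y` that contradicts `NoChain`.
* `hfam_le`: `CG c ≤ D`: `CG_le` and `Closed`.
-/

set_option autoImplicit false

namespace MP0dbebe.CQ

open Finset

variable {α : Type} {q : ℕ} {w : α → α → ZMod q} {b : α → ZMod q} {Y : Finset α} {r k : ℕ}
  {T : Fin k → Finset α} {c : Fin k → Fin k → ZMod q} {a : Fin k → ZMod q}

theorem hfam_symm (hw : ∀ x y, w x y = w y x) (hF : HFam w b Y r T c a) (hr : 2 ≤ r)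
    (i j : Fin k) : c i j = c j i := by
  have h1 : 0 < (T i).card := lt_of_lt_of_le (by omega) (hF.card i)
  obtain ⟨x, hx⟩ := Finset.card_pos.1 h1
  have h2 : 1 < (T j).card := lt_of_lt_of_le (by omega) (hF.card j)
  obtain ⟨y, hy, hyx⟩ := Finset.exists_mem_ne h2 x
  rw [← hF.hom i j x hx y hy (Ne.symm hyx), ← hF.hom j i y hy x hx hyx]
  exact hw x y

theorem AReal_lift (hF : HFam w b Y r T c a) (m : List (Fin k)) (i : Fin k) (F : Finset α)
    (hr : F.card + m.length + 1 ≤ r) :
    ∃ (x : α) (m' : List α), (x :: m').Nodup ∧ m'.length = m.length ∧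
      (∀ y ∈ x :: m', y ∉ F ∧ y ∈ Y) ∧ x ∈ T i ∧
      b ((x :: m').getLast (List.cons_ne_nil x m')) =
        a ((i :: m).getLast (List.cons_ne_nil i m)) ∧
      pw w (x :: m') = pw c (i :: m) := by
  classical
  induction m generalizing i F with
  | nil =>
    rw [List.length_nil] at hr
    obtain ⟨x, hx, hxF⟩ := Finset.exists_mem_notMem_of_card_lt_card
      (show F.card < (T i).card from lt_of_lt_of_le (by omega) (hF.card i))
    refine ⟨x, [], List.nodup_singleton x, rfl, ?_, hx, ?_, ?_⟩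
    · intro y hy
      rw [List.mem_singleton] at hy
      rw [hy]
      exact ⟨hxF, hF.sub i hx⟩
    · rw [List.getLast_singleton, List.getLast_singleton]
      exact hF.lab i x hx
    · rw [pw_single, pw_single]
  | cons j m ih =>
    rw [List.length_cons] at hr
    obtain ⟨x, hx, hxF⟩ := Finset.exists_mem_notMem_of_card_lt_card
      (show F.card < (T i).card from lt_of_lt_of_le (by omega) (hF.card i))
    have h1 := Finset.card_insert_le x F
    obtain ⟨y, m', h2, h3, h4, h5, h6, h7⟩ := ih j (insert x F) (by omega)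
    have h8 : x ∉ y :: m' := fun h =>
      (h4 x h).1 (Finset.mem_insert_self x F)
    have h9 : x ≠ y := fun h => h8 (h ▸ List.mem_cons_self)
    refine ⟨x, y :: m', List.nodup_cons.2 ⟨h8, h2⟩, ?_, ?_, hx, ?_, ?_⟩
    · rw [List.length_cons, List.length_cons, h3]
    · intro z hz
      rcases List.mem_cons.1 hz with hz | hz
      · rw [hz]
        exact ⟨hxF, hF.sub i hx⟩
      · exact ⟨fun h => (h4 z hz).1 (Finset.mem_insert_of_mem h), (h4 z hz).2⟩
    · rw [List.getLast_cons (List.cons_ne_nil y m'), List.getLast_cons (List.cons_ne_nil j m)]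
      exact h6
    · rw [pw_cons_cons, pw_cons_cons, h7, hF.hom i j x hx y h5 h9]

theorem hfam_real (hF : HFam w b Y r T c a) (l : List (Fin k)) (hl : l ≠ [])
    (hlr : l.length ≤ r) :
    ∃ l' : List α, l' ≠ [] ∧ l'.Nodup ∧ l'.length = l.length ∧ (∀ x ∈ l', x ∈ Y) ∧
      cval w b l' = cval c a l := by
  obtain ⟨i, m, rfl⟩ : ∃ i m, l = i :: m := List.exists_cons_of_ne_nil hl
  rw [List.length_cons] at hlr
  obtain ⟨x, m', h1, h2, h3, h4, h5, h6⟩ := AReal_lift hF m i ∅ (by
    rw [Finset.card_empty]; omega)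
  refine ⟨x :: m', List.cons_ne_nil _ _, h1, ?_, fun y hy => (h3 y hy).2, ?_⟩
  · rw [List.length_cons, List.length_cons, h2]
  · change b x + pw w (x :: m') + b ((x :: m').getLast (List.cons_ne_nil x m')) =
      a i + pw c (i :: m) + a ((i :: m).getLast (List.cons_ne_nil i m))
    rw [h5, h6, hF.lab i x h4]

theorem AReal_closed (hF : HFam w b Y r T c a)
    {V' : Finset α} {D E : AddSubgroup (ZMod q)} {r₀ : ℕ} (hcl : Closed w V' D E r₀)
    (hr₀ : r₀ ≤ r) (hYV : Y ⊆ V') (i j : Fin k) : c i i ∈ E ∧ c i j ∈ D :=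
  hcl (T i) ((hF.sub i).trans hYV) (T j) ((hF.sub j).trans hYV) (hr₀.trans (hF.card i))
    (hr₀.trans (hF.card j)) (c i i) (c j j) (c i j) (hF.adm i) (hF.adm j)
    (hF.hom i i) (hF.hom j j) (hF.hom i j)

theorem hfam_lab_mem (hF : HFam w b Y r T c a) (hr : 1 ≤ r) {D : AddSubgroup (ZMod q)}
    (hb : ∀ y ∈ Y, b y ∈ D) (i : Fin k) : a i ∈ D := by
  have h1 : 0 < (T i).card := lt_of_lt_of_le hr (hF.card i)
  obtain ⟨x, hx⟩ := Finset.card_pos.1 h1
  rw [← hF.lab i x hx]
  exact hb x (hF.sub i hx)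

theorem hfam_not_zw (hw : ∀ x y, w x y = w y x) (hF : HFam w b Y r T c a) (hr : 2 ≤ r)
    {V' : Finset α} {D E : AddSubgroup (ZMod q)} {K r₀ : ℕ} (hcl : Closed w V' D E r₀)
    (hr₀ : r₀ ≤ r) (hYV : Y ⊆ V') (hb : ∀ y ∈ Y, b y ∈ D) (hno : NoChain w b K Y)
    (hKL : KL q D E K) (hK : K ≤ r) : ¬ ∃ L, ZW c a L := by
  intro hL
  obtain ⟨l, hl, hlK, hl0⟩ := hKL k c a (hfam_symm hw hF hr)
    (fun i j => (AReal_closed hF hcl hr₀ hYV i j).2)
    (fun i => ⟨(AReal_closed hF hcl hr₀ hYV i i).1, hF.adm i⟩)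
    (fun i => hfam_lab_mem hF (by omega) hb i) hL
  obtain ⟨l', h1, h2, h3, h4, h5⟩ := hfam_real hF l hl (hlK.trans hK)
  exact hno l' h1 h2 (by omega) h4 (by rw [h5, hl0])

theorem hfam_le (hF : HFam w b Y r T c a)
    {V' : Finset α} {D E : AddSubgroup (ZMod q)} {r₀ : ℕ} (hcl : Closed w V' D E r₀)
    (hr₀ : r₀ ≤ r) (hYV : Y ⊆ V') : CG c ≤ D :=
  CG_le fun i j => (AReal_closed hF hcl hr₀ hYV i j).2

end MP0dbebe.CQ
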