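import Pool.Agent.Lib.MP_0dbebe_co.CQ.ADefs

/-!
# AWALK: walks and lists

ADefs: `Reach c a P k x g` = there is a walk with at most `k` vertices from a vertex of `P` to `x`
with `g = a (first) + weight`; `cval`, `ZW`, `pw` (Cycle.lean: `pw_cons_cons`, `pw_single`;
FB.lean: `pw_append_singleton w a l c b (h : (a :: l).getLast _ = c) :
pw w (a :: (l ++ [b])) = pw w (a :: l) + w c b`; Dense2.lean has `pw_reverse`, prove it again here
or import Dense2). `c` is symmetric where it says so.

PROOFS.
* `reach_mono`: induction on the derivation (`start (k+1)`, `step (k+1)`).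
* `reach_list`: induction: `start`: `l = []`; `step`: append `x` to the list, `pw_append_singleton`.
* `reach_of_list`: induction on `l` from the right (`List.reverseRecOn`), or prove
  `Reach P j y g -> Reach P (j + t.length) (last of y :: t) (g + pw c (y :: t))` by induction on `t`.
* `list_of_reach`: `reach_list`, and `x` is the last element; `cval = a p + pw + a x = g + a x = 0`.
* `zw_join`: lists `p :: l₁` and `p' :: l₂` both ending in `x`; take `(p :: l₁) ++ (reverse of
  p' :: l₂ without its first element x)`; its value is `u + v` by symmetry of `c`; length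
  `k + l - 1`.
* `reach_of_zw`: `a p + pw c l + a (last) = 0` and `reach_of_list`.
* `cval_map`: additive homomorphisms commute with `cval`.
-/

set_option autoImplicit false

namespace MP0dbebe.CQ

variable {X G : Type*} [AddCommGroup G] {c : X → X → G} {a : X → G}

theorem AWalk_pw_join (c : X → X → G) (l t : List X) (p x : X)
    (h : (p :: l).getLast (List.cons_ne_nil p l) = x) :
    pw c (p :: (l ++ t)) = pw c (p :: l) + pw c (x :: t) := by
  induction l generalizing p with
  | nil =>
    rw [List.getLast_singleton] at h
    subst h
    simp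
  | cons z l ih =>
    rw [List.getLast_cons (List.cons_ne_nil z l)] at h
    rw [List.cons_append, pw_cons_cons, pw_cons_cons, ih z h, add_assoc]

theorem AWalk_last_join (l t : List X) (p x : X)
    (h : (p :: l).getLast (List.cons_ne_nil p l) = x) :
    (p :: (l ++ t)).getLast (List.cons_ne_nil _ _) =
      (x :: t).getLast (List.cons_ne_nil x t) := by
  induction l generalizing p with
  | nil =>
    rw [List.getLast_singleton] at h
    subst h
    rfl
  | cons z l ih =>
    rw [List.getLast_cons (List.cons_ne_nil z l)] at h
    have h1 : (p :: (z :: l ++ t)).getLast (List.cons_ne_nil _ _) =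
        (z :: (l ++ t)).getLast (List.cons_ne_nil _ _) :=
      List.getLast_cons (List.cons_ne_nil z (l ++ t))
    rw [h1]
    exact ih z h

theorem AWalk_pw_reverse (w : X → X → G) (hw : ∀ a b, w a b = w b a)
    (l : List X) : pw w l.reverse = pw w l := by
  induction l with
  | nil => simp
  | cons a l ih =>
    cases l with
    | nil => simp
    | cons b l =>
      rw [pw_cons_cons, ← ih, List.reverse_cons]
      cases hr : (b :: l).reverse with
      | nil => simp at hr
      | cons c t =>
        have hl : (c :: t).getLast (List.cons_ne_nil c t) = b := by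
          have h1 : (c :: t).getLast (List.cons_ne_nil c t) =
              ((b :: l).reverse).getLast (by simp) := by
            congr 1
            exact hr.symm
          rw [h1, List.getLast_reverse, List.head_cons]
        rw [List.cons_append, AWalk_pw_join w t [a] c b hl, pw_cons_cons, pw_single, hw b a]
        abel

theorem reach_mono {P : X → Prop} {k k' : ℕ} (hk : k ≤ k') {x : X} {g : G}
    (h : Reach c a P k x g) : Reach c a P k' x g := by
  induction h generalizing k' with
  | start k x hx =>
    obtain ⟨m, rfl⟩ : ∃ m, k' = m + 1 := ⟨k' - 1, by omega⟩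
    exact Reach.start m x hx
  | step k y x g _ ih =>
    obtain ⟨m, rfl⟩ : ∃ m, k' = m + 1 := ⟨k' - 1, by omega⟩
    exact Reach.step m y x g (ih (by omega))

theorem reach_list {P : X → Prop} {k : ℕ} {x : X} {g : G} (h : Reach c a P k x g) :
    ∃ (p : X) (l : List X), P p ∧ l.length + 1 ≤ k ∧
      (p :: l).getLast (List.cons_ne_nil p l) = x ∧ a p + pw c (p :: l) = g := by
  induction h with
  | start k x hx => exact ⟨x, [], hx, by simp, by simp, by simp⟩
  | step k y x g _ ih =>
    obtain ⟨p, l, h1, h2, h3, h4⟩ := ih
    refine ⟨p, l ++ [x], h1, ?_, ?_, ?_⟩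
    · rw [List.length_append, List.length_singleton]
      omega
    · rw [AWalk_last_join l [x] p y h3]
      simp
    · rw [AWalk_pw_join c l [x] p y h3, pw_cons_cons, pw_single, add_zero, ← add_assoc, h4]

theorem AWalk_ext {P : X → Prop} (t : List X) {j : ℕ} {y : X} {g : G}
    (h : Reach c a P j y g) :
    Reach c a P (j + t.length) ((y :: t).getLast (List.cons_ne_nil y t))
      (g + pw c (y :: t)) := by
  induction t generalizing j y g with
  | nil => simpa using h
  | cons z t ih =>
    have h1 := ih (Reach.step j y z g h)
    rw [List.getLast_cons (List.cons_ne_nil z t), pw_cons_cons, ← add_assoc, List.length_cons]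
    have e : j + 1 + t.length = j + (t.length + 1) := by omega
    rwa [e] at h1

theorem reach_of_list {P : X → Prop} (p : X) (l : List X) (hp : P p) :
    Reach c a P (l.length + 1) ((p :: l).getLast (List.cons_ne_nil p l))
      (a p + pw c (p :: l)) := by
  have h1 := AWalk_ext l (Reach.start (c := c) (a := a) 0 p hp)
  have e : 0 + 1 + l.length = l.length + 1 := by omega
  rwa [e] at h1

theorem list_of_reach {P : X → Prop} {k : ℕ} {x : X} {g : G} (h : Reach c a P k x g)
    (h0 : g + a x = 0) : ∃ l : List X, l ≠ [] ∧ x ∈ l ∧ l.length ≤ k ∧ cval c a l = 0 := by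
  obtain ⟨p, l, h1, h2, h3, h4⟩ := reach_list h
  refine ⟨p :: l, List.cons_ne_nil p l, ?_, by simpa using h2, ?_⟩
  · rw [← h3]
    exact List.getLast_mem _
  · simp only [cval]
    rw [h3, h4, h0]

/-- extend a walk ending in `y` by the vertex `r` and close it -/
theorem list_of_reach_step {P : X → Prop} {k : ℕ} {y : X} {g : G} (h : Reach c a P k y g) (r : X)
    (h0 : g + c y r + a r = 0) :
    ∃ l : List X, l ≠ [] ∧ y ∈ l ∧ l.length ≤ k + 1 ∧ cval c a l = 0 := by
  obtain ⟨p, l, h1, h2, h3, h4⟩ := reach_list h
  refine ⟨p :: (l ++ [r]), List.cons_ne_nil p _, ?_, ?_, ?_⟩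
  · have h5 : y ∈ p :: l := by
      rw [← h3]
      exact List.getLast_mem _
    rw [← List.cons_append]
    exact List.mem_append_left _ h5
  · simp only [List.length_cons, List.length_append, List.length_nil]
    omega
  · simp only [cval]
    rw [AWalk_last_join l [r] p y h3, AWalk_pw_join c l [r] p y h3, pw_cons_cons, pw_single,
      add_zero, ← add_assoc, h4]
    simpa using h0

theorem zw_join (hc : ∀ x y, c x y = c y x) {P P' : X → Prop} {k l : ℕ} {x : X} {u v : G}
    (h : Reach c a P k x u) (h' : Reach c a P' l x v) (h0 : u + v = 0) : ZW c a (k + l - 1) := by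
  obtain ⟨p, l₁, h1, h2, h3, h4⟩ := reach_list h
  obtain ⟨p', l₂, h1', h2', h3', h4'⟩ := reach_list h'
  cases hr : (p' :: l₂).reverse with
  | nil => simp at hr
  | cons y t =>
    have hy : y = x := by
      have e1 : (y :: t).head (List.cons_ne_nil y t) =
          ((p' :: l₂).reverse).head (by simp) := by
        congr 1
        exact hr.symm
      rw [List.head_reverse, h3'] at e1
      exact e1
    subst hy
    have hlast : (y :: t).getLast (List.cons_ne_nil y t) = p' := by
      have e1 : (y :: t).getLast (List.cons_ne_nil y t) =
          ((p' :: l₂).reverse).getLast (by simp) := by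
        congr 1
        exact hr.symm
      rw [e1, List.getLast_reverse, List.head_cons]
    have hlen : t.length + 1 = l₂.length + 1 := by
      have := congrArg List.length hr
      simpa using this.symm
    refine ⟨p :: (l₁ ++ t), List.cons_ne_nil p _, ?_, ?_⟩
    · simp only [List.length_cons, List.length_append]
      omega
    · simp only [cval]
      rw [AWalk_last_join l₁ t p y h3, AWalk_pw_join c l₁ t p y h3, hlast, ← hr,
        AWalk_pw_reverse c hc, ← add_assoc, h4, add_assoc, add_comm (pw c (p' :: l₂)), h4', h0]

theorem reach_of_zw {L : ℕ} (h : ZW c a L) :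
    ∃ p r : X, Reach c a (fun y => y = p) L r (- a r) := by
  obtain ⟨l, h1, h2, h3⟩ := h
  cases l with
  | nil => exact absurd rfl h1
  | cons x t =>
    simp only [cval] at h3
    refine ⟨x, (x :: t).getLast (List.cons_ne_nil x t), ?_⟩
    have h4 := reach_of_list (c := c) (a := a) (P := fun y => y = x) x t rfl
    rw [eq_neg_of_add_eq_zero_left h3] at h4
    exact reach_mono (by simpa using h2) h4

theorem AWalk_pw_map {G' : Type*} [AddCommGroup G'] (f : G →+ G') (c : X → X → G) (l : List X) :
    pw (fun x y => f (c x y)) l = f (pw c l) := by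
  induction l with
  | nil => simp
  | cons x l ih =>
    cases l with
    | nil => simp
    | cons y l => rw [pw_cons_cons, pw_cons_cons, ih, map_add]

theorem cval_map {G' : Type*} [AddCommGroup G'] (f : G →+ G') (l : List X) :
    cval (fun x y => f (c x y)) (fun x => f (a x)) l = f (cval c a l) := by
  cases l with
  | nil => simp [cval]
  | cons x l =>
    simp only [cval]
    rw [AWalk_pw_map, map_add, map_add]

theorem AWalk_insert_one (l : List X) (y : X) (hy : y ∈ l) :
    ∃ l' : List X, y ∈ l' ∧ l'.length = l.length + 1 ∧
      cval c a l' = cval c a l + c y y := by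
  obtain ⟨s, t, rfl⟩ := List.append_of_mem hy
  refine ⟨s ++ y :: y :: t, by simp, by simp only [List.length_append, List.length_cons]; omega,
    ?_⟩
  cases s with
  | nil =>
    simp only [List.nil_append, cval]
    rw [List.getLast_cons (List.cons_ne_nil y t), pw_cons_cons]
    abel
  | cons p s =>
    simp only [List.cons_append, cval]
    have h1 : ∀ r : List X, pw c (p :: (s ++ y :: r)) = pw c (p :: (s ++ [y])) +
        pw c (y :: r) := by
      intro r
      have := AWalk_pw_join c (s ++ [y]) r p y (by simp)
      rw [List.append_assoc, List.singleton_append] at this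
      exact this
    have h2 : ∀ r : List X, (p :: (s ++ y :: r)).getLast (List.cons_ne_nil _ _) =
        (y :: r).getLast (List.cons_ne_nil _ _) := by
      intro r
      have := AWalk_last_join (s ++ [y]) r p y (by simp)
      simp only [List.append_assoc, List.singleton_append] at this
      exact this
    rw [h1 (y :: t), h1 t, h2 (y :: t), h2 t, List.getLast_cons (List.cons_ne_nil y t),
      pw_cons_cons]
    abel

/-- Insert `j` further copies of a vertex of the list. -/
theorem cval_insert (l : List X) (y : X) (hy : y ∈ l) (j : ℕ) :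
    ∃ l' : List X, l' ≠ [] ∧ l'.length = l.length + j ∧
      cval c a l' = cval c a l + j • c y y := by
  have key : ∃ l' : List X, y ∈ l' ∧ l'.length = l.length + j ∧
      cval c a l' = cval c a l + j • c y y := by
    induction j with
    | zero => exact ⟨l, hy, by simp, by simp⟩
    | succ j ih =>
      obtain ⟨l', h1, h2, h3⟩ := ih
      obtain ⟨l'', h4, h5, h6⟩ := AWalk_insert_one (c := c) (a := a) l' y h1
      refine ⟨l'', h4, by omega, ?_⟩
      rw [h6, h3, succ_nsmul, add_assoc]
  obtain ⟨l', h1, h2, h3⟩ := key
  exact ⟨l', List.ne_nil_of_mem h1, h2, h3⟩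

theorem ZW.mono {L L' : ℕ} (h : ZW c a L) (hL : L ≤ L') : ZW c a L' := by
  obtain ⟨l, h1, h2, h3⟩ := h
  exact ⟨l, h1, h2.trans hL, h3⟩

/-- the relation with the chains of part (b) -/
theorem cval_eq_zero_iff {α : Type} {q : ℕ} (w : α → α → ZMod q) (b : α → ZMod q) (d : α)
    (l : List α) (hl : l ≠ []) :
    cval w b l = 0 ↔ b (hd d l) + pw w l + b (lt d l) = 0 := by
  cases l with
  | nil => exact absurd rfl hl
  | cons x l =>
    have h1 : lt d (x :: l) = (x :: l).getLast (List.cons_ne_nil x l) := rfl
    rw [h1]
    simp [cval, hd]

end MP0dbebe.CQ
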