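import Pool.Agent.Lib.MP_0dbebe_co.CQ.AGrow

/-!
# AZERO: short zero walks

`G` finite, `c` symmetric, `Γ = CG c`.

PROOFS.
* `zero_top` (`Γ = ⊤`): if `Nat.card G = 1`: the list `[x]` (`cval = a x + 0 + a x = 0` in a trivial
  group). Otherwise `grow2` with `i = Nat.card G - 1` gives a vertex with at least `Nat.card G`
  values at time `2 (Nat.card G - 1)`, `grow_all`: at time `2 Nat.card G - 1` every value is reached
  at `x`, in particular `- a x`: `list_of_reach`.
* Setting of `zero_any`, `zero_through`: `reach_of_zw` gives `p, r` with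
  `Reach (· = p) L r (- a r)`; `reach_coset`: `- a r - (a p + c p r) ∈ Γ`. Let
  `P x := (a x + c x r) - (a p + c p r) ∈ Γ`; `P p` holds. `grow1` with `i = Nat.card Γ - 1`
  (`1 ≤ Nat.card Γ`) and `grow_all`: `Nat.card Γ ≤ (RS P (2 Nat.card Γ) y).ncard` for all `y`.
  By `reach_coset` and `cocycle_mem`, every `g ∈ RS P k y` has
  `g - (a p + c p r + c r y) ∈ Γ`: indeed `g - (a p' + c p' y) ∈ Γ` and
  `a p' + c p' y ≡ a p' + c p' r + c r y ≡ a p + c p r + c r y`. So `RS P (2 Nat.card Γ) y` is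
  contained in a coset of `Γ` and has at least `Nat.card Γ` elements: it is the whole coset.
* `zero_any`: `y = r`: (`c r r ∈ Γ`) `- a r` is in the coset, so it is reached: `list_of_reach`.
* `zero_through`: the value `g = - a r - c y r` is in the coset of `y` (`two_mem`), so reached;
  `list_of_reach_step` with `r`.
* `zero_half`: let `g = Nat.card G ≥ 3`, `i = (g + 1) / 2 - 1 ≥ 1`, so `g ≤ 2 (i + 1)` and
  `4 i - 1 ≤ 2 g - 3`. `grow2`: some `R = RS (2 i) x` has at least `i + 1` elements
  (`i + 1 ≤ g`). If there are `u, v ∈ R` with `u + v = 0`: `zw_join` (length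
  `2 i + 2 i - 1`). Otherwise `R`, `- R` and `{0}` are pairwise disjoint (`0 ∈ R` would give
  `u = v = 0`), so `2 (i + 1) + 1 ≤ g`, contradiction.
-/

set_option autoImplicit false

namespace MP0dbebe.CQ

variable {X G : Type*} [AddCommGroup G] [Finite G] {c : X → X → G} {a : X → G}

private theorem ncard_univ_of_le {S : Set G} (h : Nat.card G ≤ S.ncard) : S = Set.univ := by
  apply Set.eq_of_subset_of_ncard_le (Set.subset_univ S) _ (Set.toFinite _)
  rw [Set.ncard_univ]; exact h

theorem zero_top (hc : ∀ x y, c x y = c y x) (htop : CG c = ⊤) (x : X) :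
    ∃ l : List X, l ≠ [] ∧ x ∈ l ∧ l.length ≤ 2 * Nat.card G - 1 ∧ cval c a l = 0 := by
  have hpos : 0 < Nat.card G := Nat.card_pos
  by_cases h1 : Nat.card G = 1
  · have hs : Subsingleton G := (Nat.card_eq_one_iff_unique.1 h1).1
    refine ⟨[x], by simp, by simp, ?_, Subsingleton.elim _ _⟩
    simp [h1]
  · haveI : Nonempty X := ⟨x⟩
    have h2 : 2 ≤ Nat.card G := by omega
    obtain ⟨x0, hx0⟩ := grow2 (a := a) hc htop h2 (Nat.card G - 1) (by omega)
    have h3 : min (Nat.card G - 1 + 1) (Nat.card G) = Nat.card G := by omega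
    rw [h3] at hx0
    have h4 := grow_all ⟨x0, hx0⟩ x
    have h5 := ncard_univ_of_le h4
    have h6 : (- a x) ∈ RS c a (fun _ => True) (2 * (Nat.card G - 1) + 1) x := by
      rw [h5]; exact Set.mem_univ _
    obtain ⟨l, hl1, hl2, hl3, hl4⟩ := list_of_reach h6 (by simp)
    exact ⟨l, hl1, hl2, by omega, hl4⟩

/-- the full-coset statement -/
private theorem coset_full (hc : ∀ x y, c x y = c y x) (h : ∃ L, ZW c a L) :
    ∃ (p r : X) (P : X → Prop), (- a r - (a p + c p r) ∈ CG c) ∧
      ∀ y : X, ∀ g : G, g - (a p + c p r + c r y) ∈ CG c →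
        g ∈ RS c a P (2 * Nat.card (CG c)) y := by
  obtain ⟨L, hL⟩ := h
  obtain ⟨p, r, hpr⟩ := reach_of_zw hL
  obtain ⟨p', hp', hcos⟩ := reach_coset hc hpr
  subst hp'
  refine ⟨p', r, fun x => (a x + c x r) - (a p' + c p' r) ∈ CG c, hcos, ?_⟩
  have hG : 0 < Nat.card (CG c) := Nat.card_pos
  obtain ⟨x0, hx0⟩ := grow1 (a := a) hc
    (P := fun x => (a x + c x r) - (a p' + c p' r) ∈ CG c)
    ⟨p', by simp⟩ (Nat.card (CG c) - 1)
  have h3 : min (Nat.card (CG c) - 1 + 1) (Nat.card (CG c)) = Nat.card (CG c) := by omega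
  rw [h3] at hx0
  intro y g hg
  have h4 := grow_all ⟨x0, hx0⟩ y
  have h5 : 2 * (Nat.card (CG c) - 1) + 1 + 1 = 2 * Nat.card (CG c) := by omega
  rw [h5] at h4
  set P : X → Prop := fun x => (a x + c x r) - (a p' + c p' r) ∈ CG c with hP
  set b : G := a p' + c p' r + c r y with hb
  -- the coset
  have hsub : RS c a P (2 * Nat.card (CG c)) y ⊆ (fun z : G => z + b) '' (CG c : Set G) := by
    intro z hz
    refine ⟨z - b, ?_, by simp⟩
    obtain ⟨x', hx', hz'⟩ := reach_coset hc (show Reach c a P (2 * Nat.card (CG c)) y z from hz)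
    have h6 : (a x' + c x' r) - (a p' + c p' r) ∈ CG c := hx'
    have h7 : c x' r + c r y - c x' y ∈ CG c := cocycle_mem hc x' r y
    have h8 : z - b = (z - (a x' + c x' y)) - (c x' r + c r y - c x' y)
        + ((a x' + c x' r) - (a p' + c p' r)) := by
      rw [hb]; abel
    show z - b ∈ CG c
    rw [h8]
    exact (CG c).add_mem ((CG c).sub_mem hz' h7) h6
  have hfin : ((fun z : G => z + b) '' (CG c : Set G)).Finite := Set.toFinite _
  have hcard : ((fun z : G => z + b) '' (CG c : Set G)).ncard = Nat.card (CG c) := by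
    rw [Set.ncard_image_of_injective _ (add_left_injective b)]
    rfl
  have heq := Set.eq_of_subset_of_ncard_le hsub (by rw [hcard]; exact h4) hfin
  rw [heq]
  exact ⟨g - b, hg, by simp⟩

theorem zero_through (hc : ∀ x y, c x y = c y x) (h : ∃ L, ZW c a L) (y : X) :
    ∃ l : List X, l ≠ [] ∧ y ∈ l ∧ l.length ≤ 2 * Nat.card (CG c) + 1 ∧ cval c a l = 0 := by
  obtain ⟨p, r, P, h1, h2⟩ := coset_full hc h
  have h3 : (- a r - c y r) - (a p + c p r + c r y) ∈ CG c := by
    have h4 := two_mem hc r y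
    have h5 : (- a r - c y r) - (a p + c p r + c r y)
        = (- a r - (a p + c p r)) - (c r y + c r y) := by
      rw [hc y r]; abel
    rw [h5]
    exact (CG c).sub_mem h1 h4
  have h6 := h2 y _ h3
  exact list_of_reach_step h6 r (by abel)

theorem zero_any (hc : ∀ x y, c x y = c y x) (h : ∃ L, ZW c a L) :
    ZW c a (2 * Nat.card (CG c)) := by
  obtain ⟨p, r, P, h1, h2⟩ := coset_full hc h
  have h3 : (- a r) - (a p + c p r + c r r) ∈ CG c := by
    have h5 : (- a r) - (a p + c p r + c r r) = (- a r - (a p + c p r)) - c r r := by abel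
    rw [h5]
    exact (CG c).sub_mem h1 (loop_mem r)
  obtain ⟨l, hl1, _, hl3, hl4⟩ := list_of_reach (h2 r _ h3) (by simp)
  exact ⟨l, hl1, hl3, hl4⟩

theorem zero_half [Nonempty X] (hc : ∀ x y, c x y = c y x) (htop : CG c = ⊤)
    (hG : 3 ≤ Nat.card G) : ZW c a (2 * Nat.card G - 3) := by
  obtain ⟨x, hx⟩ := grow2 (a := a) hc htop (by omega) ((Nat.card G + 1) / 2 - 1) (by omega)
  set i := (Nat.card G + 1) / 2 - 1 with hi
  have hmin : min (i + 1) (Nat.card G) = i + 1 := by omega
  rw [hmin] at hx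
  set R : Set G := RS c a (fun _ => True) (2 * i) x with hR
  by_cases hz : ∃ u ∈ R, ∃ v ∈ R, u + v = 0
  · obtain ⟨u, hu, v, hv, huv⟩ := hz
    refine (zw_join hc hu hv huv).mono ?_
    omega
  · exfalso
    push Not at hz
    have hRfin : R.Finite := Set.toFinite _
    have hNfin : ((fun z : G => - z) '' R).Finite := Set.toFinite _
    have hdis : Disjoint R ((fun z : G => - z) '' R) := by
      rw [Set.disjoint_left]
      rintro z hz1 ⟨u, hu, rfl⟩
      exact hz _ hz1 u hu (by simp)
    have hcardN : ((fun z : G => - z) '' R).ncard = R.ncard :=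
      Set.ncard_image_of_injective _ neg_injective
    have hU : (R ∪ ((fun z : G => - z) '' R)).ncard = R.ncard + R.ncard := by
      rw [Set.ncard_union_eq hdis hRfin hNfin, hcardN]
    have h0 : (0 : G) ∉ R ∪ ((fun z : G => - z) '' R) := by
      rintro (h0 | ⟨u, hu, hu0⟩)
      · exact hz 0 h0 0 h0 (by simp)
      · have hu0' : u = 0 := by simpa using hu0
        subst hu0'
        exact hz 0 hu 0 hu (by simp)
    have hlt : (R ∪ ((fun z : G => - z) '' R)).ncard + 1 ≤ Nat.card G := by
      rw [← Set.ncard_insert_of_notMem h0 (Set.toFinite _), ← Set.ncard_univ]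
      exact Set.ncard_le_ncard (Set.subset_univ _) (Set.toFinite _)
    rw [hU] at hlt
    omega

end MP0dbebe.CQ
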