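import Pool.Agent.Lib.MP_0dbebe_co.Model
import Pool.Agent.Lib.MP_0dbebe_co.NearZero
import Pool.Agent.Lib.MP_0dbebe_co.OneSub.Energy

/-!
# Composite moduli, part (b): definitions (cells, fits, chains)
-/

set_option autoImplicit false

namespace MP0dbebe.CQ

open Finset
open scoped Classical

section Cells

variable {α : Type} [Fintype α] {q : ℕ}

/-- The number of `s ∈ L` with `w s y = c`. -/
noncomputable def cn (w : α → α → ZMod q) (L : Finset α) (y : α) (c : ZMod q) : ℕ :=
  (L.filter fun s => w s y = c).card

/-- `B` is a `κ`-cell: all subsets `L` of `B` have nearly the same colour distribution as `B`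
(in the mean square over all columns `y` and colours `c`). -/
def Cell [NeZero q] (w : α → α → ZMod q) (κ : ℝ) (B : Finset α) : Prop :=
  ∀ L ⊆ B, ∑ y : α, ∑ c : ZMod q,
    ((cn w L y c : ℝ) - (L.card : ℝ) * ((cn w B y c : ℝ) / B.card)) ^ 2
      ≤ κ ^ 2 * (B.card : ℝ) ^ 2 * Fintype.card α

/-- The colour distributions of `B'` and `B` are near. -/
def Near [NeZero q] (w : α → α → ZMod q) (ε : ℝ) (B' B : Finset α) : Prop :=
  ∑ y : α, ∑ c : ZMod q,
    ((cn w B' y c : ℝ) / B'.card - (cn w B y c : ℝ) / B.card) ^ 2 ≤ ε ^ 2 * Fintype.card α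

end Cells

section Chains

variable {α : Type} {q : ℕ}

/-- First element of a list (`d` for the empty list). -/
def hd (d : α) (l : List α) : α := l.headD d

/-- Last element of a list (`d` for the empty list). -/
def lt (d : α) (l : List α) : α := l.getLastD d

/-- `l` is a zero chain for the labels `a`: nonempty, no repetition, and
`a (first) + (weight of the path l) + a (last) = 0`. -/
def IsChain (w : α → α → ZMod q) (a : α → ZMod q) (d : α) (l : List α) : Prop :=
  l ≠ [] ∧ l.Nodup ∧ a (hd d l) + pw w l + a (lt d l) = 0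

/-- The index `x` (a chain with first vertex `h x` and last vertex `z x`) fits the pair `s, s'`. -/
def Fit {ι : Type} (w : α → α → ZMod q) (a : α → ZMod q) (h z : ι → α) (s s' : α) (x : ι) : Prop :=
  w s (h x) = a (h x) ∧ w s' (z x) = a (z x)

/-- The pair `s, s'` misses all indices of the tuple `U` in both directions. -/
def Miss {ι : Type} (w : α → α → ZMod q) (a : α → ZMod q) (h z : ι → α) {k : ℕ} (U : Fin k → ι)
    (s s' : α) : Prop :=
  ∀ i, ¬ Fit w a h z s s' (U i) ∧ ¬ Fit w a h z s' s (U i)

end Chains

end MP0dbebe.CQ
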