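import Pool.Agent.Lib.MP_0dbebe_co.CQ.BDefs

/-!
# CELLINEQ: lower bound for the number of agreements in a cell

PROOF. `∑_{y ∈ T} cn w L y (a y) = ∑_{y ∈ T} |L| cn w B y (a y) / |B| + ∑_{y ∈ T} D y` with
`D y = cn w L y (a y) - |L| cn w B y (a y) / |B|`. The first sum is at least `|L| |T| / Q`. By
Cauchy-Schwarz `|∑_{y ∈ T} D y| ≤ sqrt |T| sqrt (∑_{y ∈ T} (D y) ^ 2)` and
`∑_{y ∈ T} (D y) ^ 2 ≤ κ ^ 2 |B| ^ 2 |α|` by the cell property (drop the other columns and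
colours).
-/

set_option autoImplicit false

namespace MP0dbebe.CQ

open Finset
open scoped Classical

theorem cell_lower {α : Type} [Fintype α] {q : ℕ} [NeZero q] {w : α → α → ZMod q} {κ : ℝ}
    (hκ : 0 ≤ κ) {B : Finset α} (hC : Cell w κ B) (hB : B.Nonempty) (L : Finset α) (hL : L ⊆ B)
    (T : Finset α) (a : α → ZMod q) (Q : ℝ) (hQ : 0 < Q)
    (hp : ∀ y ∈ T, (B.card : ℝ) ≤ Q * cn w B y (a y)) :
    (L.card : ℝ) * T.card / Q - κ * B.card * Real.sqrt (Fintype.card α * T.card)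
      ≤ ∑ y ∈ T, (cn w L y (a y) : ℝ) := by
  have hb : (0 : ℝ) < B.card := by exact_mod_cast hB.card_pos
  set D : α → ℝ := fun y => (cn w L y (a y) : ℝ) - (L.card : ℝ) * ((cn w B y (a y) : ℝ) / B.card)
    with hD
  have h1 : ∑ y ∈ T, D y ^ 2 ≤ κ ^ 2 * (B.card : ℝ) ^ 2 * Fintype.card α := by
    refine le_trans ?_ (hC L hL)
    calc ∑ y ∈ T, D y ^ 2 ≤ ∑ y : α, D y ^ 2 :=
          Finset.sum_le_sum_of_subset_of_nonneg (Finset.subset_univ _) fun _ _ _ => sq_nonneg _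
      _ ≤ _ := by
          refine Finset.sum_le_sum fun y _ => ?_
          exact Finset.single_le_sum (f := fun c : ZMod q =>
            ((cn w L y c : ℝ) - (L.card : ℝ) * ((cn w B y c : ℝ) / B.card)) ^ 2)
            (fun _ _ => sq_nonneg _) (Finset.mem_univ (a y))
  have h2 : (∑ y ∈ T, D y) ^ 2 ≤ (κ * B.card) ^ 2 * (Fintype.card α * T.card) := by
    calc (∑ y ∈ T, D y) ^ 2 ≤ T.card * ∑ y ∈ T, D y ^ 2 := sq_sum_le_card_mul_sum_sq
      _ ≤ T.card * (κ ^ 2 * (B.card : ℝ) ^ 2 * Fintype.card α) :=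
          mul_le_mul_of_nonneg_left h1 (Nat.cast_nonneg _)
      _ = _ := by ring
  have h3 : |∑ y ∈ T, D y| ≤ κ * B.card * Real.sqrt (Fintype.card α * T.card) := by
    have h4 := Real.abs_le_sqrt h2
    rw [Real.sqrt_mul (sq_nonneg _), Real.sqrt_sq (mul_nonneg hκ hb.le)] at h4
    exact h4
  have h5 : ∑ y ∈ T, (cn w L y (a y) : ℝ) =
      ∑ y ∈ T, (L.card : ℝ) * ((cn w B y (a y) : ℝ) / B.card) + ∑ y ∈ T, D y := by
    rw [← Finset.sum_add_distrib]
    refine Finset.sum_congr rfl fun y _ => ?_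
    simp only [hD]
    ring
  have h6 : (L.card : ℝ) * T.card / Q ≤
      ∑ y ∈ T, (L.card : ℝ) * ((cn w B y (a y) : ℝ) / B.card) := by
    have h7 : (L.card : ℝ) * T.card / Q = ∑ _y ∈ T, (L.card : ℝ) * (1 / Q) := by
      rw [Finset.sum_const, nsmul_eq_mul]
      ring
    rw [h7]
    refine Finset.sum_le_sum fun y hy => mul_le_mul_of_nonneg_left ?_ (Nat.cast_nonneg _)
    rw [div_le_div_iff₀ hQ hb]
    have := hp y hy
    linarith
  have h8 := (abs_le.mp h3).1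
  rw [h5]
  linarith

/-- The same for a family indexed by `C` with distinct columns `h x`. -/
theorem cell_lower_index {α ι : Type} [Fintype α] {q : ℕ} [NeZero q] {w : α → α → ZMod q} {κ : ℝ}
    (hκ : 0 ≤ κ) {B : Finset α} (hC : Cell w κ B) (hB : B.Nonempty) (L : Finset α) (hL : L ⊆ B)
    (C : Finset ι) (h : ι → α) (hh : Set.InjOn h (C : Set ι)) (a : α → ZMod q) (Q : ℝ)
    (hQ : 0 < Q) (hp : ∀ x ∈ C, (B.card : ℝ) ≤ Q * cn w B (h x) (a (h x))) :
    (L.card : ℝ) * C.card / Q - κ * B.card * Real.sqrt (Fintype.card α * C.card)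
      ≤ ∑ x ∈ C, ((L.filter fun s => w s (h x) = a (h x)).card : ℝ) := by
  have h1 := cell_lower hκ hC hB L hL (C.image h) a Q hQ (by
    intro y hy
    obtain ⟨x, hx, rfl⟩ := Finset.mem_image.mp hy
    exact hp x hx)
  rw [Finset.card_image_of_injOn hh, Finset.sum_image (fun x hx y hy hxy => hh hx hy hxy)] at h1
  exact h1

end MP0dbebe.CQ
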