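import Pool.Agent.Lib.MP_0dbebe_co.CQ.BDefs

/-!
# CELLVEC: cells and nearness in terms of row vectors

The row of `u` is the vector with coordinates `(y, c)`, equal to `1 / sqrt |α|` if `w u y = c` and
to `0` otherwise. Its norm is `1` (exactly one `c` for each `y`). The coordinate `(y, c)` of
`∑ u ∈ L, rowv w u` is `cn w L y c / sqrt |α|`, the coordinate of `meanVec (rowv w) B` is
`cn w B y c / (|B| sqrt |α|)`; so `‖∑_L - |L| mean‖ ^ 2` is the left side of `Cell` divided by `|α|`,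
and similarly for `Near`. (`EuclideanSpace.norm_sq_eq`, `Fintype.sum_prod_type`.)
-/

set_option autoImplicit false

namespace MP0dbebe.CQ

open Finset
open scoped Classical

variable {α : Type} [Fintype α] {q : ℕ} [NeZero q]

/-- The row of `u` as a vector. -/
noncomputable def rowv (w : α → α → ZMod q) (u : α) : EuclideanSpace ℝ (α × ZMod q) :=
  WithLp.toLp 2 (fun p => if w u p.1 = p.2 then (Real.sqrt (Fintype.card α))⁻¹ else 0)

theorem CellVec_row_apply (w : α → α → ZMod q) (u : α) (p : α × ZMod q) :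
    rowv w u p = if w u p.1 = p.2 then (Real.sqrt (Fintype.card α))⁻¹ else 0 := rfl

theorem CellVec_sum_apply (w : α → α → ZMod q) (L : Finset α) (p : α × ZMod q) :
    (∑ u ∈ L, rowv w u) p = (cn w L p.1 p.2 : ℝ) * (Real.sqrt (Fintype.card α))⁻¹ := by
  have h1 : (∑ u ∈ L, rowv w u) p = ∑ u ∈ L, rowv w u p := by
    simp
  rw [h1, cn, Finset.card_filter]
  push_cast
  rw [Finset.sum_mul]
  refine Finset.sum_congr rfl fun u _ => ?_
  rw [CellVec_row_apply]
  split_ifs <;> simp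

theorem CellVec_sqrt [Nonempty α] :
    ((Real.sqrt (Fintype.card α))⁻¹) ^ 2 = (Fintype.card α : ℝ)⁻¹ := by
  rw [inv_pow, Real.sq_sqrt (Nat.cast_nonneg _)]

theorem norm_rowv [Nonempty α] (w : α → α → ZMod q) (u : α) : ‖rowv w u‖ = 1 := by
  have hn : (Fintype.card α : ℝ) ≠ 0 := by
    have : 0 < Fintype.card α := Fintype.card_pos
    positivity
  rw [EuclideanSpace.norm_eq, Real.sqrt_eq_one, Fintype.sum_prod_type]
  have h1 : ∀ y : α, ∑ c : ZMod q, ‖rowv w u (y, c)‖ ^ 2 = (Fintype.card α : ℝ)⁻¹ := by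
    intro y
    rw [Finset.sum_eq_single (w u y)]
    · rw [CellVec_row_apply, if_pos rfl, Real.norm_eq_abs, sq_abs, CellVec_sqrt]
    · intro c _ hc
      rw [CellVec_row_apply, if_neg (fun h => hc h.symm), norm_zero]
      norm_num
    · intro h
      exact absurd (Finset.mem_univ _) h
  rw [Finset.sum_congr rfl fun y _ => h1 y, Finset.sum_const, Finset.card_univ, nsmul_eq_mul,
    mul_inv_cancel₀ hn]

theorem CellVec_mean_apply (w : α → α → ZMod q) (B : Finset α) (p : α × ZMod q) :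
    Pool.Agent.Lib.MP_0dbebe_co.OneSub.meanVec (rowv w) B p =
      (cn w B p.1 p.2 : ℝ) / B.card * (Real.sqrt (Fintype.card α))⁻¹ := by
  have h1 : Pool.Agent.Lib.MP_0dbebe_co.OneSub.meanVec (rowv w) B p =
      (B.card : ℝ)⁻¹ * (∑ u ∈ B, rowv w u) p := rfl
  rw [h1, CellVec_sum_apply]
  ring

theorem CellVec_normsq [Nonempty α] (v : EuclideanSpace ℝ (α × ZMod q)) (D : α → ZMod q → ℝ)
    (h : ∀ p, v p = D p.1 p.2 * (Real.sqrt (Fintype.card α))⁻¹) :
    ∑ y : α, ∑ c : ZMod q, D y c ^ 2 = ‖v‖ ^ 2 * Fintype.card α := by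
  have hn : (Fintype.card α : ℝ) ≠ 0 := by
    have : 0 < Fintype.card α := Fintype.card_pos
    positivity
  rw [EuclideanSpace.norm_sq_eq, Fintype.sum_prod_type, Finset.sum_mul]
  refine Finset.sum_congr rfl fun y _ => ?_
  rw [Finset.sum_mul]
  refine Finset.sum_congr rfl fun c _ => ?_
  rw [h, Real.norm_eq_abs, sq_abs, mul_pow, CellVec_sqrt, mul_assoc, inv_mul_cancel₀ hn, mul_one]

theorem cell_of_vec [Nonempty α] (w : α → α → ZMod q) (κ : ℝ) (hκ : 0 ≤ κ) (B : Finset α)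
    (hB : B.Nonempty)
    (h : ∀ L ⊆ B, ‖∑ u ∈ L, rowv w u
      - (L.card : ℝ) • Pool.Agent.Lib.MP_0dbebe_co.OneSub.meanVec (rowv w) B‖ ≤ κ * B.card) :
    Cell w κ B := by
  intro L hL
  rw [CellVec_normsq (∑ u ∈ L, rowv w u
      - (L.card : ℝ) • Pool.Agent.Lib.MP_0dbebe_co.OneSub.meanVec (rowv w) B)]
  · have h1 := pow_le_pow_left₀ (norm_nonneg _) (h L hL) 2
    rw [mul_pow] at h1
    exact mul_le_mul_of_nonneg_right h1 (Nat.cast_nonneg _)
  · intro p
    have h2 : (∑ u ∈ L, rowv w u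
        - (L.card : ℝ) • Pool.Agent.Lib.MP_0dbebe_co.OneSub.meanVec (rowv w) B) p =
        (∑ u ∈ L, rowv w u) p -
          (L.card : ℝ) * Pool.Agent.Lib.MP_0dbebe_co.OneSub.meanVec (rowv w) B p := rfl
    rw [h2, CellVec_sum_apply, CellVec_mean_apply]
    ring

theorem near_of_vec [Nonempty α] (w : α → α → ZMod q) (ε : ℝ) (hε : 0 ≤ ε) (B' B : Finset α)
    (hB' : B'.Nonempty) (hB : B.Nonempty)
    (h : ‖Pool.Agent.Lib.MP_0dbebe_co.OneSub.meanVec (rowv w) B'
      - Pool.Agent.Lib.MP_0dbebe_co.OneSub.meanVec (rowv w) B‖ ≤ ε) :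
    Near w ε B' B := by
  unfold Near
  rw [CellVec_normsq (Pool.Agent.Lib.MP_0dbebe_co.OneSub.meanVec (rowv w) B'
      - Pool.Agent.Lib.MP_0dbebe_co.OneSub.meanVec (rowv w) B)
      (fun y c => (cn w B' y c : ℝ) / B'.card - (cn w B y c : ℝ) / B.card)]
  · have h1 := pow_le_pow_left₀ (norm_nonneg _) h 2
    exact mul_le_mul_of_nonneg_right h1 (Nat.cast_nonneg _)
  · intro p
    have h2 : (Pool.Agent.Lib.MP_0dbebe_co.OneSub.meanVec (rowv w) B'
        - Pool.Agent.Lib.MP_0dbebe_co.OneSub.meanVec (rowv w) B) p =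
        Pool.Agent.Lib.MP_0dbebe_co.OneSub.meanVec (rowv w) B' p -
          Pool.Agent.Lib.MP_0dbebe_co.OneSub.meanVec (rowv w) B p := rfl
    rw [h2, CellVec_mean_apply, CellVec_mean_apply]
    ring

end MP0dbebe.CQ
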