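import Pool.Agent.Lib.MP_0dbebe_co.CQ.BDefs

/-!
# TRANSFER: from the graph on a subset of vertices to the induced edges
-/

set_option autoImplicit false

namespace MP0dbebe.CQ

open Finset
open scoped Classical
open Pool.Agent.Lib.MP_0dbebe_co.OneSub (E mem_E)

/-- The graph induced on the finset `X`, on the type `X`. -/
def ind {V : Type} (H : SimpleGraph V) (X : Finset V) : SimpleGraph X :=
  H.comap (fun x : X => (x : V))

theorem card_ind {V : Type} [Fintype V] (H : SimpleGraph V) (X : Finset V) :
    (E (ind H X)).card = (EE H X).card := by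
  have himg : EE H X = (E (ind H X)).image (Sym2.map (fun x : X => (x : V))) := by
    ext e
    rw [mem_image]
    induction e using Sym2.ind with
    | _ a b =>
      constructor
      · intro h
        rw [mem_EE] at h
        obtain ⟨h1, h2⟩ := h
        refine ⟨s(⟨a, h1 a (Sym2.mem_mk_left a b)⟩, ⟨b, h1 b (Sym2.mem_mk_right a b)⟩), ?_, ?_⟩
        · rw [mem_E]
          exact h2
        · rfl
      · rintro ⟨e', he', hee⟩
        induction e' using Sym2.ind with
        | _ x y =>
          rw [mem_E] at he'
          rw [← hee, mem_EE]
          constructor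
          · intro v hv
            rw [Sym2.map_mk, Sym2.mem_iff] at hv
            rcases hv with rfl | rfl
            · exact x.2
            · exact y.2
          · exact he'
  rw [himg, card_image_of_injective]
  exact Sym2.map.injective Subtype.val_injective

theorem transfer {V α G : Type} [AddCommGroup G] [Fintype V] [Nonempty α] (w : α → α → G)
    (H : SimpleGraph V) (X : Finset V) (S : Finset α)
    (h : HasModel w (EE (ind H X) univ) univ S) : HasModel w (EE H X) X S := by
  rcases X.eq_empty_or_nonempty with h0 | h0
  · subst h0
    have : EE H (∅ : Finset V) = ∅ := by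
      ext e
      induction e using Sym2.ind with
      | _ a b =>
        rw [mem_EE]
        constructor
        · intro h1; exact absurd (h1.1 a (Sym2.mem_mk_left a b)) (notMem_empty _)
        · intro h1; exact absurd h1 (notMem_empty _)
    rw [this]
    exact hasModel_empty w S
  · obtain ⟨x₀, hx₀⟩ := h0
    obtain ⟨φ', I', m⟩ := h
    set r : V → X := fun v => if hv : v ∈ X then ⟨v, hv⟩ else ⟨x₀, hx₀⟩ with hr
    have hr1 : ∀ v ∈ X, ((r v : X) : V) = v := by
      intro v hv
      rw [hr]
      simp only [hv, dif_pos]
    have hr2 : ∀ x : X, r (x : V) = x := by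
      intro x
      apply Subtype.ext
      exact hr1 x x.2
    have hmap : ∀ e : Sym2 V, (∀ v ∈ e, v ∈ X) →
        Sym2.map (fun x : X => (x : V)) (Sym2.map r e) = e := by
      intro e he
      induction e using Sym2.ind with
      | _ a b =>
        rw [Sym2.map_mk, Sym2.map_mk]
        rw [hr1 a (he a (Sym2.mem_mk_left a b)), hr1 b (he b (Sym2.mem_mk_right a b))]
    have hmem : ∀ e ∈ EE H X, Sym2.map r e ∈ EE (ind H X) univ := by
      intro e he
      rw [mem_EE] at he
      rw [mem_EE]
      refine ⟨fun v _ => mem_univ v, ?_⟩
      induction e using Sym2.ind with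
      | _ a b =>
        rw [Sym2.map_mk]
        change H.Adj ((r a : X) : V) ((r b : X) : V)
        rw [hr1 a (he.1 a (Sym2.mem_mk_left a b)), hr1 b (he.1 b (Sym2.mem_mk_right a b))]
        exact he.2
    refine ⟨fun v => φ' (r v), fun e => I' (Sym2.map r e), ?_⟩
    constructor
    · intro u hu v hv huv
      have h1 := m.inj (r u) (mem_univ _) (r v) (mem_univ _) huv
      rw [← hr1 u hu, ← hr1 v hv, h1]
    · intro u _
      exact m.memφ (r u) (mem_univ _)
    · intro e he a ha
      exact m.memI _ (hmem e he) a ha
    · intro e he
      exact m.nodup _ (hmem e he)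
    · intro e he v _
      exact m.avoid _ (hmem e he) (r v) (mem_univ _)
    · intro e he e' he' hne a ha
      apply m.disj _ (hmem e he) _ (hmem e' he') _ a ha
      intro hcon
      apply hne
      rw [← hmap e (mem_EE.1 he).1, ← hmap e' (mem_EE.1 he').1, hcon]
    · intro e he v hv
      exact (mem_EE.1 he).1 v hv
    · intro e he
      obtain ⟨u, v, h1, h2⟩ := m.div _ (hmem e he)
      refine ⟨u, v, ?_, ?_⟩
      · rw [← hmap e (mem_EE.1 he).1, h1, Sym2.map_mk]
      · simp only [hr2]
        exact h2

end MP0dbebe.CQ
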