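import Pool.Agent.Lib.MP_0dbebe_co.CQ.Gain
import Pool.Agent.Lib.MP_0dbebe_co.CQ.CellVec

/-!
# TWOCELL: a cell with a much finer cell inside, with nearly the same mean

PROOF of `two_cell_abs`. We may assume `κ ≤ 1` and `g β ≤ κ` (replace `g β` by `min (g β) κ`).
Claim(J), by induction on `J : ℕ`: for every `β₁ > 0` there is `β₀ > 0` such that for all `N > 0`
(a real), all `r` with norms at most one and every `κ`-cell `I` with `β₁ N ≤ |I|`, `8 ≤ β₀ N` and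
`1 - J κ ^ 2 / 2 ≤ ‖mean I‖ ^ 2` the conclusion holds inside `I`. Proof: apply `exists_parts` with
the cell constant `g β₁`, the rest constant `ε' = κ ^ 2 / 16`, `T = 8`, to `I` (size at least 8);
it gives a constant `c > 0` and parts `P`. If some part has mean within `κ` of the mean of `I`:
take `B = I`, `B' = P`, `β = β₁` (`β₀ ≤ min β₁ (c β₁)`). Otherwise `gain` (with `ε = κ`) gives a
part `P` with energy at least that of `I` plus `κ ^ 2 / 2`; it is a `g β₁`-cell, hence a `κ`-cell,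
and `|P| ≥ c β₁ N`. For `J = 0` this is impossible (the energy is at most one). For `J + 1` apply
Claim(J) to `P` with `c β₁` in place of `β₁`; `β₀` is the minimum of `β₁`, `c β₁` and the `β₀` of
Claim(J). Start: `J` with `2 ≤ J κ ^ 2`, and `I` replaced by a `κ`-cell inside `I`
(`exists_cell`). `two_cell` is `two_cell_abs` for `r = rowv w`, `N = |α|`, `M` with `8 ≤ β₀ M`
(`norm_rowv`, `cell_of_vec`, `near_of_vec`).
-/

set_option autoImplicit false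
set_option linter.unusedSectionVars false

namespace MP0dbebe.CQ

open Finset
open scoped Classical

theorem TwoCell_mono {ι F : Type} [NormedAddCommGroup F] [InnerProductSpace ℝ F] {r : ι → F}
    {a b : ℝ} (hab : a ≤ b) {B : Finset ι} (h : RC r a B) : RC r b B := fun L hL =>
  (h L hL).trans (mul_le_mul_of_nonneg_right hab (Nat.cast_nonneg _))

theorem TwoCell_claim (κ k : ℝ) (hk : 0 < k) (hk1 : k ≤ 1) (hkκ : k ≤ κ) (g : ℝ → ℝ)
    (hg : ∀ β, 0 < β → 0 < g β) (J : ℕ) :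
    ∀ β₁ : ℝ, 0 < β₁ → ∃ β₀ : ℝ, 0 < β₀ ∧ ∀ (ι F : Type) [NormedAddCommGroup F]
      [InnerProductSpace ℝ F] (r : ι → F), (∀ u, ‖r u‖ ≤ 1) → ∀ (N : ℝ) (I : Finset ι),
      8 ≤ β₀ * N → β₁ * N ≤ I.card → RC r k I →
      1 - J * k ^ 2 / 2 ≤ ‖Pool.Agent.Lib.MP_0dbebe_co.OneSub.meanVec r I‖ ^ 2 →
      ∃ β : ℝ, β₀ ≤ β ∧ ∃ B ⊆ I, ∃ B' ⊆ B, B.Nonempty ∧ B'.Nonempty ∧ β * N ≤ B.card ∧
        β₀ * N ≤ B'.card ∧ 8 * B'.card ≤ B.card ∧ RC r κ B ∧ RC r (g β) B' ∧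
        ‖Pool.Agent.Lib.MP_0dbebe_co.OneSub.meanVec r B'
          - Pool.Agent.Lib.MP_0dbebe_co.OneSub.meanVec r B‖ ≤ κ := by
  induction J with
  | zero =>
    intro β₁ hβ₁
    obtain ⟨c, hc, hpart⟩ := exists_parts (min (g β₁) k) (k ^ 2 / 16)
      (lt_min (hg β₁ hβ₁) hk) (by positivity) 8 (by norm_num)
    refine ⟨min β₁ (c * β₁), lt_min hβ₁ (mul_pos hc hβ₁), ?_⟩
    intro ι F _ _ r hr N I hN hI hcell hE
    have hN0 : 0 < N := by
      by_contra h0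
      have h1 : min β₁ (c * β₁) * N ≤ 0 :=
        mul_nonpos_of_nonneg_of_nonpos (lt_min hβ₁ (mul_pos hc hβ₁)).le (not_lt.1 h0)
      linarith
    have hm1 : min β₁ (c * β₁) * N ≤ β₁ * N :=
      mul_le_mul_of_nonneg_right (min_le_left _ _) hN0.le
    have hm2 : min β₁ (c * β₁) * N ≤ c * β₁ * N :=
      mul_le_mul_of_nonneg_right (min_le_right _ _) hN0.le
    have h8 : 8 ≤ I.card := by
      have : (8 : ℝ) ≤ I.card := by linarith
      exact_mod_cast this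
    have hIne : I.Nonempty := Finset.card_pos.1 (by omega)
    obtain ⟨Ps, hP1, hP2, hP3⟩ := hpart ι F r hr I h8
    by_cases hnear : ∃ P ∈ Ps, ‖Pool.Agent.Lib.MP_0dbebe_co.OneSub.meanVec r P
        - Pool.Agent.Lib.MP_0dbebe_co.OneSub.meanVec r I‖ ≤ k
    · obtain ⟨P, hP, hPn⟩ := hnear
      obtain ⟨q1, q2, q3, q4, q5⟩ := hP1 P hP
      refine ⟨β₁, min_le_left _ _, I, Subset.rfl, P, q1, hIne, q2, hI, ?_, q5,
        TwoCell_mono hkκ hcell, TwoCell_mono (min_le_left _ _) q3, hPn.trans hkκ⟩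
      have : c * (β₁ * N) ≤ c * I.card := mul_le_mul_of_nonneg_left hI hc.le
      linarith
    · exfalso
      push Not at hnear
      obtain ⟨P, hP, hPE⟩ := gain r hr k (k ^ 2 / 16) hk hk1 (by linarith) (by positivity) I hIne
        Ps (fun P hP => ⟨(hP1 P hP).1, (hP1 P hP).2.1⟩) hP2 hP3 hnear
      have h1 := Pool.Agent.Lib.MP_0dbebe_co.OneSub.norm_meanVec_le r hr P
      have h2 : ‖Pool.Agent.Lib.MP_0dbebe_co.OneSub.meanVec r P‖ ^ 2 ≤ 1 :=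
        pow_le_one₀ (norm_nonneg _) h1
      have h3 : 0 < k ^ 2 := by positivity
      simp only [Nat.cast_zero, zero_mul, zero_div, sub_zero] at hE
      linarith
  | succ J ih =>
    intro β₁ hβ₁
    obtain ⟨c, hc, hpart⟩ := exists_parts (min (g β₁) k) (k ^ 2 / 16)
      (lt_min (hg β₁ hβ₁) hk) (by positivity) 8 (by norm_num)
    obtain ⟨β₀', hβ₀', hind⟩ := ih (c * β₁) (mul_pos hc hβ₁)
    have hpos : 0 < min (min β₁ (c * β₁)) β₀' := lt_min (lt_min hβ₁ (mul_pos hc hβ₁)) hβ₀'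
    refine ⟨min (min β₁ (c * β₁)) β₀', hpos, ?_⟩
    intro ι F _ _ r hr N I hN hI hcell hE
    have hN0 : 0 < N := by
      by_contra h0
      have h1 : min (min β₁ (c * β₁)) β₀' * N ≤ 0 :=
        mul_nonpos_of_nonneg_of_nonpos hpos.le (not_lt.1 h0)
      linarith
    have hm1 : min (min β₁ (c * β₁)) β₀' * N ≤ β₁ * N :=
      mul_le_mul_of_nonneg_right ((min_le_left _ _).trans (min_le_left _ _)) hN0.le
    have hm2 : min (min β₁ (c * β₁)) β₀' * N ≤ c * β₁ * N :=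
      mul_le_mul_of_nonneg_right ((min_le_left _ _).trans (min_le_right _ _)) hN0.le
    have hm3 : min (min β₁ (c * β₁)) β₀' * N ≤ β₀' * N :=
      mul_le_mul_of_nonneg_right (min_le_right _ _) hN0.le
    have h8 : 8 ≤ I.card := by
      have : (8 : ℝ) ≤ I.card := by linarith
      exact_mod_cast this
    have hIne : I.Nonempty := Finset.card_pos.1 (by omega)
    obtain ⟨Ps, hP1, hP2, hP3⟩ := hpart ι F r hr I h8
    have hcI : c * (β₁ * N) ≤ c * I.card := mul_le_mul_of_nonneg_left hI hc.le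
    by_cases hnear : ∃ P ∈ Ps, ‖Pool.Agent.Lib.MP_0dbebe_co.OneSub.meanVec r P
        - Pool.Agent.Lib.MP_0dbebe_co.OneSub.meanVec r I‖ ≤ k
    · obtain ⟨P, hP, hPn⟩ := hnear
      obtain ⟨q1, q2, q3, q4, q5⟩ := hP1 P hP
      refine ⟨β₁, (min_le_left _ _).trans (min_le_left _ _), I, Subset.rfl, P, q1, hIne, q2, hI,
        ?_, q5, TwoCell_mono hkκ hcell, TwoCell_mono (min_le_left _ _) q3, hPn.trans hkκ⟩
      linarith
    · push Not at hnear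
      obtain ⟨P, hP, hPE⟩ := gain r hr k (k ^ 2 / 16) hk hk1 (by linarith) (by positivity) I hIne
        Ps (fun P hP => ⟨(hP1 P hP).1, (hP1 P hP).2.1⟩) hP2 hP3 hnear
      obtain ⟨q1, q2, q3, q4, q5⟩ := hP1 P hP
      obtain ⟨β, hβ, B, hB, B', hB', z1, z2, z3, z4, z5, z6, z7, z8⟩ :=
        hind ι F r hr N P (by linarith) (by linarith) (TwoCell_mono (min_le_right _ _) q3)
          (by push_cast at hE; linarith)
      exact ⟨β, (min_le_right _ _).trans hβ, B, hB.trans q1, B', hB', z1, z2, z3,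
        hm3.trans z4, z5, z6, z7, z8⟩

theorem two_cell_abs (κ : ℝ) (hκ : 0 < κ) (g : ℝ → ℝ) (hg : ∀ β, 0 < β → 0 < g β) (β₁ : ℝ)
    (hβ₁ : 0 < β₁) :
    ∃ β₀ : ℝ, 0 < β₀ ∧ ∀ (ι F : Type) [NormedAddCommGroup F] [InnerProductSpace ℝ F]
      (r : ι → F), (∀ u, ‖r u‖ ≤ 1) → ∀ (N : ℝ) (I : Finset ι), 8 ≤ β₀ * N → β₁ * N ≤ I.card →
      ∃ β : ℝ, β₀ ≤ β ∧ ∃ B ⊆ I, ∃ B' ⊆ B, B.Nonempty ∧ B'.Nonempty ∧ β * N ≤ B.card ∧
        β₀ * N ≤ B'.card ∧ 8 * B'.card ≤ B.card ∧ RC r κ B ∧ RC r (g β) B' ∧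
        ‖Pool.Agent.Lib.MP_0dbebe_co.OneSub.meanVec r B'
          - Pool.Agent.Lib.MP_0dbebe_co.OneSub.meanVec r B‖ ≤ κ := by
  have hk : 0 < min κ 1 := lt_min hκ one_pos
  obtain ⟨J, hJ⟩ := exists_nat_ge (2 / (min κ 1) ^ 2)
  have hJ' : 2 ≤ J * (min κ 1) ^ 2 := (div_le_iff₀ (by positivity)).1 hJ
  obtain ⟨K, hK, hcell⟩ := exists_cell (min κ 1) hk
  have hK0 : (0 : ℝ) < K := by exact_mod_cast hK
  obtain ⟨β₀, hβ₀, hmain⟩ := TwoCell_claim κ (min κ 1) hk (min_le_right _ _) (min_le_left _ _)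
    g hg J (β₁ / K) (div_pos hβ₁ hK0)
  have hpos : 0 < min β₀ β₁ := lt_min hβ₀ hβ₁
  refine ⟨min β₀ β₁, hpos, ?_⟩
  intro ι F _ _ r hr N I hN hI
  have hN0 : 0 < N := by
    by_contra h0
    have h1 : min β₀ β₁ * N ≤ 0 := mul_nonpos_of_nonneg_of_nonpos hpos.le (not_lt.1 h0)
    linarith
  have hm1 : min β₀ β₁ * N ≤ β₀ * N := mul_le_mul_of_nonneg_right (min_le_left _ _) hN0.le
  have hm2 : min β₀ β₁ * N ≤ β₁ * N := mul_le_mul_of_nonneg_right (min_le_right _ _) hN0.le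
  have hIne : I.Nonempty := by
    rw [← Finset.card_pos]
    have : (0 : ℝ) < I.card := by linarith
    exact_mod_cast this
  obtain ⟨P, hPI, hPne, hPc, hPcard⟩ := hcell ι F r hr I hIne
  have hPcard' : (I.card : ℝ) ≤ K * P.card := by exact_mod_cast hPcard
  have h1 : β₁ / K * N ≤ P.card := by
    rw [div_mul_eq_mul_div, div_le_iff₀ hK0]
    linarith
  obtain ⟨β, hβ, B, hB, B', hB', z1, z2, z3, z4, z5, z6, z7, z8⟩ :=
    hmain ι F r hr N P (by linarith) h1 hPc (by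
      have : 0 ≤ ‖Pool.Agent.Lib.MP_0dbebe_co.OneSub.meanVec r P‖ ^ 2 := by positivity
      linarith)
  exact ⟨β, (min_le_left _ _).trans hβ, B, hB.trans hPI, B', hB', z1, z2, z3,
    hm1.trans z4, z5, z6, z7, z8⟩

theorem two_cell (q : ℕ) [NeZero q] (κ : ℝ) (hκ : 0 < κ) (g : ℝ → ℝ)
    (hg : ∀ β, 0 < β → 0 < g β) (β₁ : ℝ) (hβ₁ : 0 < β₁) :
    ∃ β₀ : ℝ, 0 < β₀ ∧ ∃ M : ℕ, ∀ (α : Type) [Fintype α] (w : α → α → ZMod q) (I : Finset α),
      M ≤ Fintype.card α → β₁ * Fintype.card α ≤ I.card →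
      ∃ β : ℝ, β₀ ≤ β ∧ ∃ B ⊆ I, ∃ B' ⊆ B, B.Nonempty ∧ B'.Nonempty ∧
        β * Fintype.card α ≤ B.card ∧ β₀ * Fintype.card α ≤ B'.card ∧ 8 * B'.card ≤ B.card ∧
        Cell w κ B ∧ Cell w (g β) B' ∧ Near w κ B' B := by
  obtain ⟨β₀, hβ₀, hmain⟩ := two_cell_abs κ hκ g hg β₁ hβ₁
  obtain ⟨M, hM⟩ := exists_nat_ge (8 / β₀)
  refine ⟨β₀, hβ₀, M + 1, ?_⟩
  intro α _ w I hα hI
  have hne : Nonempty α := Fintype.card_pos_iff.1 (by omega)
  have h8 : 8 ≤ β₀ * Fintype.card α := by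
    have h1 : 8 ≤ M * β₀ := (div_le_iff₀ hβ₀).1 hM
    have h2 : (M : ℝ) ≤ Fintype.card α := by exact_mod_cast (by omega : M ≤ Fintype.card α)
    have h3 : (M : ℝ) * β₀ ≤ Fintype.card α * β₀ := mul_le_mul_of_nonneg_right h2 hβ₀.le
    linarith
  obtain ⟨β, hβ, B, hB, B', hB', z1, z2, z3, z4, z5, z6, z7, z8⟩ :=
    hmain α (EuclideanSpace ℝ (α × ZMod q)) (rowv w) (fun u => (norm_rowv w u).le)
      (Fintype.card α) I h8 hI
  have hβpos : 0 < β := lt_of_lt_of_le hβ₀ hβ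
  exact ⟨β, hβ, B, hB, B', hB', z1, z2, z3, z4, z5, cell_of_vec w κ hκ.le B z1 z6,
    cell_of_vec w (g β) (hg β hβpos).le B' z2 z7, near_of_vec w κ hκ.le B' B z2 z1 z8⟩

end MP0dbebe.CQ
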