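import Pool.Agent.Lib.MP_0dbebe_co.CQ.MatchMain
import Pool.Agent.Lib.MP_0dbebe_co.CQ.TwoCell
import Pool.Agent.Lib.MP_0dbebe_co.CQ.Transfer
import Pool.Agent.Lib.MP_0dbebe_co.CQ.AMain

/-!
# CLAIMN: the embedding inside a set without large unit cliques, from parts (a) and (b)
-/

set_option autoImplicit false

namespace MP0dbebe.CQ

open Finset
open scoped Classical
open Pool.Agent.Lib.MP_0dbebe_co.OneSub (E mem_E)

theorem exists_popular {α : Type} [Fintype α] {q : ℕ} [NeZero q] (w : α → α → ZMod q)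
    (B : Finset α) : ∃ a : α → ZMod q, ∀ y, B.card ≤ q * cn w B y (a y) := by
  have h : ∀ y, ∃ c : ZMod q, B.card ≤ q * cn w B y c := by
    intro y
    by_contra hcon
    push Not at hcon
    have h1 : B.card = ∑ c : ZMod q, cn w B y c :=
      card_eq_sum_card_fiberwise (fun x _ => mem_univ _)
    have h2 : ∑ c : ZMod q, q * cn w B y c < ∑ c : ZMod q, B.card :=
      sum_lt_sum_of_nonempty ⟨0, mem_univ _⟩ (fun c _ => hcon c)
    rw [← mul_sum, ← h1, sum_const, card_univ, ZMod.card, smul_eq_mul] at h2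
    exact lt_irrefl _ h2
  choose a ha using h
  exact ⟨a, ha⟩

theorem hasModel_of_isEmpty {V α : Type} {G : Type} [AddCommGroup G] [IsEmpty V]
    (w : α → α → G) (F : Finset (Sym2 V)) (X : Finset V) (S : Finset α) : HasModel w F X S := by
  have hs : IsEmpty (Sym2 V) := inferInstance
  exact ⟨fun v => isEmptyElim v, fun e => isEmptyElim e, ⟨fun u => isEmptyElim u,
    fun u => isEmptyElim u, fun e => isEmptyElim e, fun e => isEmptyElim e,
    fun e => isEmptyElim e, fun e => isEmptyElim e, fun e => isEmptyElim e,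
    fun e => isEmptyElim e⟩⟩

theorem claimN_core (q : ℕ) (hq : 4 ≤ q) (D : ℕ) (hD : 2 ≤ D) : ∃ D' R C : ℕ,
    ∀ (V α : Type) [Fintype V] [Fintype α] (w : α → α → ZMod q), (∀ x y, w x y = w y x) →
    ∀ (H : SimpleGraph V) (N : Finset α), Fintype.card α ≤ D * N.card →
    (∀ W ⊆ N, Fintype.card α ≤ D' * W.card → ∃ t : ZMod q, t ≠ 0 ∧ ¬ IsUnit t ∧
      ∃ T ⊆ W, T.card = R ∧ ∀ x ∈ T, ∀ y ∈ T, x ≠ y → w x y = t) →
    ∀ X : Finset V, (q - 2) * D * (EE H X).card ≤ (D - 1) * N.card →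
      C * Fintype.card V ≤ (EE H X).card → Fintype.card α ≤ 8 * q * D * (EE H X).card →
      HasModel w (EE H X) X N := by
  have : NeZero q := ⟨by omega⟩
  have hqR : (4 : ℝ) ≤ q := by exact_mod_cast hq
  have hDR : (2 : ℝ) ≤ D := by exact_mod_cast hD
  set ε : ℝ := 1 / (4 * (D : ℝ) ^ 2) with hε
  have hεpos : 0 < ε := by rw [hε]; positivity
  obtain ⟨κ, hκ, g, hg, hmm⟩ := matching_main q (1 / (2 * (D : ℝ))) (8 * q * D) (by positivity)
    (by positivity)
  obtain ⟨s₀, hs₀, hch⟩ := chains_main q hq ε hεpos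
  set s₁ : ℝ := min s₀ (ε / (4 * q)) with hs₁
  have hs₁pos : 0 < s₁ := lt_min hs₀ (by positivity)
  obtain ⟨β₀, hβ₀, M, htc⟩ := two_cell q κ hκ g hg s₁ hs₁pos
  obtain ⟨D', R, hch⟩ := hch β₀ hβ₀
  obtain ⟨C₀, hmm⟩ := hmm β₀ hβ₀
  refine ⟨D', R, max ⌈C₀⌉₊ (max M (max ⌈4 * q / ε⌉₊ 1)), ?_⟩
  intro V α _ _ w hw H N hN hrich X hX hC hf
  set C := max ⌈C₀⌉₊ (max M (max ⌈4 * q / ε⌉₊ 1)) with hCdef
  have hC1 : C₀ ≤ C := (Nat.le_ceil _).trans (by exact_mod_cast le_max_left _ _)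
  have hC2 : M ≤ C := (le_max_left _ _).trans (le_max_right _ _)
  have hC3 : 4 * q / ε ≤ C := by
    refine (Nat.le_ceil _).trans ?_
    have : ⌈4 * q / ε⌉₊ ≤ C :=
      ((le_max_left _ _).trans (le_max_right _ _)).trans (le_max_right _ _)
    exact_mod_cast this
  have hC4 : 1 ≤ C := ((le_max_right _ _).trans (le_max_right _ _)).trans (le_max_right _ _)
  rcases isEmpty_or_nonempty V with hV | hV
  · exact hasModel_of_isEmpty w _ _ _
  have hn : 1 ≤ Fintype.card V := Fintype.card_pos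
  set m := (EE H X).card with hm
  have hmC : C ≤ m := le_trans (by nlinarith) hC
  -- `m ≤ |α|`
  have hNf : N.card ≤ Fintype.card α := card_le_univ N
  have hq2 : ((q - 2 : ℕ) : ℝ) = (q : ℝ) - 2 := by
    rw [Nat.cast_sub (by omega)]; norm_num
  have hD1 : ((D - 1 : ℕ) : ℝ) = (D : ℝ) - 1 := by
    rw [Nat.cast_sub (by omega)]; norm_num
  have hXR : ((q : ℝ) - 2) * D * m ≤ ((D : ℝ) - 1) * N.card := by
    have : (((q - 2) * D * m : ℕ) : ℝ) ≤ (((D - 1) * N.card : ℕ) : ℝ) := by exact_mod_cast hX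
    push_cast at this
    rw [hq2, hD1] at this
    exact this
  have hmf : m ≤ Fintype.card α := by
    have h1 : 1 * D * m ≤ (q - 2) * D * m := by
      apply Nat.mul_le_mul_right
      apply Nat.mul_le_mul_right
      omega
    have h2 : (D - 1) * N.card ≤ D * N.card := Nat.mul_le_mul_right _ (by omega)
    have h3 : D * m ≤ D * Fintype.card α := by nlinarith
    exact Nat.le_of_mul_le_mul_left h3 (by omega)
  have hfC : C ≤ Fintype.card α := hmC.trans hmf
  have hfR : (0 : ℝ) < Fintype.card α := by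
    have : 0 < Fintype.card α := by omega
    exact_mod_cast this
  have hNR : (Fintype.card α : ℝ) ≤ D * N.card := by exact_mod_cast hN
  -- chains
  have hNε : ε * Fintype.card α ≤ N.card := by
    have h1 : ε * (Fintype.card α : ℝ) ≤ ε * (D * N.card) :=
      mul_le_mul_of_nonneg_left hNR hεpos.le
    have h2 : ε * (D * (N.card : ℝ)) = 1 / (4 * D) * N.card := by
      rw [hε]; field_simp
    have h3 : 1 / (4 * (D : ℝ)) ≤ 1 := by
      rw [div_le_one (by positivity)]; linarith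
    have h4 : 1 / (4 * (D : ℝ)) * N.card ≤ 1 * N.card :=
      mul_le_mul_of_nonneg_right h3 (Nat.cast_nonneg _)
    linarith
  obtain ⟨V₁, hV₁N, hV₁, hch⟩ := hch α w hw N hNε hrich
  -- the cell
  have hceil : ⌈s₁ * Fintype.card α⌉₊ ≤ V₁.card := by
    apply Nat.ceil_le.2
    refine le_trans ?_ hV₁
    exact mul_le_mul_of_nonneg_right (min_le_left _ _) hfR.le
  obtain ⟨J, hJV₁, hJ⟩ := exists_subset_card_eq hceil
  have hJ1 : s₁ * Fintype.card α ≤ J.card := by rw [hJ]; exact Nat.le_ceil _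
  have hJ2 : (J.card : ℝ) ≤ s₁ * Fintype.card α + 1 := by
    rw [hJ]; exact (Nat.ceil_lt_add_one (by positivity)).le
  obtain ⟨β, hβ, B, hBJ, B', hB'B, hB, hB', hBβ, hB'β, h8, hcB, hcB', hnear⟩ :=
    htc α w J (hC2.trans hfC) hJ1
  have hBV₁ : B ⊆ V₁ := hBJ.trans hJV₁
  have hBsmall : 2 * (q : ℝ) * B.card ≤ ε * Fintype.card α := by
    have h1 : (B.card : ℝ) ≤ J.card := by exact_mod_cast card_le_card hBJ
    have h2 : s₁ * (Fintype.card α : ℝ) ≤ ε / (4 * q) * Fintype.card α :=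
      mul_le_mul_of_nonneg_right (min_le_right _ _) hfR.le
    have h3 : 4 * (q : ℝ) / ε ≤ Fintype.card α := hC3.trans (by exact_mod_cast hfC)
    rw [div_le_iff₀ hεpos] at h3
    have h4 : (B.card : ℝ) ≤ ε / (4 * q) * Fintype.card α + 1 := by linarith
    have h5 : 2 * (q : ℝ) * B.card ≤ 2 * q * (ε / (4 * q) * Fintype.card α + 1) :=
      mul_le_mul_of_nonneg_left h4 (by positivity)
    have h6 : 2 * (q : ℝ) * (ε / (4 * q) * Fintype.card α + 1)
        = ε * Fintype.card α / 2 + 2 * q := by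
      field_simp
      ring
    linarith
  obtain ⟨a, ha⟩ := exists_popular w B
  obtain ⟨d, hdB⟩ := id hB
  obtain ⟨CC, hCC1, hCC2, hCC3⟩ := hch B hBV₁ (by
    have : β₀ * (Fintype.card α : ℝ) ≤ β * Fintype.card α :=
      mul_le_mul_of_nonneg_right hβ hfR.le
    linarith) a ha d
  -- the number of chains
  have hCCc : (1 + 1 / (2 * (D : ℝ))) * m ≤ CC.card := by
    rw [hq2] at hCC3
    have e1 : 2 * ε * (Fintype.card α : ℝ) ≤ 1 / (2 * D) * N.card := by
      have h1 : 2 * ε * (Fintype.card α : ℝ) ≤ 2 * ε * (D * N.card) :=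
        mul_le_mul_of_nonneg_left hNR (by positivity)
      have h2 : 2 * ε * (D * (N.card : ℝ)) = 1 / (2 * D) * N.card := by
        rw [hε]; field_simp; norm_num
      linarith
    have e2 : (1 - 1 / (2 * (D : ℝ))) * N.card ≤ ((q : ℝ) - 2) * CC.card := by linarith
    have hp : (0 : ℝ) < (q : ℝ) - 2 := by linarith
    have e3 : ((D : ℝ) - 1) * ((1 - 1 / (2 * (D : ℝ))) * N.card)
        ≤ ((D : ℝ) - 1) * (((q : ℝ) - 2) * CC.card) :=
      mul_le_mul_of_nonneg_left e2 (by linarith)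
    have h7 : 0 ≤ 1 - 1 / (2 * (D : ℝ)) := by
      have : 1 / (2 * (D : ℝ)) ≤ 1 := by
        rw [div_le_one (by positivity)]; linarith
      linarith
    have e4 : (1 - 1 / (2 * (D : ℝ))) * (((q : ℝ) - 2) * D * m)
        ≤ (1 - 1 / (2 * (D : ℝ))) * (((D : ℝ) - 1) * N.card) :=
      mul_le_mul_of_nonneg_left hXR h7
    have e5 : ((q : ℝ) - 2) * ((D - 1 / 2) * m) ≤ ((q : ℝ) - 2) * (((D : ℝ) - 1) * CC.card) := by
      have h8 : (1 - 1 / (2 * (D : ℝ))) * (((q : ℝ) - 2) * D * m)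
          = ((q : ℝ) - 2) * ((D - 1 / 2) * m) := by
        field_simp
      linarith
    have e6 : ((D : ℝ) - 1 / 2) * m ≤ ((D : ℝ) - 1) * CC.card := le_of_mul_le_mul_left e5 hp
    have e7 : ((D : ℝ) - 1) * ((1 + 1 / (2 * (D : ℝ))) * m) ≤ ((D : ℝ) - 1 / 2) * m := by
      have h9 : ((D : ℝ) - 1) * (1 + 1 / (2 * (D : ℝ))) ≤ (D : ℝ) - 1 / 2 := by
        have h10 : ((D : ℝ) - 1) * (1 + 1 / (2 * (D : ℝ))) = D - 1 / 2 - 1 / (2 * D) := by
          field_simp; ring
        have h11 : 0 < 1 / (2 * (D : ℝ)) := by positivity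
        linarith
      have h12 := mul_le_mul_of_nonneg_right h9 (Nat.cast_nonneg (α := ℝ) m)
      linarith
    exact le_of_mul_le_mul_left (e7.trans e6) (by linarith)
  -- the model
  have : Nonempty α := ⟨d⟩
  have hcard := card_ind H X
  have hmodel := hmm α X w (ind H X) a d B B' β CC hw hβ hBβ hB'β hB'B hB' h8 hcB hcB' hnear
    (fun y => by exact_mod_cast ha y)
    (fun l hl => ⟨(hCC1 l hl).1, fun x hx => ((hCC1 l hl).2.2 x hx).2⟩) hCC2
    (by rw [hcard]; exact hCCc)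
    (by rw [hcard]; exact_mod_cast hf)
    (by
      rw [hcard, Fintype.card_coe]
      have h1 : (X.card : ℝ) ≤ Fintype.card V := by exact_mod_cast card_le_univ X
      have h2 : (C : ℝ) * Fintype.card V ≤ m := by exact_mod_cast hC
      have h3 : C₀ * (X.card : ℝ) ≤ C * X.card :=
        mul_le_mul_of_nonneg_right hC1 (Nat.cast_nonneg _)
      have h4 : (C : ℝ) * X.card ≤ C * Fintype.card V :=
        mul_le_mul_of_nonneg_left h1 (Nat.cast_nonneg _)
      linarith)
  refine transfer w H X N (hasModel_mono hmodel ?_)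
  intro x hx
  rw [mem_union, mem_biUnion] at hx
  rcases hx with hx | ⟨l, hl, hx⟩
  · exact hV₁N (hBV₁ hx)
  · exact ((hCC1 l hl).2.2 x (List.mem_toFinset.1 hx)).1

end MP0dbebe.CQ
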