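import Pool.Agent.Lib.MP_0dbebe_co.CQ.CellIneq

/-!
# CONNECT: two typical vertices are joined through two chains and a vertex of the cell

PROOF. `X₁ = {x ∈ C \ Fx : w s (h x) = a (h x)}` and `X₂ = {x ∈ C \ Fx : w s' (z x) = a (z x)}`
have at least `|C| / Θ - |C| / (4 Θ) = 3 |C| / (4 Θ)` elements. Choose `Y₁ ⊆ X₁` with
`|Y₁| = ⌈|C| / (4 Θ)⌉` and `Y₂ = X₂ \ Y₁`, `|Y₂| ≥ |C| / (4 Θ)` (`|C| / (4 Θ) ≥ 1`). Let
`L₁ = {t ∈ B : no x ∈ Y₁ has w t (z x) = a (z x)}`; `cell_lower_index` with `L = L₁`, index set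
`Y₁`, columns `z x`, says `0 ≥ |L₁| |Y₁| / Q - κ |B| sqrt (|α| |Y₁|)`, so
`|L₁| ≤ Q κ |B| sqrt (|α| / |Y₁|) ≤ Q κ |B| sqrt (4 Θ / γ) ≤ |B| / 8`
(`sqrt (4 Θ) ≤ 2 Θ` as `Θ ≥ 1`, and `16 Q κ Θ ≤ sqrt γ`). The same for
`L₂ = {t ∈ B : no x ∈ Y₂ has w t (h x) = a (h x)}` with `Y₂` and the columns `h x`. As
`|B \ Fs| ≥ |B| / 2 > |B| / 4` there is `t ∈ B \ Fs` outside `L₁` and `L₂`; it gives `x₁ ∈ Y₁` and
`x₂ ∈ Y₂`, different because `Y₁` and `Y₂` are disjoint.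
-/

set_option autoImplicit false

namespace MP0dbebe.CQ

open Finset
open scoped Classical

theorem Connect_sqrt {A c γ : ℝ} (hγ : 0 < γ) (hc : 0 ≤ c) (h : γ * A ≤ c) :
    Real.sqrt (A * c) ≤ c / Real.sqrt γ := by
  have hr : 0 < Real.sqrt γ := Real.sqrt_pos.2 hγ
  rw [Real.sqrt_le_iff]
  refine ⟨by positivity, ?_⟩
  rw [div_pow, Real.sq_sqrt hγ.le, le_div_iff₀ hγ]
  nlinarith

/-- Few vertices of the cell agree with no index of `Y`. -/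
theorem Connect_few {α ι : Type} [Fintype α] {q : ℕ} [NeZero q] {w : α → α → ZMod q} {κ : ℝ}
    (hκ : 0 ≤ κ) {B : Finset α} (hC : Cell w κ B) (hB : B.Nonempty)
    (Y : Finset ι) (g : ι → α) (hg : Set.InjOn g (Y : Set ι))
    (a : α → ZMod q) (Q γ Θ : ℝ) (hQ : 1 ≤ Q) (hγ : 0 < γ) (hΘ : 1 ≤ Θ)
    (hp : ∀ x ∈ Y, (B.card : ℝ) ≤ Q * cn w B (g x) (a (g x))) {C : ℝ}
    (hγC : γ * Fintype.card α ≤ C) (hY : C ≤ 4 * Θ * Y.card)
    (hsmall : 16 * Q * κ * Θ ≤ Real.sqrt γ) :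
    8 * (B.filter fun t => ∀ x ∈ Y, ¬ w t (g x) = a (g x)).card ≤ B.card := by
  have hQ0 : 0 < Q := by linarith
  have hΘ0 : 0 < Θ := by linarith
  have hr : 0 < Real.sqrt γ := Real.sqrt_pos.2 hγ
  have hb : (0 : ℝ) < B.card := by exact_mod_cast hB.card_pos
  have hα : (0 : ℝ) < Fintype.card α := by
    have : 0 < Fintype.card α := hB.card_pos.trans_le (Finset.card_le_univ B)
    exact_mod_cast this
  have hY0 : (0 : ℝ) < Y.card := by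
    have h1 : 0 < 4 * Θ * (Y.card : ℝ) := ((mul_pos hγ hα).trans_le hγC).trans_le hY
    exact pos_of_mul_pos_right h1 (by positivity)
  obtain ⟨L, hL⟩ : ∃ L : Finset α, L = B.filter fun t => ∀ x ∈ Y, ¬ w t (g x) = a (g x) :=
    ⟨_, rfl⟩
  rw [← hL]
  have hLB : L ⊆ B := by rw [hL]; exact Finset.filter_subset _ _
  have h1 := cell_lower_index hκ hC hB L hLB Y g hg a Q hQ0 hp
  have h2 : ∑ x ∈ Y, ((L.filter fun s => w s (g x) = a (g x)).card : ℝ) = 0 := by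
    refine Finset.sum_eq_zero fun x hx => ?_
    have h3 : (L.filter fun s => w s (g x) = a (g x)) = ∅ := by
      rw [Finset.filter_eq_empty_iff]
      intro t ht
      rw [hL] at ht
      exact (Finset.mem_filter.1 ht).2 x hx
    rw [h3, Finset.card_empty, Nat.cast_zero]
  rw [h2] at h1
  have hγ' : 0 < γ / (4 * Θ) := by positivity
  have h3 : Real.sqrt (Fintype.card α * Y.card) ≤ Y.card / Real.sqrt (γ / (4 * Θ)) := by
    refine Connect_sqrt hγ' hY0.le ?_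
    rw [div_mul_eq_mul_div, div_le_iff₀ (by positivity)]
    linarith
  have h4 : Real.sqrt γ / (2 * Θ) ≤ Real.sqrt (γ / (4 * Θ)) := by
    refine Real.le_sqrt_of_sq_le ?_
    rw [div_pow, Real.sq_sqrt hγ.le, div_le_div_iff_of_pos_left hγ (by positivity)
      (by positivity)]
    nlinarith
  have h5 : 0 < Real.sqrt γ / (2 * Θ) := by positivity
  have h6 : (Y.card : ℝ) / Real.sqrt (γ / (4 * Θ)) ≤ Y.card / (Real.sqrt γ / (2 * Θ)) :=
    div_le_div_of_nonneg_left hY0.le h5 h4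
  have h7 : κ * B.card * Real.sqrt (Fintype.card α * Y.card) ≤
      κ * B.card * (Y.card / (Real.sqrt γ / (2 * Θ))) :=
    mul_le_mul_of_nonneg_left (h3.trans h6) (by positivity)
  have h8 : κ * B.card * (Y.card / (Real.sqrt γ / (2 * Θ))) ≤ B.card / (8 * Q) * Y.card := by
    have h9 : κ * (2 * Θ) / Real.sqrt γ ≤ 1 / (8 * Q) := by
      rw [div_le_div_iff₀ hr (by positivity)]
      linarith
    calc κ * B.card * (Y.card / (Real.sqrt γ / (2 * Θ)))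
        = κ * (2 * Θ) / Real.sqrt γ * (B.card * Y.card) := by field_simp
      _ ≤ 1 / (8 * Q) * (B.card * Y.card) := mul_le_mul_of_nonneg_right h9 (by positivity)
      _ = B.card / (8 * Q) * Y.card := by ring
  have h9 : (L.card : ℝ) / Q * Y.card ≤ B.card / (8 * Q) * Y.card := by
    calc (L.card : ℝ) / Q * Y.card = (L.card : ℝ) * Y.card / Q := by ring
      _ ≤ B.card / (8 * Q) * Y.card := by linarith
  have h10 := le_of_mul_le_mul_right h9 hY0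
  rw [div_le_div_iff₀ (by positivity) (by positivity)] at h10
  have h11 : (8 : ℝ) * L.card ≤ B.card := by nlinarith
  exact_mod_cast h11

theorem connect {α ι : Type} [Fintype α] {q : ℕ} [NeZero q] {w : α → α → ZMod q} {κ : ℝ}
    (hκ : 0 ≤ κ) {B : Finset α} (hC : Cell w κ B) (hB : B.Nonempty)
    (C : Finset ι) (h z : ι → α) (hh : Set.InjOn h (C : Set ι)) (hz : Set.InjOn z (C : Set ι))
    (a : α → ZMod q) (Q γ Θ : ℝ) (hQ : 1 ≤ Q) (hγ : 0 < γ) (hΘ : 1 ≤ Θ)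
    (hph : ∀ x ∈ C, (B.card : ℝ) ≤ Q * cn w B (h x) (a (h x)))
    (hpz : ∀ x ∈ C, (B.card : ℝ) ≤ Q * cn w B (z x) (a (z x)))
    (hγC : γ * Fintype.card α ≤ C.card) (hC4 : 4 * Θ ≤ C.card)
    (hsmall : 16 * Q * κ * Θ ≤ Real.sqrt γ) (s s' : α)
    (hs : (C.card : ℝ) ≤ Θ * (C.filter fun x => w s (h x) = a (h x)).card)
    (hs' : (C.card : ℝ) ≤ Θ * (C.filter fun x => w s' (z x) = a (z x)).card)
    (Fx : Finset ι) (hFx : 4 * Θ * Fx.card ≤ C.card) (Fs : Finset α)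
    (hFs : 2 * Fs.card ≤ B.card) :
    ∃ x₁ ∈ C, ∃ x₂ ∈ C, ∃ t ∈ B, x₁ ∉ Fx ∧ x₂ ∉ Fx ∧ x₁ ≠ x₂ ∧ t ∉ Fs ∧
      Fit w a h z s t x₁ ∧ Fit w a h z t s' x₂ := by
  have hΘ0 : 0 < Θ := by linarith
  have hc0 : (0 : ℝ) ≤ C.card := Nat.cast_nonneg _
  obtain ⟨X₁, hX₁⟩ : ∃ X₁ : Finset ι,
      X₁ = (C.filter fun x => w s (h x) = a (h x)) \ Fx := ⟨_, rfl⟩
  obtain ⟨X₂, hX₂⟩ : ∃ X₂ : Finset ι,
      X₂ = (C.filter fun x => w s' (z x) = a (z x)) \ Fx := ⟨_, rfl⟩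
  have hX₁c : 3 * (C.card : ℝ) ≤ 4 * Θ * X₁.card := by
    have h1 : ((C.filter fun x => w s (h x) = a (h x)).card : ℝ) ≤ X₁.card + Fx.card := by
      rw [hX₁]
      have h2 := Finset.card_le_card_sdiff_add_card
        (s := C.filter fun x => w s (h x) = a (h x)) (t := Fx)
      exact_mod_cast h2
    have h2 := mul_le_mul_of_nonneg_left h1 (show 0 ≤ 4 * Θ by positivity)
    linarith
  have hX₂c : 3 * (C.card : ℝ) ≤ 4 * Θ * X₂.card := by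
    have h1 : ((C.filter fun x => w s' (z x) = a (z x)).card : ℝ) ≤ X₂.card + Fx.card := by
      rw [hX₂]
      have h2 := Finset.card_le_card_sdiff_add_card
        (s := C.filter fun x => w s' (z x) = a (z x)) (t := Fx)
      exact_mod_cast h2
    have h2 := mul_le_mul_of_nonneg_left h1 (show 0 ≤ 4 * Θ by positivity)
    linarith
  have hone : 1 ≤ (C.card : ℝ) / (4 * Θ) := by
    rw [le_div_iff₀ (by positivity)]
    linarith
  have hceil := Nat.le_ceil ((C.card : ℝ) / (4 * Θ))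
  have hceil2 := Nat.ceil_lt_add_one (show 0 ≤ (C.card : ℝ) / (4 * Θ) by linarith)
  have hdiv : 4 * Θ * ((C.card : ℝ) / (4 * Θ)) = C.card := by field_simp
  have hle : ⌈(C.card : ℝ) / (4 * Θ)⌉₊ ≤ X₁.card := by
    have h1 : (⌈(C.card : ℝ) / (4 * Θ)⌉₊ : ℝ) ≤ X₁.card := by
      have h2 : 4 * Θ * (⌈(C.card : ℝ) / (4 * Θ)⌉₊ : ℝ) ≤ 4 * Θ * X₁.card := by
        have h3 : 4 * Θ * (⌈(C.card : ℝ) / (4 * Θ)⌉₊ : ℝ) ≤
            4 * Θ * ((C.card : ℝ) / (4 * Θ) + (C.card : ℝ) / (4 * Θ)) :=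
          mul_le_mul_of_nonneg_left (by linarith) (by positivity)
        linarith
      exact le_of_mul_le_mul_left h2 (by positivity)
    exact_mod_cast h1
  obtain ⟨Y₁, hY₁X, hY₁c⟩ := Finset.exists_subset_card_eq hle
  obtain ⟨Y₂, hY₂⟩ : ∃ Y₂ : Finset ι, Y₂ = X₂ \ Y₁ := ⟨_, rfl⟩
  have hY₁c' : (C.card : ℝ) ≤ 4 * Θ * Y₁.card := by
    rw [hY₁c]
    have h3 := mul_le_mul_of_nonneg_left hceil (show 0 ≤ 4 * Θ by positivity)
    linarith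
  have hY₁up : 4 * Θ * (Y₁.card : ℝ) ≤ 2 * C.card := by
    rw [hY₁c]
    have h3 : 4 * Θ * (⌈(C.card : ℝ) / (4 * Θ)⌉₊ : ℝ) ≤
        4 * Θ * ((C.card : ℝ) / (4 * Θ) + (C.card : ℝ) / (4 * Θ)) :=
      mul_le_mul_of_nonneg_left (by linarith) (by positivity)
    linarith
  have hY₂c' : (C.card : ℝ) ≤ 4 * Θ * Y₂.card := by
    have h1 : (X₂.card : ℝ) ≤ Y₂.card + Y₁.card := by
      rw [hY₂]
      have h2 := Finset.card_le_card_sdiff_add_card (s := X₂) (t := Y₁)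
      exact_mod_cast h2
    have h2 := mul_le_mul_of_nonneg_left h1 (show 0 ≤ 4 * Θ by positivity)
    linarith
  have hY₁C : Y₁ ⊆ C := fun x hx => by
    have h1 := hY₁X hx
    rw [hX₁] at h1
    exact (Finset.mem_filter.1 (Finset.mem_sdiff.1 h1).1).1
  have hY₂C : Y₂ ⊆ C := fun x hx => by
    rw [hY₂] at hx
    have h1 := (Finset.mem_sdiff.1 hx).1
    rw [hX₂] at h1
    exact (Finset.mem_filter.1 (Finset.mem_sdiff.1 h1).1).1
  have hL₁ := Connect_few hκ hC hB Y₁ z (hz.mono (by exact_mod_cast hY₁C)) a Q γ Θ hQ hγ hΘ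
    (fun x hx => hpz x (hY₁C hx)) hγC hY₁c' hsmall
  have hL₂ := Connect_few hκ hC hB Y₂ h (hh.mono (by exact_mod_cast hY₂C)) a Q γ Θ hQ hγ hΘ
    (fun x hx => hph x (hY₂C hx)) hγC hY₂c' hsmall
  obtain ⟨L₁, hL₁d⟩ : ∃ L₁ : Finset α,
      L₁ = B.filter fun t => ∀ x ∈ Y₁, ¬ w t (z x) = a (z x) := ⟨_, rfl⟩
  obtain ⟨L₂, hL₂d⟩ : ∃ L₂ : Finset α,
      L₂ = B.filter fun t => ∀ x ∈ Y₂, ¬ w t (h x) = a (h x) := ⟨_, rfl⟩
  rw [← hL₁d] at hL₁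
  rw [← hL₂d] at hL₂
  have hex : ∃ t ∈ B, t ∉ Fs ∧ t ∉ L₁ ∧ t ∉ L₂ := by
    by_contra hcon
    push Not at hcon
    have h1 : B ⊆ Fs ∪ (L₁ ∪ L₂) := by
      intro t ht
      rw [Finset.mem_union, Finset.mem_union]
      by_contra h2
      push Not at h2
      exact h2.2.2 (hcon t ht h2.1 h2.2.1)
    have h2 := Finset.card_le_card h1
    have h3 := Finset.card_union_le Fs (L₁ ∪ L₂)
    have h4 := Finset.card_union_le L₁ L₂
    have h5 := hB.card_pos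
    omega
  obtain ⟨t, htB, htF, ht1, ht2⟩ := hex
  have e1 : ∃ x ∈ Y₁, w t (z x) = a (z x) := by
    by_contra hcon
    push Not at hcon
    exact ht1 (by rw [hL₁d]; exact Finset.mem_filter.2 ⟨htB, hcon⟩)
  have e2 : ∃ x ∈ Y₂, w t (h x) = a (h x) := by
    by_contra hcon
    push Not at hcon
    exact ht2 (by rw [hL₂d]; exact Finset.mem_filter.2 ⟨htB, hcon⟩)
  obtain ⟨x₁, hx₁, e1⟩ := e1
  obtain ⟨x₂, hx₂, e2⟩ := e2
  have m1 := hY₁X hx₁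
  rw [hX₁, Finset.mem_sdiff, Finset.mem_filter] at m1
  have m2 := hx₂
  rw [hY₂, Finset.mem_sdiff, hX₂, Finset.mem_sdiff, Finset.mem_filter] at m2
  exact ⟨x₁, hY₁C hx₁, x₂, hY₂C hx₂, t, htB, m1.2, m2.1.2,
    fun he => m2.2 (he ▸ hx₁), htF, ⟨m1.1.2, e1⟩, ⟨e2, m2.1.1.2⟩⟩

end MP0dbebe.CQ
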