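import Mathlib

/-!
# DEFHALL: Hall's theorem with a defect

PROOF. Claim: for every `F ⊆ A`, `|F| ≤ |N F| + D` where `N F` is the set of `x ∈ X` related to
some element of `F`. Otherwise `Y = X \ N F` has `|Y| ≥ |X| - |F| ≥ t` elements (`|N F| < |F|`,
`|F| ≤ |A|`) and all elements of `F` miss `Y`, so `|F| ≤ D`, a contradiction. Then apply Hall's
theorem (`Finset.all_card_le_biUnion_card_iff_exists_injective`) to the map sending `e ∈ A` to
(its neighbours in `X`) together with `D` dummy elements (type `ι ⊕ Fin D`), and let `A'` be the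
set of the `e` which get a neighbour in `X`.
-/

set_option autoImplicit false

namespace MP0dbebe.CQ

open Finset
open scoped Classical

theorem def_hall {ε ι : Type} [Nonempty ι] (A : Finset ε) (X : Finset ι) (Ag : ε → ι → Prop)
    (D t : ℕ) (hAX : A.card + t ≤ X.card)
    (h : ∀ Y ⊆ X, t ≤ Y.card → (A.filter fun e => ∀ y ∈ Y, ¬ Ag e y).card ≤ D) :
    ∃ A' ⊆ A, (A \ A').card ≤ D ∧ ∃ ψ : ε → ι, Set.InjOn ψ (A' : Set ε) ∧
      ∀ e ∈ A', ψ e ∈ X ∧ Ag e (ψ e) := by
  -- the Hall condition with a defect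
  have hall : ∀ F ⊆ A, F.card ≤ (F.biUnion fun e => X.filter fun x => Ag e x).card + D := by
    intro F hF
    by_contra hlt
    push Not at hlt
    set NF := F.biUnion fun e => X.filter fun x => Ag e x with hNF
    have hNX : NF ⊆ X := by
      intro x hx
      obtain ⟨e, -, he⟩ := Finset.mem_biUnion.1 hx
      exact (Finset.mem_filter.1 he).1
    have h1 : (X \ NF).card = X.card - NF.card := Finset.card_sdiff_of_subset hNX
    have h2 : F.card ≤ A.card := Finset.card_le_card hF
    have h3 : t ≤ (X \ NF).card := by omega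
    have h4 := h (X \ NF) Finset.sdiff_subset h3
    have h5 : F ⊆ A.filter fun e => ∀ y ∈ X \ NF, ¬ Ag e y := by
      intro e he
      refine Finset.mem_filter.2 ⟨hF he, fun y hy hA => ?_⟩
      obtain ⟨hyX, hyN⟩ := Finset.mem_sdiff.1 hy
      exact hyN (Finset.mem_biUnion.2 ⟨e, he, Finset.mem_filter.2 ⟨hyX, hA⟩⟩)
    have h6 := Finset.card_le_card h5
    omega
  -- the extended neighbourhoods
  set T : ↥A → Finset (ι ⊕ Fin D) := fun e =>
    (X.filter fun x => Ag e.1 x).disjSum (Finset.univ : Finset (Fin D)) with hT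
  have hT1 : ∀ s : Finset ↥A, s.card ≤ (s.biUnion T).card := by
    intro s
    rcases s.eq_empty_or_nonempty with rfl | ⟨e₀, he₀⟩
    · simp
    set F : Finset ε := s.map (Function.Embedding.subtype _) with hF
    have h1 : F ⊆ A := by
      intro e he
      obtain ⟨e', -, rfl⟩ := Finset.mem_map.1 he
      exact e'.2
    have h2 := hall F h1
    have h3 : F.card = s.card := Finset.card_map _
    have h4 : ((F.biUnion fun e => X.filter fun x => Ag e x).disjSum
        (Finset.univ : Finset (Fin D))) ⊆ s.biUnion T := by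
      intro z hz
      rcases z with x | i
      · rw [Finset.inl_mem_disjSum] at hz
        obtain ⟨e, he, hx⟩ := Finset.mem_biUnion.1 hz
        obtain ⟨e', he', rfl⟩ := Finset.mem_map.1 he
        exact Finset.mem_biUnion.2 ⟨e', he', Finset.inl_mem_disjSum.2 hx⟩
      · exact Finset.mem_biUnion.2 ⟨e₀, he₀, Finset.inr_mem_disjSum.2 (Finset.mem_univ i)⟩
    have h5 := Finset.card_le_card h4
    rw [Finset.card_disjSum, Finset.card_univ, Fintype.card_fin] at h5
    omega
  obtain ⟨f, hf, hfT⟩ := (Finset.all_card_le_biUnion_card_iff_exists_injective T).1 hT1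
  have hmem : ∀ (e : ε) (he : e ∈ A) (x : ι), f ⟨e, he⟩ = Sum.inl x → x ∈ X ∧ Ag e x := by
    intro e he x hx
    have h1 := hfT ⟨e, he⟩
    rw [hx] at h1
    exact Finset.mem_filter.1 (Finset.inl_mem_disjSum.1 h1)
  set x₀ : ι := Classical.arbitrary ι with hx₀
  set g : ε → ι ⊕ Fin D := fun e => if he : e ∈ A then f ⟨e, he⟩ else Sum.inl x₀ with hg
  have hgA : ∀ (e : ε) (he : e ∈ A), g e = f ⟨e, he⟩ := fun e he => by
    rw [hg]
    simp only [he, dif_pos]
  refine ⟨A.filter fun e => ∃ x, g e = Sum.inl x, Finset.filter_subset _ _, ?_,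
    fun e => (g e).elim id (fun _ => x₀), ?_, ?_⟩
  · have h1 : (Finset.univ.map (Function.Embedding.inr : Fin D ↪ ι ⊕ Fin D)).card = D := by
      rw [Finset.card_map, Finset.card_univ, Fintype.card_fin]
    refine le_trans (Finset.card_le_card_of_injOn g
      (t := Finset.univ.map (Function.Embedding.inr : Fin D ↪ ι ⊕ Fin D)) ?_ ?_) h1.le
    · intro e he
      obtain ⟨heA, he2⟩ := Finset.mem_sdiff.1 (Finset.mem_coe.1 he)
      rw [Finset.mem_coe, Finset.mem_map]
      rcases hge : g e with x | i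
      · exact absurd (Finset.mem_filter.2 ⟨heA, x, hge⟩) he2
      · exact ⟨i, Finset.mem_univ _, rfl⟩
    · intro e he e' he' hee
      obtain ⟨heA, -⟩ := Finset.mem_sdiff.1 (Finset.mem_coe.1 he)
      obtain ⟨heA', -⟩ := Finset.mem_sdiff.1 (Finset.mem_coe.1 he')
      rw [hgA e heA, hgA e' heA'] at hee
      exact congrArg Subtype.val (hf hee)
  · intro e he e' he' hee
    obtain ⟨heA, x, hx⟩ := Finset.mem_filter.1 (Finset.mem_coe.1 he)
    obtain ⟨heA', x', hx'⟩ := Finset.mem_filter.1 (Finset.mem_coe.1 he')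
    simp only [hx, hx', Sum.elim_inl, id] at hee
    have h1 : g e = g e' := by rw [hx, hx', hee]
    rw [hgA e heA, hgA e' heA'] at h1
    exact congrArg Subtype.val (hf h1)
  · intro e he
    obtain ⟨heA, x, hx⟩ := Finset.mem_filter.1 he
    simp only [hx, Sum.elim_inl, id]
    rw [hgA e heA] at hx
    exact hmem e heA x hx

end MP0dbebe.CQ
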