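import Pool.Agent.Lib.MP_0dbebe_co.CQ.Connect

/-!
# DROPPED: the edges without a chain are served through two reserved chains and a clone

PROOF. Induction on `Dr` (`Finset.induction_on`), keeping as additional statement that the lists
chosen so far use chains from a set `Fx ⊆ C` with `|Fx| ≤ 2 |Dr|` and connectors from a set
`Fc ⊆ B \ B'` with `|Fc| ≤ |Dr|` (every element of `I e` lies in `Fc` or in a chain of `Fx`). For a
new edge `e = s(u, v)` apply `connect` (index type `List α`, `h = hd d`, `z = lt d`, `Q = q`,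
`s = f u`, `s' = f v`, `Fs = B' ∪ Fc`, `2 |Fs| ≤ |B| / 4 + |B| / 2`): chains `l₁ ≠ l₂` and
`t ∈ B \ B'`. Put `I e = l₁ ++ t :: l₂`. It is nodup (chains are disjoint and avoid `B`),
and `pw w (f u :: (l₁ ++ t :: l₂ ++ [f v])) = w (f u) (hd l₁) + pw w l₁ + w (lt l₁) t +
w t (hd l₂) + pw w l₂ + w (lt l₂) (f v) = (a (hd l₁) + pw w l₁ + a (lt l₁)) +
(a (hd l₂) + pw w l₂ + a (lt l₂)) = 0` by symmetry of `w` and `Fit`.
`pw_glue` (weight of `s :: (l ++ [s'])` for a nonempty `l`) is a separate lemma which is also used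
in the final assembly. Heads (and lasts) of different chains are different because the chains are
nonempty and disjoint.
-/

set_option autoImplicit false

namespace MP0dbebe.CQ

open Finset
open scoped Classical

theorem Dropped_append {α : Type} {q : ℕ} (w : α → α → ZMod q) (d : α) (l m : List α)
    (hl : l ≠ []) (hm : m ≠ []) :
    pw w (l ++ m) = pw w l + w (lt d l) (hd d m) + pw w m := by
  induction l with
  | nil => exact absurd rfl hl
  | cons x t ih =>
    cases t with
    | nil =>
      cases m with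
      | nil => exact absurd rfl hm
      | cons y m' =>
        change pw w (x :: y :: m') = pw w [x] + w x y + pw w (y :: m')
        rw [pw_cons_cons, pw_single]
        ring
    | cons y t' =>
      change pw w (x :: y :: (t' ++ m)) = pw w (x :: y :: t') + w (lt d (y :: t')) (hd d m) + pw w m
      rw [pw_cons_cons, pw_cons_cons]
      have h1 := ih (List.cons_ne_nil y t')
      change pw w (y :: (t' ++ m)) = _ at h1
      rw [h1]
      ring

theorem Dropped_hd_append {α : Type} (d : α) (l m : List α) (hl : l ≠ []) :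
    hd d (l ++ m) = hd d l := by
  cases l with
  | nil => exact absurd rfl hl
  | cons x t => rfl

theorem Dropped_lt_append {α : Type} (d : α) (l m : List α) (hm : m ≠ []) :
    lt d (l ++ m) = lt d m := by
  unfold lt
  rw [List.getLastD_eq_getLast?, List.getLastD_eq_getLast?, List.getLast?_append_of_ne_nil _ hm]

theorem Dropped_hd_mem {α : Type} (d : α) {l : List α} (hl : l ≠ []) : hd d l ∈ l := by
  cases l with
  | nil => exact absurd rfl hl
  | cons x t => exact List.mem_cons_self

theorem Dropped_lt_mem {α : Type} (d : α) {l : List α} (hl : l ≠ []) : lt d l ∈ l := by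
  cases l with
  | nil => exact absurd rfl hl
  | cons x t => exact List.getLast_mem (List.cons_ne_nil x t)

theorem pw_glue {α : Type} {q : ℕ} (w : α → α → ZMod q) (d s s' : α) (l : List α) (hl : l ≠ []) :
    pw w (s :: (l ++ [s'])) = w s (hd d l) + pw w l + w (lt d l) s' := by
  have h1 := Dropped_append w d [s] (l ++ [s']) (List.cons_ne_nil _ _) (by simp)
  have h2 := Dropped_append w d l [s'] hl (List.cons_ne_nil _ _)
  change pw w (s :: (l ++ [s'])) = pw w [s] + w s (hd d (l ++ [s'])) + pw w (l ++ [s']) at h1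
  change pw w (l ++ [s']) = pw w l + w (lt d l) s' + pw w [s'] at h2
  rw [h1, h2, pw_single, pw_single, Dropped_hd_append d l _ hl]
  ring

theorem injOn_hd {α : Type} (d : α) (C : Finset (List α)) (hne : ∀ l ∈ C, l ≠ [])
    (hdis : ∀ l ∈ C, ∀ l' ∈ C, l ≠ l' → ∀ x ∈ l, x ∉ l') : Set.InjOn (hd d) (C : Set (List α)) := by
  intro l hl l' hl' h
  by_contra hll
  have hl1 := mem_coe.1 hl
  have hl2 := mem_coe.1 hl'
  refine hdis l hl1 l' hl2 hll _ (Dropped_hd_mem d (hne l hl1)) ?_
  rw [h]
  exact Dropped_hd_mem d (hne l' hl2)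

theorem injOn_lt {α : Type} (d : α) (C : Finset (List α)) (hne : ∀ l ∈ C, l ≠ [])
    (hdis : ∀ l ∈ C, ∀ l' ∈ C, l ≠ l' → ∀ x ∈ l, x ∉ l') : Set.InjOn (lt d) (C : Set (List α)) := by
  intro l hl l' hl' h
  by_contra hll
  have hl1 := mem_coe.1 hl
  have hl2 := mem_coe.1 hl'
  refine hdis l hl1 l' hl2 hll _ (Dropped_lt_mem d (hne l hl1)) ?_
  rw [h]
  exact Dropped_lt_mem d (hne l' hl2)

theorem dropped {α W : Type} [Fintype α] [Fintype W] {q : ℕ} [NeZero q] {w : α → α → ZMod q}
    (hw : ∀ x y, w x y = w y x) {κ : ℝ} (hκ : 0 ≤ κ) {B B' : Finset α} (hB'B : B' ⊆ B)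
    (h8 : 8 * B'.card ≤ B.card) (hC : Cell w κ B) (hB : B.Nonempty) (a : α → ZMod q) (d : α)
    (hp : ∀ y, (B.card : ℝ) ≤ q * cn w B y (a y)) (C : Finset (List α))
    (hch : ∀ l ∈ C, IsChain w a d l ∧ ∀ x ∈ l, x ∉ B)
    (hdis : ∀ l ∈ C, ∀ l' ∈ C, l ≠ l' → ∀ x ∈ l, x ∉ l') (γ Θ : ℝ) (hγ : 0 < γ) (hΘ : 1 ≤ Θ)
    (hγC : γ * Fintype.card α ≤ C.card) (hC4 : 4 * Θ ≤ C.card)
    (hsmall : 16 * q * κ * Θ ≤ Real.sqrt γ) (f : W → α)
    (htyp : ∀ u, (C.card : ℝ) ≤ Θ * (C.filter fun l => w (f u) (hd d l) = a (hd d l)).card ∧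
      (C.card : ℝ) ≤ Θ * (C.filter fun l => w (f u) (lt d l) = a (lt d l)).card)
    (Dr : Finset (Sym2 W)) (hD : 8 * Θ * Dr.card ≤ C.card) (hD2 : 4 * Dr.card ≤ B.card) :
    ∃ I : Sym2 W → List α, (∀ e ∈ Dr, (I e).Nodup ∧
        (∀ x ∈ I e, x ∈ B \ B' ∨ ∃ l ∈ C, x ∈ l) ∧
        ∃ u v, e = s(u, v) ∧ pw w (f u :: (I e ++ [f v])) = 0) ∧
      (∀ e ∈ Dr, ∀ e' ∈ Dr, e ≠ e' → ∀ x ∈ I e, x ∉ I e') := by
  have hne : ∀ l ∈ C, l ≠ [] := fun l hl => (hch l hl).1.1
  have hq1 : (1 : ℝ) ≤ q := by
    have : 1 ≤ q := Nat.one_le_iff_ne_zero.2 (NeZero.ne q)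
    exact_mod_cast this
  have hΘ0 : 0 < Θ := by linarith
  suffices H : ∃ (I : Sym2 W → List α) (Fx : Finset (List α)) (Fc : Finset α), Fx ⊆ C ∧
      Fc ⊆ B \ B' ∧ Fx.card ≤ 2 * Dr.card ∧ Fc.card ≤ Dr.card ∧
      (∀ e ∈ Dr, (I e).Nodup ∧ (∀ x ∈ I e, x ∈ Fc ∨ ∃ l ∈ Fx, x ∈ l) ∧
        ∃ u v, e = s(u, v) ∧ pw w (f u :: (I e ++ [f v])) = 0) ∧
      (∀ e ∈ Dr, ∀ e' ∈ Dr, e ≠ e' → ∀ x ∈ I e, x ∉ I e') by
    obtain ⟨I, Fx, Fc, hFx, hFc, -, -, h1, h2⟩ := H
    refine ⟨I, fun e he => ⟨(h1 e he).1, fun x hx => ?_, (h1 e he).2.2⟩, h2⟩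
    rcases (h1 e he).2.1 x hx with h3 | ⟨l, hl, h3⟩
    · exact Or.inl (hFc h3)
    · exact Or.inr ⟨l, hFx hl, h3⟩
  induction Dr using Finset.induction_on with
  | empty =>
    refine ⟨fun _ => [], ∅, ∅, empty_subset _, empty_subset _, by simp, by simp, ?_, ?_⟩
    · intro e he
      exact absurd he (notMem_empty e)
    · intro e he
      exact absurd he (notMem_empty e)
  | insert e Dr heD ih =>
    rw [card_insert_of_notMem heD] at hD hD2
    push_cast at hD
    have hDn : (0 : ℝ) ≤ Dr.card := Nat.cast_nonneg _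
    obtain ⟨I, Fx, Fc, hFx, hFc, hFx2, hFc2, h1, h2⟩ := ih (by nlinarith) (by omega)
    obtain ⟨u, v, huv⟩ : ∃ u v, e = s(u, v) := by
      induction e using Sym2.ind with
      | _ u v => exact ⟨u, v, rfl⟩
    have hFxR : (Fx.card : ℝ) ≤ 2 * Dr.card := by exact_mod_cast hFx2
    obtain ⟨l₁, hl₁, l₂, hl₂, t, ht, hl₁F, hl₂F, hl12, htF, hf1, hf2⟩ :=
      connect hκ hC hB C (hd d) (lt d) (injOn_hd d C hne hdis) (injOn_lt d C hne hdis) a (q : ℝ) γ Θ
        hq1 hγ hΘ (fun x _ => hp _) (fun x _ => hp _) hγC hC4 hsmall (f u) (f v) (htyp u).1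
        (htyp v).2 Fx (by
          have : 4 * Θ * Fx.card ≤ 4 * Θ * (2 * Dr.card) :=
            mul_le_mul_of_nonneg_left hFxR (by positivity)
          nlinarith) (B' ∪ Fc) (by
          have := card_union_le B' Fc
          omega)
    have ht1 : t ∉ B' := fun h => htF (mem_union_left _ h)
    have ht2 : t ∉ Fc := fun h => htF (mem_union_right _ h)
    have hB1 : ∀ l ∈ C, t ∉ l := fun l hl h => (hch l hl).2 t h ht
    have hFcB : ∀ x ∈ Fc, x ∈ B := fun x hx => (mem_sdiff.1 (hFc hx)).1
    refine ⟨Function.update I e (l₁ ++ t :: l₂), insert l₁ (insert l₂ Fx), insert t Fc, ?_, ?_, ?_,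
      ?_, ?_, ?_⟩
    · intro l hl
      rcases mem_insert.1 hl with rfl | hl
      · exact hl₁
      · rcases mem_insert.1 hl with rfl | hl
        · exact hl₂
        · exact hFx hl
    · intro x hx
      rcases mem_insert.1 hx with rfl | hx
      · exact mem_sdiff.2 ⟨ht, ht1⟩
      · exact hFc hx
    · rw [card_insert_of_notMem heD]
      have e1 := card_insert_le l₁ (insert l₂ Fx)
      have e2 := card_insert_le l₂ Fx
      omega
    · rw [card_insert_of_notMem heD]
      have e1 := card_insert_le t Fc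
      omega
    · intro e' he'
      by_cases hee : e' = e
      · subst hee
        rw [Function.update_self]
        refine ⟨?_, ?_, u, v, huv, ?_⟩
        · rw [List.nodup_append]
          refine ⟨(hch l₁ hl₁).1.2.1, ?_, ?_⟩
          · rw [List.nodup_cons]
            exact ⟨hB1 l₂ hl₂, (hch l₂ hl₂).1.2.1⟩
          · intro x hx y hy hxy
            rw [← hxy] at hy
            rcases List.mem_cons.1 hy with rfl | hy
            · exact hB1 l₁ hl₁ hx
            · exact hdis l₁ hl₁ l₂ hl₂ hl12 x hx hy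
        · intro x hx
          rcases List.mem_append.1 hx with hx | hx
          · exact Or.inr ⟨l₁, mem_insert_self _ _, hx⟩
          · rcases List.mem_cons.1 hx with rfl | hx
            · exact Or.inl (mem_insert_self _ _)
            · exact Or.inr ⟨l₂, mem_insert_of_mem (mem_insert_self _ _), hx⟩
        · have g1 := (hch l₁ hl₁).1.2.2
          have g2 := (hch l₂ hl₂).1.2.2
          obtain ⟨f1, f2⟩ := hf1
          obtain ⟨f3, f4⟩ := hf2
          rw [pw_glue w d _ _ _ (by simp), Dropped_hd_append d l₁ _ (hne l₁ hl₁),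
            Dropped_lt_append d l₁ _ (List.cons_ne_nil _ _),
            Dropped_append w d l₁ (t :: l₂) (hne l₁ hl₁) (List.cons_ne_nil _ _)]
          have e1 : hd d (t :: l₂) = t := rfl
          have e2 : lt d (t :: l₂) = lt d l₂ :=
            Dropped_lt_append d [t] l₂ (hne l₂ hl₂)
          have e3 : pw w (t :: l₂) = w t (hd d l₂) + pw w l₂ := by
            have := Dropped_append w d [t] l₂ (List.cons_ne_nil _ _) (hne l₂ hl₂)
            change pw w (t :: l₂) = pw w [t] + w t (hd d l₂) + pw w l₂ at this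
            rw [this, pw_single]
            ring
          rw [e1, e2, e3, f1, hw (lt d l₁) t, f2, f3, hw (lt d l₂) (f v), f4]
          have e4 : a (hd d l₁) + (pw w l₁ + a (lt d l₁) + (a (hd d l₂) + pw w l₂)) + a (lt d l₂)
              = (a (hd d l₁) + pw w l₁ + a (lt d l₁)) + (a (hd d l₂) + pw w l₂ + a (lt d l₂)) := by
            ring
          rw [e4, g1, g2, add_zero]
      · rw [Function.update_of_ne hee]
        have he'D : e' ∈ Dr := by
          rcases mem_insert.1 he' with h | h
          · exact absurd h hee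
          · exact h
        refine ⟨(h1 e' he'D).1, fun x hx => ?_, (h1 e' he'D).2.2⟩
        rcases (h1 e' he'D).2.1 x hx with h3 | ⟨l, hl, h3⟩
        · exact Or.inl (mem_insert_of_mem h3)
        · exact Or.inr ⟨l, mem_insert_of_mem (mem_insert_of_mem hl), h3⟩
    · have key : ∀ e' ∈ Dr, ∀ x ∈ l₁ ++ t :: l₂, x ∉ I e' := by
        intro e' he' x hx hx'
        have hcase : ∀ l ∈ C, l ∉ Fx → x ∈ l → False := by
          intro l hl hlF hxl
          rcases (h1 e' he').2.1 x hx' with h3 | ⟨m, hm, h3⟩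
          · exact (hch l hl).2 x hxl (hFcB x h3)
          · have hlm : l ≠ m := fun h => hlF (h ▸ hm)
            exact hdis l hl m (hFx hm) hlm x hxl h3
        rcases List.mem_append.1 hx with hx1 | hx1
        · exact hcase l₁ hl₁ hl₁F hx1
        · rcases List.mem_cons.1 hx1 with rfl | hx1
          · rcases (h1 e' he').2.1 x hx' with h3 | ⟨m, hm, h3⟩
            · exact ht2 h3
            · exact hB1 m (hFx hm) h3
          · exact hcase l₂ hl₂ hl₂F hx1
      intro e₁ he₁ e₂ he₂ h12 x hx hx'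
      by_cases hee1 : e₁ = e
      · subst hee1
        have he₂D : e₂ ∈ Dr := by
          rcases mem_insert.1 he₂ with h | h
          · exact absurd h.symm h12
          · exact h
        rw [Function.update_self] at hx
        rw [Function.update_of_ne (fun h => h12 h.symm)] at hx'
        exact key e₂ he₂D x hx hx'
      · have he₁D : e₁ ∈ Dr := by
          rcases mem_insert.1 he₁ with h | h
          · exact absurd h hee1
          · exact h
        rw [Function.update_of_ne hee1] at hx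
        by_cases hee2 : e₂ = e
        · subst hee2
          rw [Function.update_self] at hx'
          exact key e₁ he₁D x hx' hx
        · have he₂D : e₂ ∈ Dr := by
            rcases mem_insert.1 he₂ with h | h
            · exact absurd h hee2
            · exact h
          rw [Function.update_of_ne hee2] at hx'
          exact h2 e₁ he₁D e₂ he₂D h12 x hx hx'

end MP0dbebe.CQ
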