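import Pool.Agent.Lib.MP_0dbebe_co.CQ.Parts

/-!
# GAIN: if all parts of a partition have a far mean, one of them has larger energy

PROOF. `μ = mean B`, `s = ∑ |P|`, `R` = rest, `|R| = |B| - s ≤ ε' |B|`, `‖μ‖ ≤ 1`
(`OneSub.norm_meanVec_le`). For each `P`, `‖mean P‖ ^ 2 = ‖μ‖ ^ 2 + 2 ⟪μ, mean P - μ⟫ +
‖mean P - μ‖ ^ 2 ≥ ‖μ‖ ^ 2 + 2 ⟪μ, mean P - μ⟫ + ε ^ 2`. Multiply by `|P|` and sum:
`∑ |P| ‖mean P‖ ^ 2 ≥ s (‖μ‖ ^ 2 + ε ^ 2) + 2 ⟪μ, ∑ |P| (mean P - μ)⟫`, and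
`∑_P |P| (mean P - μ) = ∑_{u in union} r u - s μ = - (∑_{u in R} r u - |R| μ)` has norm at most
`2 |R| ≤ 2 ε' |B|` (`OneSub.card_smul_meanVec`). So
`∑ |P| ‖mean P‖ ^ 2 ≥ s (‖μ‖ ^ 2 + ε ^ 2) - 4 ε' |B| ≥ s (‖μ‖ ^ 2 + ε ^ 2 / 2)`, because
`s ≥ |B| / 2` and `8 ε' ≤ ε ^ 2 / 2`. Hence some `P` has `‖mean P‖ ^ 2 ≥ ‖μ‖ ^ 2 + ε ^ 2 / 2`
(the family is not empty because `s > 0`).
-/

set_option autoImplicit false
set_option linter.unusedSectionVars false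

namespace MP0dbebe.CQ

open Finset
open scoped Classical

theorem gain {ι F : Type} [NormedAddCommGroup F] [InnerProductSpace ℝ F] (r : ι → F)
    (hr : ∀ u, ‖r u‖ ≤ 1) (ε ε' : ℝ) (hε : 0 < ε) (hε1 : ε ≤ 1) (hε' : 16 * ε' ≤ ε ^ 2)
    (hε'0 : 0 < ε') (B : Finset ι) (hB : B.Nonempty)
    (Ps : Finset (Finset ι)) (h1 : ∀ P ∈ Ps, P ⊆ B ∧ P.Nonempty)
    (h2 : ∀ P ∈ Ps, ∀ P' ∈ Ps, P ≠ P' → Disjoint P P')
    (h3 : (1 - ε') * B.card ≤ ∑ P ∈ Ps, (P.card : ℝ))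
    (h4 : ∀ P ∈ Ps, ε < ‖Pool.Agent.Lib.MP_0dbebe_co.OneSub.meanVec r P
      - Pool.Agent.Lib.MP_0dbebe_co.OneSub.meanVec r B‖) :
    ∃ P ∈ Ps, ‖Pool.Agent.Lib.MP_0dbebe_co.OneSub.meanVec r B‖ ^ 2 + ε ^ 2 / 2
      ≤ ‖Pool.Agent.Lib.MP_0dbebe_co.OneSub.meanVec r P‖ ^ 2 := by
  set μ : F := Pool.Agent.Lib.MP_0dbebe_co.OneSub.meanVec r B with hμ
  have hμ1 : ‖μ‖ ≤ 1 := Pool.Agent.Lib.MP_0dbebe_co.OneSub.norm_meanVec_le r hr B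
  have hb : (0 : ℝ) < B.card := by exact_mod_cast hB.card_pos
  set s : ℝ := ∑ P ∈ Ps, (P.card : ℝ) with hs
  have hε'1 : ε' ≤ 1 / 16 := by nlinarith
  have hs2 : (B.card : ℝ) / 2 ≤ s := by nlinarith
  set U : Finset ι := Ps.biUnion id with hU
  have hdisj : ∀ P ∈ Ps, ∀ P' ∈ Ps, P ≠ P' → Disjoint (id P) (id P') := h2
  have hUB : U ⊆ B := by
    intro u hu
    obtain ⟨P, hP, huP⟩ := Finset.mem_biUnion.mp hu
    exact (h1 P hP).1 huP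
  have hUcard : (U.card : ℝ) = s := by
    rw [hU, Finset.card_biUnion hdisj]
    push_cast
    rfl
  have hUsum : ∑ u ∈ U, r u = ∑ P ∈ Ps, ∑ u ∈ P, r u := by
    rw [hU, Finset.sum_biUnion (fun P hP P' hP' hne => hdisj P hP P' hP' hne)]
    rfl
  have hR : ∑ u ∈ B \ U, r u = (B.card : ℝ) • μ - ∑ u ∈ U, r u := by
    rw [hμ, Pool.Agent.Lib.MP_0dbebe_co.OneSub.card_smul_meanVec r hB,
      ← Finset.sum_sdiff hUB, add_sub_cancel_right]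
  have hRcard : ((B \ U).card : ℝ) = B.card - s := by
    rw [Finset.card_sdiff_of_subset hUB, Nat.cast_sub (Finset.card_le_card hUB), hUcard]
  have hsB : s ≤ B.card := by
    rw [← hUcard]
    exact_mod_cast Finset.card_le_card hUB
  have hX : ∑ P ∈ Ps, (P.card : ℝ) • (Pool.Agent.Lib.MP_0dbebe_co.OneSub.meanVec r P - μ) =
      ((B.card : ℝ) - s) • μ - ∑ u ∈ B \ U, r u := by
    have e1 : ∑ P ∈ Ps, (P.card : ℝ) • (Pool.Agent.Lib.MP_0dbebe_co.OneSub.meanVec r P - μ) =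
        ∑ P ∈ Ps, (∑ u ∈ P, r u) - ∑ P ∈ Ps, (P.card : ℝ) • μ := by
      rw [← Finset.sum_sub_distrib]
      refine Finset.sum_congr rfl fun P hP => ?_
      rw [smul_sub, Pool.Agent.Lib.MP_0dbebe_co.OneSub.card_smul_meanVec r (h1 P hP).2]
    rw [e1, ← Finset.sum_smul, ← hs, hR, ← hUsum, sub_smul]
    abel
  have hXn : ‖∑ P ∈ Ps, (P.card : ℝ) •
      (Pool.Agent.Lib.MP_0dbebe_co.OneSub.meanVec r P - μ)‖ ≤ 2 * ε' * B.card := by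
    rw [hX]
    have e1 : ‖((B.card : ℝ) - s) • μ‖ ≤ (B.card : ℝ) - s := by
      rw [norm_smul, Real.norm_eq_abs, abs_of_nonneg (by linarith)]
      nlinarith
    have e2 : ‖∑ u ∈ B \ U, r u‖ ≤ (B.card : ℝ) - s := by
      rw [← hRcard]
      exact Pool.Agent.Lib.MP_0dbebe_co.OneSub.norm_sum_le_card r hr _
    have e3 := norm_sub_le (((B.card : ℝ) - s) • μ) (∑ u ∈ B \ U, r u)
    nlinarith
  have hin : -(2 * ε' * B.card) ≤ inner ℝ μ (∑ P ∈ Ps, (P.card : ℝ) •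
      (Pool.Agent.Lib.MP_0dbebe_co.OneSub.meanVec r P - μ)) := by
    have e1 := abs_real_inner_le_norm μ (∑ P ∈ Ps, (P.card : ℝ) •
      (Pool.Agent.Lib.MP_0dbebe_co.OneSub.meanVec r P - μ))
    have e2 : ‖μ‖ * ‖∑ P ∈ Ps, (P.card : ℝ) •
        (Pool.Agent.Lib.MP_0dbebe_co.OneSub.meanVec r P - μ)‖ ≤ 1 * (2 * ε' * B.card) :=
      mul_le_mul hμ1 hXn (norm_nonneg _) zero_le_one
    have e3 := (abs_le.mp (e1.trans e2)).1
    linarith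
  rw [inner_sum] at hin
  by_contra hcon
  push Not at hcon
  have key : ∀ P ∈ Ps, (P.card : ℝ) * (ε ^ 2 / 2) + 2 * inner ℝ μ ((P.card : ℝ) •
      (Pool.Agent.Lib.MP_0dbebe_co.OneSub.meanVec r P - μ)) ≤ 0 := by
    intro P hP
    have c1 := hcon P hP
    have c2 := h4 P hP
    set m := Pool.Agent.Lib.MP_0dbebe_co.OneSub.meanVec r P with hm
    have c3 : ‖m‖ ^ 2 = ‖μ‖ ^ 2 + 2 * inner ℝ μ (m - μ) + ‖m - μ‖ ^ 2 := by
      have e := norm_add_sq_real μ (m - μ)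
      rw [add_sub_cancel] at e
      exact e
    have c4 : ε ^ 2 ≤ ‖m - μ‖ ^ 2 := pow_le_pow_left₀ hε.le c2.le 2
    have c5 : (0 : ℝ) ≤ P.card := Nat.cast_nonneg _
    rw [real_inner_smul_right]
    have c6 : ε ^ 2 / 2 + 2 * inner ℝ μ (m - μ) ≤ 0 := by linarith
    nlinarith
  have hsum := Finset.sum_nonpos key
  rw [Finset.sum_add_distrib, ← Finset.sum_mul, ← Finset.mul_sum, ← hs] at hsum
  have hne : (∃ P ∈ Ps, P.Nonempty) := by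
    by_contra hno
    push Not at hno
    have : s = 0 := by
      rw [hs]
      exact Finset.sum_eq_zero fun P hP => absurd (h1 P hP).2 (hno P hP ▸ by simp)
    linarith
  obtain ⟨P0, hP0, hP0n⟩ := hne
  -- strict inequality from one part
  have strict : 0 < ∑ P ∈ Ps, -((P.card : ℝ) * (ε ^ 2 / 2) + 2 * inner ℝ μ ((P.card : ℝ) •
      (Pool.Agent.Lib.MP_0dbebe_co.OneSub.meanVec r P - μ))) := by
    refine Finset.sum_pos' (fun P hP => by linarith [key P hP]) ⟨P0, hP0, ?_⟩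
    have c1 := hcon P0 hP0
    have c2 := h4 P0 hP0
    set m := Pool.Agent.Lib.MP_0dbebe_co.OneSub.meanVec r P0 with hm
    have c3 : ‖m‖ ^ 2 = ‖μ‖ ^ 2 + 2 * inner ℝ μ (m - μ) + ‖m - μ‖ ^ 2 := by
      have e := norm_add_sq_real μ (m - μ)
      rw [add_sub_cancel] at e
      exact e
    have c4 : ε ^ 2 ≤ ‖m - μ‖ ^ 2 := pow_le_pow_left₀ hε.le c2.le 2
    have c5 : (0 : ℝ) < P0.card := by exact_mod_cast hP0n.card_pos
    rw [real_inner_smul_right]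
    have c6 : ε ^ 2 / 2 + 2 * inner ℝ μ (m - μ) < 0 := by linarith
    nlinarith
  rw [Finset.sum_neg_distrib, Finset.sum_add_distrib, ← Finset.sum_mul, ← Finset.mul_sum,
    ← hs] at strict
  have f1 : s * (ε ^ 2 / 2) ≥ (B.card : ℝ) / 2 * (ε ^ 2 / 2) :=
    mul_le_mul_of_nonneg_right hs2 (by positivity)
  have f2 : 4 * ε' * B.card ≤ (B.card : ℝ) / 2 * (ε ^ 2 / 2) := by nlinarith
  linarith

end MP0dbebe.CQ
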