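import Pool.Agent.Lib.MP_0dbebe_co.CQ.Dropped
import Pool.Agent.Lib.MP_0dbebe_co.OneSub.Defs

/-!
# MATCHMODEL: assembly of the model from the matched and the dropped edges

PROOF. `I e = ψ e` for `e ∈ A'` and `I e = I' e` otherwise. For `e ∈ A'` with orientation `(u, v)`
with `Fit (f u) (f v) (ψ e)`: `pw_glue` and `IsChain` give weight zero. Disjointness: two matched
edges have different, hence disjoint chains; a matched chain (in `C₁`) is disjoint from the lists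
`I' e` (elements of `B \ B'`, or of chains of `C₀`); chains avoid `B`, so the positions
`f v ∈ B'` are avoided.
-/

set_option autoImplicit false

namespace MP0dbebe.CQ

open Finset
open scoped Classical
open Pool.Agent.Lib.MP_0dbebe_co.OneSub (E)

theorem match_model {α W : Type} [Fintype α] [Fintype W] {q : ℕ} {w : α → α → ZMod q}
    (hw : ∀ x y, w x y = w y x) (H : SimpleGraph W) {B B' : Finset α} (hB'B : B' ⊆ B)
    (a : α → ZMod q) (d : α) (CC C₀ C₁ : Finset (List α)) (h0 : C₀ ⊆ CC) (h1 : C₁ ⊆ CC)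
    (h01 : Disjoint C₀ C₁) (hch : ∀ l ∈ CC, IsChain w a d l ∧ ∀ x ∈ l, x ∉ B)
    (hdis : ∀ l ∈ CC, ∀ l' ∈ CC, l ≠ l' → ∀ x ∈ l, x ∉ l')
    (f : W → α) (hf : Function.Injective f) (hfB : ∀ u, f u ∈ B')
    (A' : Finset (Sym2 W)) (hA' : A' ⊆ E H) (ψ : Sym2 W → List α)
    (hψ : Set.InjOn ψ (A' : Set (Sym2 W)))
    (hψ1 : ∀ e ∈ A', ψ e ∈ C₁ ∧ ∃ u v, e = s(u, v) ∧ Fit w a (hd d) (lt d) (f u) (f v) (ψ e))
    (I' : Sym2 W → List α)
    (hI1 : ∀ e ∈ E H \ A', (I' e).Nodup ∧ (∀ x ∈ I' e, x ∈ B \ B' ∨ ∃ l ∈ C₀, x ∈ l) ∧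
        ∃ u v, e = s(u, v) ∧ pw w (f u :: (I' e ++ [f v])) = 0)
    (hI2 : ∀ e ∈ E H \ A', ∀ e' ∈ E H \ A', e ≠ e' → ∀ x ∈ I' e, x ∉ I' e') :
    HasModel w (EE H univ) univ (B ∪ CC.biUnion List.toFinset) := by
  have hE : ∀ e, e ∈ EE H (univ : Finset W) ↔ e ∈ E H := by
    intro e
    rw [mem_EE, Pool.Agent.Lib.MP_0dbebe_co.OneSub.mem_E]
    exact ⟨fun h => h.2, fun h => ⟨fun v _ => mem_univ v, h⟩⟩
  refine ⟨f, fun e => if e ∈ A' then ψ e else I' e, ?_⟩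
  have i1 : ∀ e, e ∈ A' → (if e ∈ A' then ψ e else I' e) = ψ e := fun e h => if_pos h
  have i2 : ∀ e, e ∉ A' → (if e ∈ A' then ψ e else I' e) = I' e := fun e h => if_neg h
  have hC1 : ∀ e ∈ A', ψ e ∈ CC := fun e h => h1 (hψ1 e h).1
  have mix : ∀ e ∈ A', ∀ e' ∈ E H \ A', ∀ x ∈ ψ e, x ∉ I' e' := by
    intro e he e' he' x hx hx'
    rcases (hI1 e' he').2.1 x hx' with hB | ⟨l, hl, hxl⟩
    · exact (hch _ (hC1 e he)).2 x hx (mem_sdiff.1 hB).1
    · have hne : ψ e ≠ l := by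
        intro h
        have h2 := (hψ1 e he).1
        rw [h] at h2
        exact Finset.disjoint_left.1 h01 hl h2
      exact hdis _ (hC1 e he) l (h0 hl) hne x hx hxl
  constructor
  · intro u _ v _ huv
    exact hf huv
  · intro u _
    exact mem_union_left _ (hB'B (hfB u))
  · intro e he x hx
    by_cases hA : e ∈ A'
    · rw [i1 e hA] at hx
      exact mem_union_right _ (mem_biUnion.2 ⟨ψ e, hC1 e hA, List.mem_toFinset.2 hx⟩)
    · rw [i2 e hA] at hx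
      rcases (hI1 e (mem_sdiff.2 ⟨(hE e).1 he, hA⟩)).2.1 x hx with hB | ⟨l, hl, hxl⟩
      · exact mem_union_left _ (mem_sdiff.1 hB).1
      · exact mem_union_right _ (mem_biUnion.2 ⟨l, h0 hl, List.mem_toFinset.2 hxl⟩)
  · intro e he
    by_cases hA : e ∈ A'
    · rw [i1 e hA]
      exact (hch _ (hC1 e hA)).1.2.1
    · rw [i2 e hA]
      exact (hI1 e (mem_sdiff.2 ⟨(hE e).1 he, hA⟩)).1
  · intro e he v _ hmem
    by_cases hA : e ∈ A'
    · rw [i1 e hA] at hmem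
      exact (hch _ (hC1 e hA)).2 _ hmem (hB'B (hfB v))
    · rw [i2 e hA] at hmem
      rcases (hI1 e (mem_sdiff.2 ⟨(hE e).1 he, hA⟩)).2.1 _ hmem with hB | ⟨l, hl, hxl⟩
      · exact (mem_sdiff.1 hB).2 (hfB v)
      · exact (hch l (h0 hl)).2 _ hxl (hB'B (hfB v))
  · intro e he e' he' hne x hx hx'
    by_cases hA : e ∈ A' <;> by_cases hA' : e' ∈ A'
    · rw [i1 e hA] at hx
      rw [i1 e' hA'] at hx'
      exact hdis _ (hC1 e hA) _ (hC1 e' hA') (fun h => hne (hψ hA hA' h)) x hx hx'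
    · rw [i1 e hA] at hx
      rw [i2 e' hA'] at hx'
      exact mix e hA e' (mem_sdiff.2 ⟨(hE e').1 he', hA'⟩) x hx hx'
    · rw [i2 e hA] at hx
      rw [i1 e' hA'] at hx'
      exact mix e' hA' e (mem_sdiff.2 ⟨(hE e).1 he, hA⟩) x hx' hx
    · rw [i2 e hA] at hx
      rw [i2 e' hA'] at hx'
      exact hI2 e (mem_sdiff.2 ⟨(hE e).1 he, hA⟩) e' (mem_sdiff.2 ⟨(hE e').1 he', hA'⟩) hne x hx hx'
  · intro e _ v _
    exact mem_univ v
  · intro e he
    by_cases hA : e ∈ A'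
    · obtain ⟨u, v, huv, hfit⟩ := (hψ1 e hA).2
      refine ⟨u, v, huv, ?_⟩
      rw [i1 e hA]
      obtain ⟨hne, _, hz⟩ := (hch _ (hC1 e hA)).1
      rw [pw_glue w d (f u) (f v) (ψ e) hne, hw (lt d (ψ e)) (f v), hfit.1, hfit.2]
      exact hz
    · rw [i2 e hA]
      exact (hI1 e (mem_sdiff.2 ⟨(hE e).1 he, hA⟩)).2.2

end MP0dbebe.CQ
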