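import Pool.Agent.Lib.MP_0dbebe_co.CQ.BDefs
import Pool.Agent.Lib.MP_0dbebe_co.OneSub.Fm

/-!
# RANDEMB: a good random embedding

PROOF. Choose `j` with `4 * (1 / 4) ^ j < c' ^ k` and
`C₀ = max (4 j ^ 2 + 1) ((4 j + 1) / δ₀)`. Let `n = |W|`, `m = |E H| ≥ 1`. For a thin tuple `U`
(`|{p ∈ Bs × Bs : Ms U p}| ≤ (δ' / 8) |Bs| ^ 2`) the lemma `OneSub.fm` with `N = δ' m`,
`σ = δ' / 8` and `N - 2 j n ≥ δ' m / 2` (because `4 j n ≤ δ₀ m ≤ δ' m`) gives
`|{φ : δ' m ≤ |hit|}| ≤ 2 |W ↪ Bs| (1 / 4) ^ j`. Sum over all thin `U ∈ C ^ k` and exchange the sums: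
some `φ` has at most `2 (1 / 4) ^ j |C| ^ k < (1 / 2) (c' |C|) ^ k` thin tuples `U ∈ C ^ k` with
`δ' m ≤ |hit U|`. If `Y ⊆ C`, `|Y| ≥ c' |C|`, at least half of the tuples of `Y ^ k` are thin
(hypothesis `hthin`), i.e. at least `(1 / 2) (c' |C|) ^ k`; so one of them has `|hit U| < δ' m`.
-/

set_option autoImplicit false

namespace MP0dbebe.CQ

open Finset
open scoped Classical
open Pool.Agent.Lib.MP_0dbebe_co.OneSub (E hit fn)

theorem rand_emb (k : ℕ) (c' δ₀ : ℝ) (hc' : 0 < c') (hc1 : c' ≤ 1) (hδ₀ : 0 < δ₀) :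
    ∃ C₀ : ℝ, ∀ (α W ι : Type) [Fintype α] [Fintype W] (H : SimpleGraph W) (Bs : Finset α)
      (C : Finset ι) (Ms : (Fin k → ι) → α → α → Prop) (δ' : ℝ), δ₀ ≤ δ' →
      (∀ U s s', Ms U s s' → Ms U s' s) → C₀ ≤ Bs.card → Fintype.card W ≤ Bs.card →
      C₀ * Fintype.card W ≤ (E H).card → 1 ≤ (E H).card → C.Nonempty →
      (∀ Y ⊆ C, c' * C.card ≤ Y.card →
        2 * ((Fintype.piFinset (fun _ : Fin k => Y)).filter fun U =>
          δ' / 8 * (Bs.card : ℝ) ^ 2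
            < (((Bs ×ˢ Bs).filter fun p => Ms U p.1 p.2).card : ℝ)).card ≤ Y.card ^ k) →
      ∃ φ : W ↪ Bs, ∀ Y ⊆ C, c' * C.card ≤ Y.card →
        ∃ U ∈ Fintype.piFinset (fun _ : Fin k => Y),
          ((hit H (fn φ) (Ms U)).card : ℝ) < δ' * (E H).card := by
  obtain ⟨j, hj⟩ : ∃ j : ℕ, 4 * (1 / 4 : ℝ) ^ j < c' ^ k := by
    obtain ⟨j, hj⟩ := exists_pow_lt_of_lt_one (show (0 : ℝ) < c' ^ k / 4 by positivity)
      (show (1 / 4 : ℝ) < 1 by norm_num)
    exact ⟨j, by linarith⟩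
  refine ⟨max (4 * (j : ℝ) ^ 2 + 1) ((4 * j + 1) / δ₀), ?_⟩
  intro α W ι _ _ H Bs C Ms δ' hδ' hsym hC₀ hWB hm hm1 hC hthin
  set n : ℝ := (Fintype.card W : ℝ) with hn
  set m : ℝ := ((E H).card : ℝ) with hmdef
  have hδpos : 0 < δ' := lt_of_lt_of_le hδ₀ hδ'
  have hmR : 1 ≤ m := by rw [hmdef]; exact_mod_cast hm1
  have hn0 : 0 ≤ n := Nat.cast_nonneg _
  have hδm : (4 * j + 1) * n ≤ δ' * m := by
    have h1 : (4 * (j : ℝ) + 1) / δ₀ * n ≤ m :=
      (mul_le_mul_of_nonneg_right (le_max_right _ _) hn0).trans hm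
    have h2 : (4 * (j : ℝ) + 1) * n ≤ δ₀ * m := by
      have h3 : δ₀ * ((4 * (j : ℝ) + 1) / δ₀ * n) ≤ δ₀ * m := mul_le_mul_of_nonneg_left h1 hδ₀.le
      calc (4 * (j : ℝ) + 1) * n = δ₀ * ((4 * (j : ℝ) + 1) / δ₀ * n) := by field_simp
        _ ≤ _ := h3
    exact h2.trans (mul_le_mul_of_nonneg_right hδ' (by linarith))
  have hδm0 : 0 < δ' * m := by positivity
  have hN : 2 * j * n < δ' * m := by
    rcases hn0.lt_or_eq with h | h
    · have hj0 : (0 : ℝ) ≤ j := Nat.cast_nonneg _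
      nlinarith
    · rw [← h, mul_zero]; exact hδm0
  have hN2 : δ' * m / 2 ≤ δ' * m - 2 * j * n := by nlinarith
  have hb : 4 * j ^ 2 ≤ Bs.card := by
    have h1 : 4 * (j : ℝ) ^ 2 + 1 ≤ Bs.card := (le_max_left _ _).trans hC₀
    have h2 : ((4 * j ^ 2 : ℕ) : ℝ) ≤ Bs.card := by push_cast; linarith
    exact_mod_cast h2
  set Em : ℝ := (Fintype.card (W ↪ Bs) : ℝ) with hEm
  have hEmne : Nonempty (W ↪ Bs) := by
    refine Function.Embedding.nonempty_of_card_le ?_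
    rw [Fintype.card_coe]
    exact hWB
  have hEm0 : 0 < Em := by
    rw [hEm]
    exact_mod_cast Fintype.card_pos
  set thin : (Fin k → ι) → Prop := fun U =>
    (((Bs ×ˢ Bs).filter fun p => Ms U p.1 p.2).card : ℝ) ≤ δ' / 8 * (Bs.card : ℝ) ^ 2 with hthindef
  -- one thin tuple
  have hone : ∀ U, thin U → ((univ.filter fun φ : W ↪ Bs =>
      δ' * m ≤ ((hit H (fn φ) (Ms U)).card : ℝ)).card : ℝ) ≤ 2 * Em * (1 / 4) ^ j := by
    intro U hU
    have h1 := Pool.Agent.Lib.MP_0dbebe_co.OneSub.fm H Bs hWB (Ms U) (hsym U) j hb (δ' * m)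
      (δ' / 8) hN (by positivity) hU
    set X : ℝ := ((univ.filter fun φ : W ↪ Bs =>
      δ' * m ≤ ((hit H (fn φ) (Ms U)).card : ℝ)).card : ℝ) with hX
    have hX0 : 0 ≤ X := Nat.cast_nonneg _
    have h2 : X * (4 * (δ' * m / 8)) ^ j ≤ 2 * Em * (m * (δ' / 8)) ^ j := by
      refine le_trans (mul_le_mul_of_nonneg_left ?_ hX0) h1
      refine pow_le_pow_left₀ (by positivity) ?_ j
      calc 4 * (δ' * m / 8) = δ' * m / 2 := by ring
        _ ≤ _ := hN2
    rw [mul_pow] at h2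
    have h3 : m * (δ' / 8) = δ' * m / 8 := by ring
    rw [h3] at h2
    have h4 : 0 < (δ' * m / 8) ^ j := by positivity
    have h5 : X * 4 ^ j ≤ 2 * Em := by
      refine le_of_mul_le_mul_right ?_ h4
      calc X * 4 ^ j * (δ' * m / 8) ^ j = X * (4 ^ j * (δ' * m / 8) ^ j) := by ring
        _ ≤ _ := h2
    have h6 : (1 / 4 : ℝ) ^ j * 4 ^ j = 1 := by
      rw [← mul_pow]; norm_num
    calc X = X * 4 ^ j * (1 / 4) ^ j := by
          calc X = X * ((1 / 4 : ℝ) ^ j * 4 ^ j) := by rw [h6, mul_one]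
            _ = _ := by ring
      _ ≤ 2 * Em * (1 / 4) ^ j := mul_le_mul_of_nonneg_right h5 (by positivity)
  set PC : Finset (Fin k → ι) := Fintype.piFinset (fun _ : Fin k => C) with hPC
  have hPCcard : PC.card = C.card ^ k := by
    rw [hPC, Fintype.card_piFinset_const]
  set bad : (W ↪ Bs) → Finset (Fin k → ι) := fun φ =>
    PC.filter fun U => thin U ∧ δ' * m ≤ ((hit H (fn φ) (Ms U)).card : ℝ) with hbad
  -- double counting
  have hsum : ∑ φ : W ↪ Bs, ((bad φ).card : ℝ) ≤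
      ∑ _φ : W ↪ Bs, 2 * (1 / 4 : ℝ) ^ j * (C.card : ℝ) ^ k := by
    have h1 : ∑ φ : W ↪ Bs, ((bad φ).card : ℝ) = ∑ U ∈ PC, ∑ φ : W ↪ Bs,
        (if thin U ∧ δ' * m ≤ ((hit H (fn φ) (Ms U)).card : ℝ) then (1 : ℝ) else 0) := by
      rw [Finset.sum_comm]
      refine Finset.sum_congr rfl fun φ _ => ?_
      rw [hbad, Finset.sum_boole]
    have h2 : ∀ U ∈ PC, ∑ φ : W ↪ Bs,
        (if thin U ∧ δ' * m ≤ ((hit H (fn φ) (Ms U)).card : ℝ) then (1 : ℝ) else 0) ≤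
        2 * Em * (1 / 4) ^ j := by
      intro U _
      by_cases hU : thin U
      · refine le_trans (le_of_eq ?_) (hone U hU)
        rw [Finset.sum_boole]
        simp only [hU, true_and]
      · have : ∀ φ : W ↪ Bs, (if thin U ∧ δ' * m ≤ ((hit H (fn φ) (Ms U)).card : ℝ)
            then (1 : ℝ) else 0) = 0 := fun φ => if_neg fun h => hU h.1
        simp only [this, Finset.sum_const_zero]
        positivity
    rw [h1]
    refine (Finset.sum_le_sum h2).trans (le_of_eq ?_)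
    rw [Finset.sum_const, nsmul_eq_mul, hPCcard, Finset.sum_const, nsmul_eq_mul, Finset.card_univ]
    push_cast
    ring
  obtain ⟨φ, -, hφ⟩ := Finset.exists_le_of_sum_le Finset.univ_nonempty hsum
  refine ⟨φ, fun Y hY hYc => ?_⟩
  by_contra hno
  push Not at hno
  set PY : Finset (Fin k → ι) := Fintype.piFinset (fun _ : Fin k => Y) with hPY
  have hPYcard : PY.card = Y.card ^ k := by
    rw [hPY, Fintype.card_piFinset_const]
  have hsub : PY.filter (fun U => thin U) ⊆ bad φ := by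
    intro U hU
    obtain ⟨hU1, hU2⟩ := Finset.mem_filter.1 hU
    refine Finset.mem_filter.2 ⟨?_, hU2, hno U hU1⟩
    rw [hPC, Fintype.mem_piFinset]
    intro i
    exact hY ((Fintype.mem_piFinset.1 hU1) i)
  have hsplit : (PY.filter fun U => thin U).card +
      (PY.filter fun U => ¬ thin U).card = PY.card :=
    Finset.card_filter_add_card_filter_not (s := PY) (fun U => thin U)
  have hthin2 := hthin Y hY hYc
  have hnot : (PY.filter fun U => ¬ thin U).card =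
      ((Fintype.piFinset (fun _ : Fin k => Y)).filter fun U =>
          δ' / 8 * (Bs.card : ℝ) ^ 2
            < (((Bs ×ˢ Bs).filter fun p => Ms U p.1 p.2).card : ℝ)).card := by
    congr 1
    ext U
    simp only [hthindef, not_le, hPY]
  rw [← hnot] at hthin2
  have hge : Y.card ^ k ≤ 2 * (PY.filter fun U => thin U).card := by
    rw [hPYcard] at hsplit
    omega
  have hle := Finset.card_le_card hsub
  have h1 : ((Y.card : ℝ)) ^ k ≤ 2 * ((bad φ).card : ℝ) := by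
    have : Y.card ^ k ≤ 2 * (bad φ).card := hge.trans (by omega)
    exact_mod_cast this
  have hCpos : 0 < (C.card : ℝ) := by
    have := Finset.card_pos.2 hC
    exact_mod_cast this
  have h2 : (c' * C.card) ^ k ≤ (Y.card : ℝ) ^ k := pow_le_pow_left₀ (by positivity) hYc k
  rw [mul_pow] at h2
  have h3 : 4 * (1 / 4 : ℝ) ^ j * (C.card : ℝ) ^ k < c' ^ k * (C.card : ℝ) ^ k :=
    mul_lt_mul_of_pos_right hj (by positivity)
  linarith

end MP0dbebe.CQ
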