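import Pool.Agent.Lib.MP_0dbebe_co.CQ.BDefs

/-!
# TUPLES: at least half of the `k`-tuples are thin

PROOF. Double count: `∑_{U ∈ Y ^ k} |{p ∈ Bs × Bs : ∀ i, ¬ F p.1 p.2 (U i)}| =
∑_{p ∈ Bs × Bs} |{x ∈ Y : ¬ F p.1 p.2 x}| ^ k` (the set of `U` with all `U i` in a subset `Y'` is
`Fintype.piFinset (fun _ => Y')`, of size `|Y'| ^ k`). The pairs `p` with few `x` (the set in `hG`)
contribute at most `δ₁ |Bs| ^ 2 |Y| ^ k`, every other pair at most `((1 - η) |Y|) ^ k`. Markov.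
-/

set_option autoImplicit false

namespace MP0dbebe.CQ

open Finset
open scoped Classical

theorem tuples {α ι : Type} (k : ℕ) (Bs : Finset α) (Y : Finset ι) (F : α → α → ι → Prop)
    (η δ₁ : ℝ) (hη0 : 0 ≤ η) (hη1 : η ≤ 1) (hδ₁ : 0 ≤ δ₁)
    (hG : (((Bs ×ˢ Bs).filter fun p =>
      ((Y.filter fun x => F p.1 p.2 x).card : ℝ) ≤ η * Y.card).card : ℝ)
        ≤ δ₁ * (Bs.card : ℝ) ^ 2) :
    2 * ((Fintype.piFinset (fun _ : Fin k => Y)).filter fun U =>
      2 * (δ₁ + (1 - η) ^ k) * (Bs.card : ℝ) ^ 2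
        < (((Bs ×ˢ Bs).filter fun p => ∀ i, ¬ F p.1 p.2 (U i)).card : ℝ)).card
      ≤ Y.card ^ k := by
  have hη2 : 0 ≤ (1 - η) ^ k := pow_nonneg (by linarith) k
  have hb2 : 0 ≤ (Bs.card : ℝ) ^ 2 := sq_nonneg _
  have hYk : (0 : ℝ) ≤ (Y.card : ℝ) ^ k := pow_nonneg (Nat.cast_nonneg _) k
  obtain ⟨T, hT⟩ : ∃ T : ℝ, T = 2 * (δ₁ + (1 - η) ^ k) * (Bs.card : ℝ) ^ 2 := ⟨_, rfl⟩
  have hT0 : 0 ≤ T := by rw [hT]; positivity
  obtain ⟨bad, hbad⟩ : ∃ bad : (Fin k → ι) → ℝ,
      bad = fun U => (((Bs ×ˢ Bs).filter fun p => ∀ i, ¬ F p.1 p.2 (U i)).card : ℝ) := ⟨_, rfl⟩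
  have hb0 : ∀ U, 0 ≤ bad U := fun U => by rw [hbad]; exact Nat.cast_nonneg _
  have hsum : ∑ U ∈ Fintype.piFinset (fun _ : Fin k => Y), bad U =
      ∑ p ∈ Bs ×ˢ Bs, ((Y.filter fun x => ¬ F p.1 p.2 x).card : ℝ) ^ k := by
    rw [hbad]
    have h1 : ∀ U : Fin k → ι,
        (((Bs ×ˢ Bs).filter fun p => ∀ i, ¬ F p.1 p.2 (U i)).card : ℝ) =
          ∑ p ∈ Bs ×ˢ Bs, (if ∀ i, ¬ F p.1 p.2 (U i) then (1 : ℝ) else 0) := by
      intro U
      rw [Finset.card_filter, Nat.cast_sum]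
      exact Finset.sum_congr rfl fun p _ => by rw [Nat.cast_ite, Nat.cast_one, Nat.cast_zero]
    simp only [h1]
    rw [Finset.sum_comm]
    refine Finset.sum_congr rfl fun p _ => ?_
    have h2 : (Fintype.piFinset (fun _ : Fin k => Y)).filter (fun U => ∀ i, ¬ F p.1 p.2 (U i)) =
        Fintype.piFinset (fun _ : Fin k => Y.filter fun x => ¬ F p.1 p.2 x) := by
      ext U
      simp only [Finset.mem_filter, Fintype.mem_piFinset, forall_and]
    have h3 : ∑ U ∈ Fintype.piFinset (fun _ : Fin k => Y),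
        (if ∀ i, ¬ F p.1 p.2 (U i) then (1 : ℝ) else 0) =
        (((Fintype.piFinset (fun _ : Fin k => Y)).filter
          (fun U => ∀ i, ¬ F p.1 p.2 (U i))).card : ℝ) := by
      rw [Finset.card_filter, Nat.cast_sum]
      exact Finset.sum_congr rfl fun p _ => by rw [Nat.cast_ite, Nat.cast_one, Nat.cast_zero]
    rw [h3, h2, Fintype.card_piFinset_const, Nat.cast_pow]
  have hle : ∑ p ∈ Bs ×ˢ Bs, ((Y.filter fun x => ¬ F p.1 p.2 x).card : ℝ) ^ k ≤
      T / 2 * (Y.card : ℝ) ^ k := by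
    have h1 : ∀ p ∈ Bs ×ˢ Bs, ((Y.filter fun x => ¬ F p.1 p.2 x).card : ℝ) ^ k ≤
        (if ((Y.filter fun x => F p.1 p.2 x).card : ℝ) ≤ η * Y.card then (Y.card : ℝ) ^ k else 0) +
          (1 - η) ^ k * (Y.card : ℝ) ^ k := by
      intro p _
      have h0 : ((Y.filter fun x => ¬ F p.1 p.2 x).card : ℝ) =
          Y.card - (Y.filter fun x => F p.1 p.2 x).card := by
        have h2 := Finset.card_filter_add_card_filter_not (s := Y) (fun x => F p.1 p.2 x)
        have h3 : ((Y.filter fun x => F p.1 p.2 x).card : ℝ) +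
            (Y.filter fun x => ¬ F p.1 p.2 x).card = Y.card := by exact_mod_cast h2
        linarith
      split_ifs with h
      · have h2 : ((Y.filter fun x => ¬ F p.1 p.2 x).card : ℝ) ^ k ≤ (Y.card : ℝ) ^ k := by
          refine pow_le_pow_left₀ (Nat.cast_nonneg _) ?_ k
          exact_mod_cast Finset.card_filter_le _ _
        have h3 : 0 ≤ (1 - η) ^ k * (Y.card : ℝ) ^ k := mul_nonneg hη2 hYk
        linarith
      · rw [zero_add, ← mul_pow]
        refine pow_le_pow_left₀ (Nat.cast_nonneg _) ?_ k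
        rw [h0]
        push Not at h
        linarith
    calc ∑ p ∈ Bs ×ˢ Bs, ((Y.filter fun x => ¬ F p.1 p.2 x).card : ℝ) ^ k
        ≤ ∑ p ∈ Bs ×ˢ Bs,
          ((if ((Y.filter fun x => F p.1 p.2 x).card : ℝ) ≤ η * Y.card
            then (Y.card : ℝ) ^ k else 0) + (1 - η) ^ k * (Y.card : ℝ) ^ k) :=
          Finset.sum_le_sum h1
      _ = (((Bs ×ˢ Bs).filter fun p =>
            ((Y.filter fun x => F p.1 p.2 x).card : ℝ) ≤ η * Y.card).card : ℝ) *
              (Y.card : ℝ) ^ k +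
            (Bs.card : ℝ) ^ 2 * ((1 - η) ^ k * (Y.card : ℝ) ^ k) := by
          rw [Finset.sum_add_distrib, ← Finset.sum_filter, Finset.sum_const, Finset.sum_const,
            nsmul_eq_mul, nsmul_eq_mul, Finset.card_product, Nat.cast_mul, pow_two]
      _ ≤ δ₁ * (Bs.card : ℝ) ^ 2 * (Y.card : ℝ) ^ k +
            (Bs.card : ℝ) ^ 2 * ((1 - η) ^ k * (Y.card : ℝ) ^ k) := by
          gcongr
      _ = T / 2 * (Y.card : ℝ) ^ k := by
          rw [hT]; ring
  rw [← hsum] at hle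
  have hN : (2 : ℝ) * (((Fintype.piFinset (fun _ : Fin k => Y)).filter fun U =>
      T < bad U).card : ℝ) ≤ (Y.card : ℝ) ^ k := by
    rcases hT0.eq_or_lt with h0 | h0
    · have h1 : ∑ U ∈ Fintype.piFinset (fun _ : Fin k => Y), bad U = 0 := by
        refine le_antisymm ?_ (Finset.sum_nonneg fun U _ => hb0 U)
        rw [← h0] at hle
        simpa using hle
      have h2 := (Finset.sum_eq_zero_iff_of_nonneg (fun U _ => hb0 U)).1 h1
      have h3 : ((Fintype.piFinset (fun _ : Fin k => Y)).filter fun U => T < bad U) = ∅ := by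
        rw [Finset.filter_eq_empty_iff]
        intro U hU
        rw [h2 U hU, ← h0]
        exact lt_irrefl 0
      rw [h3, Finset.card_empty, Nat.cast_zero, mul_zero]
      exact hYk
    · have h1 : T * (((Fintype.piFinset (fun _ : Fin k => Y)).filter fun U =>
          T < bad U).card : ℝ) ≤ ∑ U ∈ Fintype.piFinset (fun _ : Fin k => Y), bad U := by
        calc T * (((Fintype.piFinset (fun _ : Fin k => Y)).filter fun U => T < bad U).card : ℝ)
            = ∑ U ∈ (Fintype.piFinset (fun _ : Fin k => Y)).filter (fun U => T < bad U), T := by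
              rw [Finset.sum_const, nsmul_eq_mul, mul_comm]
          _ ≤ ∑ U ∈ (Fintype.piFinset (fun _ : Fin k => Y)).filter (fun U => T < bad U),
                bad U := Finset.sum_le_sum fun U hU => (Finset.mem_filter.1 hU).2.le
          _ ≤ ∑ U ∈ Fintype.piFinset (fun _ : Fin k => Y), bad U :=
              Finset.sum_le_sum_of_subset_of_nonneg (Finset.filter_subset _ _)
                fun U _ _ => hb0 U
      have h2 := h1.trans hle
      have h3 : T * (2 * (((Fintype.piFinset (fun _ : Fin k => Y)).filter fun U =>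
          T < bad U).card : ℝ)) ≤ T * (Y.card : ℝ) ^ k := by linarith
      exact le_of_mul_le_mul_left h3 h0
  rw [hT, hbad] at hN
  exact_mod_cast hN

end MP0dbebe.CQ
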