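import Pool.Agent.Lib.MP_0dbebe_co.CQ.Typical
import Pool.Agent.Lib.MP_0dbebe_co.CQ.Tuples

/-!
# THIN: the hypothesis of RANDEMB in a fine cell

PROOF. `η = 1 / (4 Q ^ 2)`. Let `G` be the set of pairs of `Bs × Bs` which fit at most `η |Y|`
elements of `Y`; `dense_pairs` (cell `B`, index set `Y`, density `δ = δ' / 128`) gives
`|G| ≤ (δ' / 128) |B| ^ 2 ≤ (δ' / 32) |Bs| ^ 2`. Apply `tuples` with `F = Fit`, `δ₁ = δ' / 32`:
`2 (δ₁ + (1 - η) ^ k) ≤ δ' / 16 + δ' / 16 = δ' / 8`, and `Miss` implies `∀ i, ¬ Fit`, so the set in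
the statement is contained in the set of `tuples`.
-/

set_option autoImplicit false

namespace MP0dbebe.CQ

open Finset
open scoped Classical

theorem thin {α ι : Type} [Fintype α] {q : ℕ} [NeZero q] {w : α → α → ZMod q} {κ : ℝ}
    (hκ : 0 < κ) {B : Finset α} (hC : Cell w κ B) (hB : B.Nonempty)
    (Bs : Finset α) (hBs : Bs ⊆ B) (hBs2 : B.card ≤ 2 * Bs.card)
    (Y : Finset ι) (h z : ι → α) (hh : Set.InjOn h (Y : Set ι)) (hz : Set.InjOn z (Y : Set ι))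
    (a : α → ZMod q) (Q γ δ' : ℝ) (hQ : 1 ≤ Q) (hγ : 0 < γ) (hδ' : 0 < δ')
    (hph : ∀ x ∈ Y, (B.card : ℝ) ≤ Q * cn w B (h x) (a (h x)))
    (hpz : ∀ x ∈ Y, (B.card : ℝ) ≤ Q * cn w B (z x) (a (z x)))
    (hγY : γ * Fintype.card α ≤ Y.card) (hsmall : 1024 * Q ^ 2 * κ ≤ δ' * Real.sqrt γ)
    (k : ℕ) (hk : 32 * (1 - 1 / (4 * Q ^ 2)) ^ k ≤ δ') :
    2 * ((Fintype.piFinset (fun _ : Fin k => Y)).filter fun U =>
      δ' / 8 * (Bs.card : ℝ) ^ 2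
        < (((Bs ×ˢ Bs).filter fun p => Miss w a h z U p.1 p.2).card : ℝ)).card
      ≤ Y.card ^ k := by
  have hQ0 : 0 < Q := by linarith
  have hη0 : 0 < 1 / (4 * Q ^ 2) := by positivity
  have hη1 : 1 / (4 * Q ^ 2) ≤ 1 := by
    rw [div_le_one (by positivity)]
    nlinarith
  have hBB : (B.card : ℝ) ≤ 2 * Bs.card := by exact_mod_cast hBs2
  have h1 := dense_pairs hκ hC hB Y h z hh hz a Q γ (δ' / 128) hQ hγ (by positivity) hph hpz hγY
    (by linarith)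
    ((Bs ×ˢ Bs).filter fun p => ((Y.filter fun x => Fit w a h z p.1 p.2 x).card : ℝ) ≤
      1 / (4 * Q ^ 2) * Y.card)
    ((Finset.filter_subset _ _).trans (Finset.product_subset_product hBs hBs))
    (fun p hp => (Finset.mem_filter.1 hp).2)
  have h2 : δ' / 128 * (B.card : ℝ) ^ 2 ≤ δ' / 32 * (Bs.card : ℝ) ^ 2 := by
    have h3 : (B.card : ℝ) ^ 2 ≤ (2 * Bs.card) ^ 2 :=
      pow_le_pow_left₀ (Nat.cast_nonneg _) hBB 2
    nlinarith
  have h3 := tuples k Bs Y (Fit w a h z) (1 / (4 * Q ^ 2)) (δ' / 32) hη0.le hη1 (by positivity)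
    (h1.trans h2)
  refine le_trans (Nat.mul_le_mul_left 2 (Finset.card_le_card ?_)) h3
  intro U hU
  rw [Finset.mem_filter] at hU ⊢
  refine ⟨hU.1, ?_⟩
  have h4 : 2 * (δ' / 32 + (1 - 1 / (4 * Q ^ 2)) ^ k) * (Bs.card : ℝ) ^ 2 ≤
      δ' / 8 * (Bs.card : ℝ) ^ 2 := by
    refine mul_le_mul_of_nonneg_right ?_ (sq_nonneg _)
    linarith
  have h5 : (((Bs ×ˢ Bs).filter fun p => Miss w a h z U p.1 p.2).card : ℝ) ≤
      (((Bs ×ˢ Bs).filter fun p => ∀ i, ¬ Fit w a h z p.1 p.2 (U i)).card : ℝ) := by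
    have h6 : ((Bs ×ˢ Bs).filter fun p => Miss w a h z U p.1 p.2).card ≤
        ((Bs ×ˢ Bs).filter fun p => ∀ i, ¬ Fit w a h z p.1 p.2 (U i)).card := by
      refine Finset.card_le_card fun p hp => ?_
      rw [Finset.mem_filter] at hp ⊢
      exact ⟨hp.1, fun i => (hp.2 i).1⟩
    exact_mod_cast h6
  exact h4.trans_lt (hU.2.trans_le h5)

end MP0dbebe.CQ
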