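import Pool.Agent.Lib.MP_0dbebe_co.CQ.Select
import Pool.Agent.Lib.MP_0dbebe_co.CQ.Thin
import Pool.Agent.Lib.MP_0dbebe_co.CQ.RandEmb
import Pool.Agent.Lib.MP_0dbebe_co.CQ.DefHall
import Pool.Agent.Lib.MP_0dbebe_co.CQ.MatchModel

/-!
# MATCHMAIN: the matching theorem (part (b))
-/

set_option autoImplicit false

namespace MP0dbebe.CQ

open Finset
open scoped Classical
open Pool.Agent.Lib.MP_0dbebe_co.OneSub (E hit fn fn_inj fn_mem mem_hit mem_E)

/-- The chain `l` fits the edge `e` in one of the two directions. -/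
def MatchMain_Ag {α W : Type} {q : ℕ} (w : α → α → ZMod q) (a : α → ZMod q) (d : α) (f : W → α)
    (e : Sym2 W) (l : List α) : Prop :=
  ∃ u v, e = s(u, v) ∧ Fit w a (hd d) (lt d) (f u) (f v) l

/-- The combinatorial core: the constants are given by their inequalities. -/
theorem MatchMain_core (q : ℕ) [NeZero q] (c Cf κ κ' γ₀ γY δ δ₀ c' : ℝ) (k : ℕ)
    (hc : 0 < c) (hc1 : c ≤ 1) (hCf : 0 < Cf) (hκ : 0 < κ) (hκ' : 0 < κ')
    (hγ₀ : γ₀ = c / (4 * Cf)) (hc' : c' = c / 5) (hγY : γY = c' / Cf)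
    (hκ1 : 16 * (q : ℝ) * κ * (4 * q) ≤ Real.sqrt γ₀)
    (hκ2 : 4 * (q : ℝ) ^ 2 * κ ^ 2 * Cf ≤ c / 4)
    (hκ'1 : 16 * (2 * (q : ℝ)) * κ' ≤ Real.sqrt γ₀)
    (hκ'2 : 1024 * (2 * (q : ℝ)) ^ 2 * κ' ≤ δ * Real.sqrt γY)
    (hδ₀ : 0 < δ₀) (hδ : δ₀ ≤ δ) (hδ1 : 8 * (4 * (q : ℝ)) * δ ≤ c / 4)
    (hk : 32 * (1 - 1 / (4 * (2 * (q : ℝ)) ^ 2)) ^ k ≤ δ₀)
    (C₀ : ℝ) (hrand : ∀ (α W ι : Type) [Fintype α] [Fintype W] (H : SimpleGraph W) (Bs : Finset α)
      (C : Finset ι) (Ms : (Fin k → ι) → α → α → Prop) (δ' : ℝ), δ₀ ≤ δ' →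
      (∀ U s s', Ms U s s' → Ms U s' s) → C₀ ≤ Bs.card → Fintype.card W ≤ Bs.card →
      C₀ * Fintype.card W ≤ (E H).card → 1 ≤ (E H).card → C.Nonempty →
      (∀ Y ⊆ C, c' * C.card ≤ Y.card →
        2 * ((Fintype.piFinset (fun _ : Fin k => Y)).filter fun U =>
          δ' / 8 * (Bs.card : ℝ) ^ 2
            < (((Bs ×ˢ Bs).filter fun p => Ms U p.1 p.2).card : ℝ)).card ≤ Y.card ^ k) →
      ∃ φ : W ↪ Bs, ∀ Y ⊆ C, c' * C.card ≤ Y.card →
        ∃ U ∈ Fintype.piFinset (fun _ : Fin k => Y),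
          ((hit H (fn φ) (Ms U)).card : ℝ) < δ' * (E H).card)
    (α W : Type) [Fintype α] [Fintype W] (w : α → α → ZMod q) (H : SimpleGraph W)
    (a : α → ZMod q) (d : α) (B B' : Finset α) (CC : Finset (List α))
    (hw : ∀ x y, w x y = w y x) (hβ : 4 * δ * Fintype.card α ≤ B.card)
    (hB'B : B' ⊆ B) (hB' : B'.Nonempty) (h8 : 8 * B'.card ≤ B.card)
    (hCB : Cell w κ B) (hCB' : Cell w κ' B') (hN : Near w κ B' B)
    (hp : ∀ y, (B.card : ℝ) ≤ q * cn w B y (a y))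
    (hch : ∀ l ∈ CC, IsChain w a d l ∧ ∀ x ∈ l, x ∉ B)
    (hdis : ∀ l ∈ CC, ∀ l' ∈ CC, l ≠ l' → ∀ x ∈ l, x ∉ l')
    (hCC : (1 + c) * (E H).card ≤ CC.card) (hf : (Fintype.card α : ℝ) ≤ Cf * (E H).card)
    (hm1 : 16 * (4 * (q : ℝ)) ≤ c * (E H).card)
    (hm2 : 2 * C₀ ≤ B'.card) (hm3 : 2 * (Fintype.card W : ℝ) ≤ B'.card)
    (hm4 : C₀ * Fintype.card W ≤ (E H).card) :
    HasModel w (EE H univ) univ (B ∪ CC.biUnion List.toFinset) := by
  have hq1 : (1 : ℝ) ≤ q := by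
    have := NeZero.pos q
    exact_mod_cast this
  set m : ℝ := ((E H).card : ℝ) with hm
  set f : ℝ := (Fintype.card α : ℝ) with hfdef
  have hB : B.Nonempty := hB'.mono hB'B
  have hne : ∀ l ∈ CC, l ≠ [] := fun l hl => (hch l hl).1.1
  have hδpos : 0 < δ := lt_of_lt_of_le hδ₀ hδ
  have hm0 : 0 < m := by
    have h1 : 0 < c * m := by linarith
    exact (pos_iff_pos_of_mul_pos h1).1 hc
  have hcm : 64 ≤ c * m := by linarith
  have hmN : 1 ≤ (E H).card := by
    have : (0 : ℝ) < ((E H).card : ℝ) := hm0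
    exact_mod_cast this
  -- the good chains
  set bad := CC.filter fun l => (2 * q : ℝ) * cn w B' (hd d l) (a (hd d l)) < B'.card ∨
      (2 * q : ℝ) * cn w B' (lt d l) (a (lt d l)) < B'.card with hbad
  have hbadc : (bad.card : ℝ) ≤ c / 4 * m := by
    have h1 := few_bad_chains hB hB' hN a d hp CC hne hdis
    rw [← hbad] at h1
    have h2 : 4 * (q : ℝ) ^ 2 * κ ^ 2 * f ≤ 4 * (q : ℝ) ^ 2 * κ ^ 2 * (Cf * m) := by
      apply mul_le_mul_of_nonneg_left hf; positivity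
    have h3 : 4 * (q : ℝ) ^ 2 * κ ^ 2 * Cf * m ≤ c / 4 * m := mul_le_mul_of_nonneg_right hκ2 hm0.le
    linarith
  set good := CC \ bad with hgood
  have hgsub : good ⊆ CC := sdiff_subset
  have hgoodc : (1 + 3 * c / 4) * m ≤ good.card := by
    have h1 : (CC.card : ℝ) = good.card + bad.card := by
      have : bad ⊆ CC := filter_subset _ _
      rw [hgood, card_sdiff_of_subset this, Nat.cast_sub (card_le_card this)]
      ring
    linarith
  have hgph : ∀ l ∈ good, (B'.card : ℝ) ≤ 2 * q * cn w B' (hd d l) (a (hd d l)) := by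
    intro l hl
    rw [hgood, mem_sdiff, hbad, mem_filter] at hl
    have h1 := hl.2
    push Not at h1
    exact (h1 hl.1).1
  have hgpz : ∀ l ∈ good, (B'.card : ℝ) ≤ 2 * q * cn w B' (lt d l) (a (lt d l)) := by
    intro l hl
    rw [hgood, mem_sdiff, hbad, mem_filter] at hl
    have h1 := hl.2
    push Not at h1
    exact (h1 hl.1).2
  -- the reserve
  have hceil : ⌈c / 4 * m⌉₊ ≤ good.card := by
    apply Nat.ceil_le.2
    linarith
  obtain ⟨Cz, hCzsub, hCzcard⟩ := exists_subset_card_eq hceil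
  set C₁ := good \ Cz with hC₁
  have hCz1 : c / 4 * m ≤ Cz.card := by
    rw [hCzcard]; exact Nat.le_ceil _
  have hCz2 : (Cz.card : ℝ) ≤ c / 4 * m + 1 := by
    rw [hCzcard]
    exact (Nat.ceil_lt_add_one (by positivity)).le
  have hC₁c : (1 + c / 4) * m ≤ C₁.card := by
    have h1 : (C₁.card : ℝ) = good.card - Cz.card := by
      rw [hC₁, card_sdiff_of_subset hCzsub, Nat.cast_sub (card_le_card hCzsub)]
    rw [h1]
    linarith
  have hC₁sub : C₁ ⊆ good := sdiff_subset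
  have hinjh : Set.InjOn (hd d) (CC : Set (List α)) := injOn_hd d CC hne hdis
  have hinjz : Set.InjOn (lt d) (CC : Set (List α)) := injOn_lt d CC hne hdis
  -- the typical vertices
  have hγ₀pos : 0 < γ₀ := by rw [hγ₀]; positivity
  have hγYpos : 0 < γY := by rw [hγY, hc']; positivity
  have hγCz : γ₀ * f ≤ Cz.card := by
    have h1 : γ₀ * f ≤ γ₀ * (Cf * m) := mul_le_mul_of_nonneg_left hf hγ₀pos.le
    have h2 : γ₀ * (Cf * m) = c / 4 * m := by
      rw [hγ₀]; field_simp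
    linarith
  set bh := B'.filter fun s => 2 * (2 * (q : ℝ)) *
    ((Cz.filter fun x => w s (hd d x) = a (hd d x)).card : ℝ) < Cz.card with hbh
  set bz := B'.filter fun s => 2 * (2 * (q : ℝ)) *
    ((Cz.filter fun x => w s (lt d x) = a (lt d x)).card : ℝ) < Cz.card with hbz
  have hCzCC : Cz ⊆ CC := hCzsub.trans hgsub
  have hbhc : 8 * bh.card ≤ B'.card :=
    typical hκ'.le hCB' hB' Cz (hd d) (hinjh.mono (by exact_mod_cast hCzCC)) a (2 * q) γ₀
      (by linarith) hγ₀pos (fun x hx => hgph x (hCzsub hx)) hγCz hκ'1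
  have hbzc : 8 * bz.card ≤ B'.card :=
    typical hκ'.le hCB' hB' Cz (lt d) (hinjz.mono (by exact_mod_cast hCzCC)) a (2 * q) γ₀
      (by linarith) hγ₀pos (fun x hx => hgpz x (hCzsub hx)) hγCz hκ'1
  set Bs := B' \ (bh ∪ bz) with hBs
  have hBssub : Bs ⊆ B' := sdiff_subset
  have hBsc : B'.card ≤ 2 * Bs.card := by
    have h1 := le_card_sdiff (bh ∪ bz) B'
    have h2 := card_union_le bh bz
    rw [← hBs] at h1
    omega
  have hBscR : (B'.card : ℝ) ≤ 2 * Bs.card := by exact_mod_cast hBsc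
  have hBstyp : ∀ s ∈ Bs, (Cz.card : ℝ) ≤ 4 * q *
        (Cz.filter fun x => w s (hd d x) = a (hd d x)).card ∧
      (Cz.card : ℝ) ≤ 4 * q * (Cz.filter fun x => w s (lt d x) = a (lt d x)).card := by
    intro s hs
    rw [hBs, mem_sdiff, mem_union, hbh, hbz, mem_filter, mem_filter] at hs
    obtain ⟨h1, h2⟩ := hs
    push Not at h2
    have h3 := h2.1 h1
    have h4 := h2.2 h1
    constructor <;> linarith
  -- the random embedding
  have hC₁ne : C₁.Nonempty := by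
    rw [← card_pos]
    have : (0 : ℝ) < C₁.card := by linarith
    exact_mod_cast this
  have hC₁CC : C₁ ⊆ CC := hC₁sub.trans hgsub
  obtain ⟨φ, hφ⟩ := hrand α W (List α) H Bs C₁ (fun U s s' => Miss w a (hd d) (lt d) U s s') δ hδ
    (fun U s s' h i => ⟨(h i).2, (h i).1⟩) (by linarith)
    (by
      have : (Fintype.card W : ℝ) ≤ Bs.card := by linarith
      exact_mod_cast this) hm4 hmN hC₁ne
    (fun Y hY hYc => by
      refine thin hκ' hCB' hB' Bs hBssub hBsc Y (hd d) (lt d)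
        (hinjh.mono (by exact_mod_cast hY.trans hC₁CC))
        (hinjz.mono (by exact_mod_cast hY.trans hC₁CC)) a (2 * q) γY δ (by linarith) hγYpos hδpos
        (fun x hx => hgph x (hC₁sub (hY hx))) (fun x hx => hgpz x (hC₁sub (hY hx))) ?_ hκ'2 k
        (hk.trans hδ)
      have h1 : γY * f ≤ γY * (Cf * m) := mul_le_mul_of_nonneg_left hf hγYpos.le
      have h2 : γY * (Cf * m) = c' * m := by
        rw [hγY]; field_simp
      have hc'pos : 0 < c' := by rw [hc']; positivity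
      have h3 : c' * m ≤ c' * C₁.card := by
        apply mul_le_mul_of_nonneg_left _ hc'pos.le
        linarith
      linarith)
  -- Hall
  have hmC : (E H).card ≤ C₁.card := by
    have : ((E H).card : ℝ) ≤ C₁.card := by
      change m ≤ _
      linarith
    exact_mod_cast this
  have hneL : Nonempty (List α) := ⟨[]⟩
  obtain ⟨A', hA', hA'c, ψ, hψ, hψ1⟩ := def_hall (E H) C₁
    (MatchMain_Ag w a d (fn φ))
    ⌊δ * m⌋₊ (C₁.card - (E H).card) (by omega)
    (fun Y hY hYc => by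
      have h1 : c' * C₁.card ≤ Y.card := by
        have h2 : ((C₁.card - (E H).card : ℕ) : ℝ) ≤ Y.card := by exact_mod_cast hYc
        rw [Nat.cast_sub hmC] at h2
        have h3 : c' * C₁.card ≤ (C₁.card : ℝ) - m := by
          rw [hc']
          have h4 : (1 + c / 4) * m ≤ C₁.card := hC₁c
          have h5 : (0 : ℝ) ≤ C₁.card := Nat.cast_nonneg _
          -- m ≤ (1 - c/5) |C₁|
          have h6 : m ≤ (1 - c / 5) * C₁.card := by
            have h7 : m ≤ (C₁.card : ℝ) / (1 + c / 4) := by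
              rw [le_div_iff₀ (by positivity)]; linarith
            have h8 : (C₁.card : ℝ) / (1 + c / 4) ≤ (1 - c / 5) * C₁.card := by
              rw [div_le_iff₀ (by positivity)]
              have h9 : 0 ≤ c * (1 - c) * C₁.card := by
                apply mul_nonneg (mul_nonneg hc.le (by linarith)) h5
              nlinarith
            linarith
          linarith
        linarith
      obtain ⟨U, hU, hUc⟩ := hφ Y hY h1
      apply Nat.le_floor
      refine (Nat.cast_le.2 (card_le_card ?_)).trans hUc.le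
      intro e he
      rw [mem_filter] at he
      rw [mem_hit]
      refine ⟨mem_E.1 he.1, ?_⟩
      induction e using Sym2.ind with
      | _ x y =>
        refine ⟨x, y, rfl, ?_⟩
        intro i
        have h3 := he.2 (U i) (Fintype.mem_piFinset.1 hU i)
        constructor
        · intro h4; exact h3 ⟨x, y, rfl, h4⟩
        · intro h4; exact h3 ⟨y, x, Sym2.eq_swap, h4⟩)
  -- the dropped edges
  have hfloor : ((E H \ A').card : ℝ) ≤ δ * m := by
    have h1 : ((E H \ A').card : ℝ) ≤ (⌊δ * m⌋₊ : ℝ) := by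
      have h2 : (E H \ A').card ≤ ⌊δ * m⌋₊ := by
        have aux : ∀ (i₁ i₂ : DecidableEq (Sym2 W)) (A₁ A₂ : Finset (Sym2 W)),
            (@SDiff.sdiff _ (@Finset.instSDiff _ i₁) A₁ A₂).card ≤
              (@SDiff.sdiff _ (@Finset.instSDiff _ i₂) A₁ A₂).card := by
          intro i₁ i₂ A₁ A₂
          rw [Subsingleton.elim i₁ i₂]
        exact (aux _ _ _ _).trans hA'c
      exact_mod_cast h2
    exact h1.trans (Nat.floor_le (by positivity))
  have hmf : m ≤ f := by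
    have h1 := card_chains_le CC hne hdis
    have h2 : (CC.card : ℝ) ≤ f := by
      rw [hfdef]; exact_mod_cast h1
    linarith
  obtain ⟨I', hI1, hI2⟩ := dropped hw hκ.le hB'B h8 hCB hB a d hp Cz
    (fun l hl => hch l (hCzCC hl)) (fun l hl l' hl' => hdis l (hCzCC hl) l' (hCzCC hl'))
    γ₀ (4 * q) hγ₀pos (by linarith) hγCz (by linarith) hκ1 (fn φ)
    (fun u => hBstyp _ (fn_mem φ u)) (E H \ A')
    (by
      have h1 : 8 * (4 * (q : ℝ)) * ((E H \ A').card : ℝ) ≤ 8 * (4 * (q : ℝ)) * (δ * m) :=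
        mul_le_mul_of_nonneg_left hfloor (by positivity)
      have h2 : 8 * (4 * (q : ℝ)) * δ * m ≤ c / 4 * m := mul_le_mul_of_nonneg_right hδ1 hm0.le
      linarith)
    (by
      have h1 : (4 : ℝ) * ((E H \ A').card : ℝ) ≤ B.card := by
        have h2 : δ * m ≤ δ * f := mul_le_mul_of_nonneg_left hmf hδpos.le
        linarith
      exact_mod_cast h1)
  exact match_model hw H hB'B a d CC Cz C₁ hCzCC hC₁CC
    (disjoint_sdiff) hch hdis (fn φ) (fn_inj φ)
    (fun u => hBssub (fn_mem φ u)) A' hA' ψ hψ hψ1 I' hI1 hI2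

theorem matching_main (q : ℕ) [NeZero q] (c Cf : ℝ) (hc : 0 < c) (hCf : 0 < Cf) :
    ∃ κ : ℝ, 0 < κ ∧ ∃ g : ℝ → ℝ, (∀ β, 0 < β → 0 < g β) ∧ ∀ β₀ : ℝ, 0 < β₀ → ∃ C₀ : ℝ,
      ∀ (α W : Type) [Fintype α] [Fintype W] (w : α → α → ZMod q) (H : SimpleGraph W)
        (a : α → ZMod q) (d : α) (B B' : Finset α) (β : ℝ) (CC : Finset (List α)),
        (∀ x y, w x y = w y x) → β₀ ≤ β → β * Fintype.card α ≤ B.card →
        β₀ * Fintype.card α ≤ B'.card → B' ⊆ B → B'.Nonempty → 8 * B'.card ≤ B.card →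
        Cell w κ B → Cell w (g β) B' → Near w κ B' B →
        (∀ y, (B.card : ℝ) ≤ q * cn w B y (a y)) →
        (∀ l ∈ CC, IsChain w a d l ∧ ∀ x ∈ l, x ∉ B) →
        (∀ l ∈ CC, ∀ l' ∈ CC, l ≠ l' → ∀ x ∈ l, x ∉ l') →
        (1 + c) * (E H).card ≤ CC.card → (Fintype.card α : ℝ) ≤ Cf * (E H).card →
        C₀ * Fintype.card W ≤ (E H).card →
        HasModel w (EE H univ) univ (B ∪ CC.biUnion List.toFinset) := by
  have hq1 : (1 : ℝ) ≤ q := by
    have := NeZero.pos q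
    exact_mod_cast this
  have hq0 : (0 : ℝ) < q := by linarith
  set c1 := min c 1 with hc1def
  have hc1 : 0 < c1 := lt_min hc one_pos
  have hc1le : c1 ≤ 1 := min_le_right _ _
  set γ₀ := c1 / (4 * Cf) with hγ₀
  set c' := c1 / 5 with hc'
  set γY := c' / Cf with hγY
  have hγ₀pos : 0 < γ₀ := by rw [hγ₀]; positivity
  have hc'pos : 0 < c' := by rw [hc']; positivity
  have hγYpos : 0 < γY := by rw [hγY]; positivity
  have hs0 : 0 < Real.sqrt γ₀ := Real.sqrt_pos.2 hγ₀pos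
  have hsY : 0 < Real.sqrt γY := Real.sqrt_pos.2 hγYpos
  set κ := min (Real.sqrt γ₀ / (16 * q * (4 * q))) (Real.sqrt (c1 / (16 * q ^ 2 * Cf))) with hκ
  have hκpos : 0 < κ := by
    rw [hκ]
    apply lt_min
    · positivity
    · apply Real.sqrt_pos.2; positivity
  set dl : ℝ → ℝ := fun β => min (c1 / (32 * (4 * q))) (β / 4) with hdl
  have hdlpos : ∀ β, 0 < β → 0 < dl β := by
    intro β hβ
    rw [hdl]
    exact lt_min (by positivity) (by positivity)
  set g : ℝ → ℝ := fun β => min (Real.sqrt γ₀ / (16 * (2 * q)))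
    (dl β * Real.sqrt γY / (1024 * (2 * q) ^ 2)) with hg
  have hgpos : ∀ β, 0 < β → 0 < g β := by
    intro β hβ
    have := hdlpos β hβ
    rw [hg]
    exact lt_min (by positivity) (by positivity)
  refine ⟨κ, hκpos, g, hgpos, ?_⟩
  intro β₀ hβ₀
  have hd0 := hdlpos β₀ hβ₀
  -- k
  obtain ⟨k, hk⟩ : ∃ k : ℕ, (1 - 1 / (4 * (2 * (q : ℝ)) ^ 2)) ^ k < dl β₀ / 32 := by
    apply exists_pow_lt_of_lt_one (by positivity)
    have : 0 < 1 / (4 * (2 * (q : ℝ)) ^ 2) := by positivity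
    linarith
  obtain ⟨Cr, hCr⟩ := rand_emb k c' (dl β₀) hc'pos (by rw [hc']; linarith) hd0
  refine ⟨max (max (2 * Cr / β₀) (2 / β₀)) (max Cr (16 * (4 * q) / c1)), ?_⟩
  intro α W _ _ w H a d B B' β CC hw hββ hBβ hB'β hB'B hB' h8 hCB hCB' hN hp hch hdis hCC hf hmC
  set C₀ := max (max (2 * Cr / β₀) (2 / β₀)) (max Cr (16 * (4 * q) / c1)) with hC₀
  have hβ : 0 < β := lt_of_lt_of_le hβ₀ hββ
  have hfpos : (0 : ℝ) < Fintype.card α := by
    obtain ⟨x, -⟩ := hB'
    have : 0 < Fintype.card α := Fintype.card_pos_iff.2 ⟨x⟩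
    exact_mod_cast this
  have hmpos : (0 : ℝ) < ((E H).card : ℝ) := by
    by_contra hcon
    push Not at hcon
    have h1 : Cf * ((E H).card : ℝ) ≤ 0 := mul_nonpos_of_nonneg_of_nonpos hCf.le hcon
    linarith
  have hW : (1 : ℝ) ≤ Fintype.card W := by
    have h1 : 0 < (E H).card := by exact_mod_cast hmpos
    obtain ⟨e, he⟩ := card_pos.1 h1
    induction e using Sym2.ind with
    | _ x y =>
      have : 0 < Fintype.card W := Fintype.card_pos_iff.2 ⟨x⟩
      exact_mod_cast this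
  have hb1 : 2 * Cr / β₀ ≤ C₀ := (le_max_left _ _).trans (le_max_left _ _)
  have hb2 : 2 / β₀ ≤ C₀ := (le_max_right _ _).trans (le_max_left _ _)
  have hb3 : Cr ≤ C₀ := (le_max_left _ _).trans (le_max_right _ _)
  have hb4 : 16 * (4 * q) / c1 ≤ C₀ := (le_max_right _ _).trans (le_max_right _ _)
  have hC₀pos : 0 < C₀ := lt_of_lt_of_le (by positivity) hb2
  have hC₀m : C₀ ≤ ((E H).card : ℝ) := by
    have h1 : C₀ * 1 ≤ C₀ * (Fintype.card W : ℝ) := mul_le_mul_of_nonneg_left hW hC₀pos.le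
    linarith
  have hCC1 : (1 + c1) * ((E H).card : ℝ) ≤ CC.card := by
    have h1 : c1 * ((E H).card : ℝ) ≤ c * (E H).card :=
      mul_le_mul_of_nonneg_right (min_le_left _ _) hmpos.le
    linarith
  have hmf : ((E H).card : ℝ) ≤ Fintype.card α := by
    have h1 := card_chains_le CC (fun l hl => (hch l hl).1.1) hdis
    have h2 : (CC.card : ℝ) ≤ Fintype.card α := by exact_mod_cast h1
    have h3 : 0 < c1 * ((E H).card : ℝ) := mul_pos hc1 hmpos
    linarith
  have hdmono : dl β₀ ≤ dl β := by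
    rw [hdl]
    exact min_le_min le_rfl (by linarith)
  have hdl1 : dl β ≤ c1 / (32 * (4 * q)) := min_le_left _ _
  have hdl2 : dl β ≤ β / 4 := min_le_right _ _
  refine MatchMain_core q c1 Cf κ (g β) γ₀ γY (dl β) (dl β₀) c' k hc1 hc1le hCf hκpos
    (hgpos β hβ) rfl rfl rfl ?_ ?_ ?_ ?_ hd0 hdmono ?_ ?_ Cr hCr α W w H a d B B' CC hw ?_ hB'B hB'
    h8 hCB hCB' hN hp hch hdis hCC1 hf ?_ ?_ ?_ ?_
  · have h1 : κ ≤ Real.sqrt γ₀ / (16 * q * (4 * q)) := min_le_left _ _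
    rw [le_div_iff₀ (by positivity)] at h1
    linarith
  · have h1 : κ ≤ Real.sqrt (c1 / (16 * q ^ 2 * Cf)) := min_le_right _ _
    have h2 : κ ^ 2 ≤ c1 / (16 * q ^ 2 * Cf) := by
      calc κ ^ 2 ≤ Real.sqrt (c1 / (16 * q ^ 2 * Cf)) ^ 2 := pow_le_pow_left₀ hκpos.le h1 2
        _ = _ := Real.sq_sqrt (by positivity)
    rw [le_div_iff₀ (by positivity)] at h2
    linarith
  · have h1 : g β ≤ Real.sqrt γ₀ / (16 * (2 * q)) := min_le_left _ _
    rw [le_div_iff₀ (by positivity)] at h1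
    linarith
  · have h1 : g β ≤ dl β * Real.sqrt γY / (1024 * (2 * q) ^ 2) := min_le_right _ _
    rw [le_div_iff₀ (by positivity)] at h1
    linarith
  · rw [le_div_iff₀ (by positivity)] at hdl1
    linarith
  · linarith
  · have h1 : 4 * dl β * (Fintype.card α : ℝ) ≤ β * Fintype.card α := by
      apply mul_le_mul_of_nonneg_right _ hfpos.le
      linarith
    linarith
  · have h1 : 16 * (4 * (q : ℝ)) / c1 ≤ ((E H).card : ℝ) := hb4.trans hC₀m
    rw [div_le_iff₀ hc1] at h1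
    linarith
  · have h1 : 2 * Cr / β₀ ≤ (Fintype.card α : ℝ) := (hb1.trans hC₀m).trans hmf
    rw [div_le_iff₀ hβ₀] at h1
    linarith
  · have h1 : 2 / β₀ * (Fintype.card W : ℝ) ≤ Fintype.card α := by
      have h2 : 2 / β₀ * (Fintype.card W : ℝ) ≤ C₀ * Fintype.card W :=
        mul_le_mul_of_nonneg_right hb2 (by linarith)
      linarith
    have h2 : 2 * (Fintype.card W : ℝ) ≤ β₀ * Fintype.card α := by
      have h3 : β₀ * (2 / β₀ * (Fintype.card W : ℝ)) ≤ β₀ * Fintype.card α :=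
        mul_le_mul_of_nonneg_left h1 hβ₀.le
      have h4 : β₀ * (2 / β₀ * (Fintype.card W : ℝ)) = 2 * (Fintype.card W : ℝ) := by
        field_simp
      linarith
    linarith
  · have h2 : Cr * (Fintype.card W : ℝ) ≤ C₀ * Fintype.card W :=
        mul_le_mul_of_nonneg_right hb3 (by linarith)
    linarith

end MP0dbebe.CQ
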