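import Pool.Agent.Lib.MP_0dbebe_co.OneSub.Energy

/-!
# PARTS: cut a set into cells, up to a small rest

PROOF. Fix `K₁, J` with `2 ≤ κ K₁`, `1 ≤ J κ ^ 2` (as in `OneSub.energy_abstract`), `K = K₁ ^ J`, so
that every nonempty `I` contains a cell `P` with `|I| ≤ K |P|` (`OneSub.energy_iter`; its energy
hypothesis holds because `1 - ‖.‖ ^ 2 ≤ 1 ≤ J κ ^ 2`). Put `c = min (ε') (1 / (2 T)) / K`.
Take a maximal (by cardinality, or use strong induction on the size of the rest) family `Ps` of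
pairwise disjoint cells in `B` with `c |B| ≤ |P|` and `T |P| ≤ |B|`. If the rest
`R = B \ (union)` had more than `ε' |B|` elements, choose `I ⊆ R` with
`|I| = min |R| (|B| / T)` (natural division; at least `1`, and at least
`min (ε' |B|) (|B| / (2 T))` because `T ≤ |B|`), a cell `P ⊆ I` with `|I| ≤ K |P|`, and add it:
contradiction. Simplest formalisation: the set of admissible families is a finite set of finsets of
finsets (subsets of `B.powerset`), nonempty (the empty family), take one with `∑ |P|` maximal.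
-/

set_option autoImplicit false
set_option linter.unusedSectionVars false

namespace MP0dbebe.CQ

open Finset
open scoped Classical

/-- `B` is a `κ`-cell for the vectors `r`. -/
def RC {ι F : Type} [NormedAddCommGroup F] [InnerProductSpace ℝ F] (r : ι → F) (κ : ℝ)
    (B : Finset ι) : Prop :=
  ∀ L ⊆ B, ‖∑ u ∈ L, r u
    - (L.card : ℝ) • Pool.Agent.Lib.MP_0dbebe_co.OneSub.meanVec r B‖ ≤ κ * B.card

theorem exists_cell (κ : ℝ) (hκ : 0 < κ) : ∃ K : ℕ, 1 ≤ K ∧ ∀ (ι F : Type)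
    [NormedAddCommGroup F] [InnerProductSpace ℝ F] (r : ι → F), (∀ u, ‖r u‖ ≤ 1) →
    ∀ I : Finset ι, I.Nonempty → ∃ P ⊆ I, P.Nonempty ∧ RC r κ P ∧ I.card ≤ K * P.card := by
  obtain ⟨K₁, hK₁⟩ := exists_nat_ge (2 / κ)
  obtain ⟨J, hJ⟩ := exists_nat_ge (1 / κ ^ 2)
  have hK : 2 ≤ κ * K₁ := by
    rw [div_le_iff₀ hκ] at hK₁; linarith
  have hJ' : 1 ≤ J * κ ^ 2 := by
    rwa [div_le_iff₀ (by positivity)] at hJ
  have hK1 : 1 ≤ K₁ := by
    rcases Nat.eq_zero_or_pos K₁ with h | h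
    · subst h; norm_num at hK
    · exact h
  refine ⟨K₁ ^ J, Nat.one_le_pow _ _ hK1, ?_⟩
  intro ι F _ _ r hr I hI
  obtain ⟨B, h1, h2, h3, h4⟩ := Pool.Agent.Lib.MP_0dbebe_co.OneSub.energy_iter r hr κ hκ K₁ hK J I
    hI (by
      have := sq_nonneg ‖Pool.Agent.Lib.MP_0dbebe_co.OneSub.meanVec r I‖
      linarith)
  exact ⟨B, h1, h2, h4, h3⟩

theorem exists_parts (κ ε' : ℝ) (hκ : 0 < κ) (hε' : 0 < ε') (T : ℕ) (hT : 1 ≤ T) :
    ∃ c : ℝ, 0 < c ∧ ∀ (ι F : Type) [NormedAddCommGroup F] [InnerProductSpace ℝ F] (r : ι → F),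
      (∀ u, ‖r u‖ ≤ 1) → ∀ B : Finset ι, T ≤ B.card →
      ∃ Ps : Finset (Finset ι), (∀ P ∈ Ps, P ⊆ B ∧ P.Nonempty ∧ RC r κ P ∧
        c * B.card ≤ P.card ∧ T * P.card ≤ B.card) ∧
        (∀ P ∈ Ps, ∀ P' ∈ Ps, P ≠ P' → Disjoint P P') ∧
        (1 - ε') * B.card ≤ ∑ P ∈ Ps, (P.card : ℝ) := by
  obtain ⟨K, hK, hcell⟩ := exists_cell κ hκ
  have hT0 : (0 : ℝ) < T := by exact_mod_cast hT
  have hK0 : (0 : ℝ) < K := by exact_mod_cast hK
  have hm0 : 0 < min ε' (1 / (2 * (T : ℝ))) := lt_min hε' (by positivity)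
  refine ⟨min ε' (1 / (2 * (T : ℝ))) / K, div_pos hm0 hK0, ?_⟩
  intro ι F _ _ r hr B hTB
  have hB0 : (0 : ℝ) < B.card := by
    have : 0 < B.card := lt_of_lt_of_le hT hTB
    exact_mod_cast this
  set c : ℝ := min ε' (1 / (2 * (T : ℝ))) / K with hc
  let Adm : Finset (Finset ι) → Prop := fun Ps =>
    (∀ P ∈ Ps, P ⊆ B ∧ P.Nonempty ∧ RC r κ P ∧ c * B.card ≤ P.card ∧ T * P.card ≤ B.card) ∧
      (∀ P ∈ Ps, ∀ P' ∈ Ps, P ≠ P' → Disjoint P P')
  have hne : ((B.powerset).powerset.filter Adm).Nonempty := by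
    refine ⟨∅, ?_⟩
    rw [mem_filter]
    refine ⟨by simp, ?_, ?_⟩
    · intro P hP; exact absurd hP (notMem_empty _)
    · intro P hP; exact absurd hP (notMem_empty _)
  obtain ⟨Ps, hPs, hmax⟩ := exists_max_image _ (fun Ps : Finset (Finset ι) => ∑ P ∈ Ps, P.card) hne
  rw [mem_filter] at hPs
  obtain ⟨-, hA, hD⟩ := hPs
  refine ⟨Ps, hA, hD, ?_⟩
  by_contra hcon
  push Not at hcon
  have hU : (Ps.biUnion id) ⊆ B := by
    intro x hx
    rw [mem_biUnion] at hx
    obtain ⟨P, hP, hx⟩ := hx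
    exact (hA P hP).1 hx
  have hUc : (Ps.biUnion id).card = ∑ P ∈ Ps, P.card := by
    rw [card_biUnion]
    · rfl
    · intro P hP P' hP' hPP
      exact hD P hP P' hP' hPP
  have hRc : ((B \ Ps.biUnion id).card : ℝ) = B.card - ∑ P ∈ Ps, (P.card : ℝ) := by
    rw [card_sdiff_of_subset hU, Nat.cast_sub (card_le_card hU), hUc]
    push_cast
    ring
  have hR : ε' * B.card < ((B \ Ps.biUnion id).card : ℝ) := by
    rw [hRc]
    linarith
  have hR1 : 1 ≤ (B \ Ps.biUnion id).card := by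
    have : (0 : ℝ) < ((B \ Ps.biUnion id).card : ℝ) := lt_trans (mul_pos hε' hB0) hR
    exact_mod_cast this
  have hq1 : 1 ≤ B.card / T := (Nat.one_le_div_iff hT).2 hTB
  obtain ⟨I, hI, hIc⟩ := exists_subset_card_eq
    (min_le_left (B \ Ps.biUnion id).card (B.card / T))
  have hIne : I.Nonempty := by
    rw [← card_pos, hIc]
    exact lt_min hR1 hq1
  obtain ⟨P, hPI, hPne, hPRC, hPK⟩ := hcell ι F r hr I hIne
  have hPR : P ⊆ B \ Ps.biUnion id := hPI.trans hI
  have hPB : P ⊆ B := hPR.trans sdiff_subset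
  have hIlow : min ε' (1 / (2 * (T : ℝ))) * B.card ≤ I.card := by
    rw [hIc]
    rcases le_total (B \ Ps.biUnion id).card (B.card / T) with h | h
    · rw [min_eq_left h]
      have := mul_le_mul_of_nonneg_right (min_le_left ε' (1 / (2 * (T : ℝ)))) hB0.le
      linarith
    · rw [min_eq_right h]
      have h1 := mul_le_mul_of_nonneg_right (min_le_right ε' (1 / (2 * (T : ℝ)))) hB0.le
      have h2 : B.card ≤ 2 * T * (B.card / T) := by
        have h3 := Nat.div_add_mod B.card T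
        have h4 := Nat.mod_lt B.card hT
        have h5 : T * 1 ≤ T * (B.card / T) := Nat.mul_le_mul_left _ hq1
        nlinarith
      have h6 : (B.card : ℝ) ≤ 2 * T * ((B.card / T : ℕ) : ℝ) := by exact_mod_cast h2
      have h7 : 1 / (2 * (T : ℝ)) * B.card ≤ ((B.card / T : ℕ) : ℝ) := by
        rw [one_div, inv_mul_le_iff₀ (by positivity)]
        exact h6
      linarith
  have hPlow : c * B.card ≤ P.card := by
    have h1 : (I.card : ℝ) ≤ K * P.card := by exact_mod_cast hPK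
    rw [hc, div_mul_eq_mul_div, div_le_iff₀ hK0]
    linarith
  have hPup : T * P.card ≤ B.card := by
    have h1 : P.card ≤ B.card / T := by
      refine (card_le_card hPI).trans ?_
      rw [hIc]
      exact min_le_right _ _
    calc T * P.card ≤ T * (B.card / T) := Nat.mul_le_mul_left _ h1
      _ ≤ B.card := Nat.mul_div_le _ _
  have hdis : ∀ P' ∈ Ps, Disjoint P P' := by
    intro P' hP'
    rw [disjoint_left]
    intro x hx hx'
    have h1 := hPR hx
    rw [mem_sdiff] at h1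
    exact h1.2 (mem_biUnion.2 ⟨P', hP', hx'⟩)
  have hPn : P ∉ Ps := by
    intro h
    have h1 := hdis P h
    rw [disjoint_self_iff_empty] at h1
    exact hPne.ne_empty h1
  have hnew : insert P Ps ∈ (B.powerset).powerset.filter Adm := by
    rw [mem_filter]
    refine ⟨?_, ?_, ?_⟩
    · rw [mem_powerset]
      intro Q hQ
      rw [mem_powerset]
      rcases mem_insert.1 hQ with h | h
      · rw [h]; exact hPB
      · exact (hA Q h).1
    · intro Q hQ
      rcases mem_insert.1 hQ with h | h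
      · rw [h]; exact ⟨hPB, hPne, hPRC, hPlow, hPup⟩
      · exact hA Q h
    · intro Q hQ Q' hQ' hne'
      rcases mem_insert.1 hQ with h | h <;> rcases mem_insert.1 hQ' with h' | h'
      · exact absurd (h.trans h'.symm) hne'
      · rw [h]; exact hdis Q' h'
      · rw [h']; exact (hdis Q h).symm
      · exact hD Q h Q' h' hne'
  have h1 := hmax _ hnew
  simp only [sum_insert hPn] at h1
  have h2 := hPne.card_pos
  omega

end MP0dbebe.CQ
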