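import Pool.Agent.Lib.MP_0dbebe_co.CQ.Dropped

/-!
# SELECT: chains whose ends are popular in the fine cell

PROOF of `few_unpopular`. If `2 q cn w B' y (a y) < |B'|` then
`cn w B y (a y) / |B| - cn w B' y (a y) / |B'| ≥ 1 / q - 1 / (2 q) = 1 / (2 q)`, so the summand
`(y, a y)` of `Near` is at least `1 / (4 q ^ 2)`; there are at most `4 q ^ 2 κ ^ 2 |α|` such `y`.

PROOF of `few_bad_chains`. A bad chain contains a bad vertex `y` (its first or last vertex);
different chains are disjoint, so there are at most as many bad chains as bad vertices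
(`Finset.card_le_card_of_injOn` with the map chain to bad vertex).
-/

set_option autoImplicit false

namespace MP0dbebe.CQ

open Finset
open scoped Classical

theorem select_hd_mem {α : Type} {d : α} {l : List α} (h : l ≠ []) : hd d l ∈ l := by
  unfold hd
  cases l with
  | nil => exact absurd rfl h
  | cons x t => simp

theorem select_lt_mem {α : Type} {d : α} {l : List α} (h : l ≠ []) : lt d l ∈ l := by
  unfold lt
  rw [List.getLastD_eq_getLast?, List.getLast?_eq_some_getLast h]
  simp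

theorem few_unpopular {α : Type} [Fintype α] {q : ℕ} [NeZero q] {w : α → α → ZMod q} {κ : ℝ}
    {B B' : Finset α} (hB : B.Nonempty) (hB' : B'.Nonempty) (hN : Near w κ B' B)
    (a : α → ZMod q) (hp : ∀ y, (B.card : ℝ) ≤ q * cn w B y (a y)) :
    ((univ.filter fun y : α => (2 * q : ℝ) * cn w B' y (a y) < B'.card).card : ℝ)
      ≤ 4 * (q : ℝ) ^ 2 * κ ^ 2 * Fintype.card α := by
  have hq : (0 : ℝ) < q := by exact_mod_cast Nat.pos_of_ne_zero (NeZero.ne q)
  have hb : (0 : ℝ) < B.card := by exact_mod_cast hB.card_pos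
  have hb' : (0 : ℝ) < B'.card := by exact_mod_cast hB'.card_pos
  set F := univ.filter fun y : α => (2 * q : ℝ) * cn w B' y (a y) < B'.card with hF
  have h1 : ∀ y ∈ F, 1 / (4 * (q : ℝ) ^ 2) ≤ ∑ c : ZMod q,
      ((cn w B' y c : ℝ) / B'.card - (cn w B y c : ℝ) / B.card) ^ 2 := by
    intro y hy
    have hy2 : (2 * q : ℝ) * cn w B' y (a y) < B'.card := (mem_filter.mp hy).2
    have e1 : (cn w B' y (a y) : ℝ) / B'.card < 1 / (2 * q) := by
      rw [div_lt_div_iff₀ hb' (by positivity)]
      linarith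
    have e2 : 1 / (q : ℝ) ≤ (cn w B y (a y) : ℝ) / B.card := by
      rw [div_le_div_iff₀ hq hb]
      have := hp y
      linarith
    have e3 : 1 / (q : ℝ) = 1 / (2 * q) + 1 / (2 * q) := by
      field_simp
      norm_num
    have e4 : (0 : ℝ) < 1 / (2 * q) := by positivity
    have e5 : 1 / (4 * (q : ℝ) ^ 2) = (1 / (2 * (q : ℝ))) ^ 2 := by
      field_simp
      norm_num
    have e6 : (1 / (2 * (q : ℝ))) ^ 2 ≤
        ((cn w B' y (a y) : ℝ) / B'.card - (cn w B y (a y) : ℝ) / B.card) ^ 2 := by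
      nlinarith
    rw [e5]
    exact e6.trans (Finset.single_le_sum
      (f := fun c => ((cn w B' y c : ℝ) / B'.card - (cn w B y c : ℝ) / B.card) ^ 2)
      (fun c _ => sq_nonneg _) (Finset.mem_univ (a y)))
  have h2 : (F.card : ℝ) * (1 / (4 * (q : ℝ) ^ 2)) ≤ κ ^ 2 * Fintype.card α := by
    calc (F.card : ℝ) * (1 / (4 * (q : ℝ) ^ 2)) = ∑ _y ∈ F, 1 / (4 * (q : ℝ) ^ 2) := by
          rw [Finset.sum_const, nsmul_eq_mul]
      _ ≤ ∑ y ∈ F, ∑ c : ZMod q,
          ((cn w B' y c : ℝ) / B'.card - (cn w B y c : ℝ) / B.card) ^ 2 := Finset.sum_le_sum h1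
      _ ≤ ∑ y : α, ∑ c : ZMod q,
          ((cn w B' y c : ℝ) / B'.card - (cn w B y c : ℝ) / B.card) ^ 2 :=
          Finset.sum_le_sum_of_subset_of_nonneg (Finset.subset_univ _)
            (fun y _ _ => Finset.sum_nonneg fun c _ => sq_nonneg _)
      _ ≤ κ ^ 2 * Fintype.card α := hN
  have h3 : (F.card : ℝ) = (F.card : ℝ) * (1 / (4 * (q : ℝ) ^ 2)) * (4 * (q : ℝ) ^ 2) := by
    field_simp
  rw [h3]
  have h4 := mul_le_mul_of_nonneg_right h2 (by positivity : (0 : ℝ) ≤ 4 * (q : ℝ) ^ 2)
  linarith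

theorem few_bad_chains {α : Type} [Fintype α] {q : ℕ} [NeZero q] {w : α → α → ZMod q} {κ : ℝ}
    {B B' : Finset α} (hB : B.Nonempty) (hB' : B'.Nonempty) (hN : Near w κ B' B)
    (a : α → ZMod q) (d : α) (hp : ∀ y, (B.card : ℝ) ≤ q * cn w B y (a y)) (CC : Finset (List α))
    (hne : ∀ l ∈ CC, l ≠ []) (hdis : ∀ l ∈ CC, ∀ l' ∈ CC, l ≠ l' → ∀ x ∈ l, x ∉ l') :
    ((CC.filter fun l => (2 * q : ℝ) * cn w B' (hd d l) (a (hd d l)) < B'.card ∨
      (2 * q : ℝ) * cn w B' (lt d l) (a (lt d l)) < B'.card).card : ℝ)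
      ≤ 4 * (q : ℝ) ^ 2 * κ ^ 2 * Fintype.card α := by
  refine le_trans ?_ (few_unpopular hB hB' hN a hp)
  rw [Nat.cast_le]
  refine Finset.card_le_card_of_injOn
    (fun l => if (2 * q : ℝ) * cn w B' (hd d l) (a (hd d l)) < B'.card then hd d l else lt d l)
    ?_ ?_
  · intro l hl
    have hl2 := (Finset.mem_filter.mp (Finset.mem_coe.mp hl)).2
    rw [Finset.mem_coe, Finset.mem_filter]
    refine ⟨Finset.mem_univ _, ?_⟩
    dsimp only
    split_ifs with h
    · exact h
    · exact hl2.resolve_left h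
  · intro l hl l' hl' heq
    have hl1 := (Finset.mem_filter.mp (Finset.mem_coe.mp hl)).1
    have hl1' := (Finset.mem_filter.mp (Finset.mem_coe.mp hl')).1
    by_contra hne'
    have key : ∀ m : List α, m ≠ [] → (fun l => if (2 * q : ℝ) * cn w B' (hd d l) (a (hd d l)) <
        B'.card then hd d l else lt d l) m ∈ m := by
      intro m hm
      dsimp only
      split_ifs
      · exact select_hd_mem hm
      · exact select_lt_mem hm
    have k1 := key l (hne l hl1)
    have k2 := key l' (hne l' hl1')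
    rw [← heq] at k2
    exact hdis l hl1 l' hl1' hne' _ k1 k2

/-- Disjoint nonempty chains are at most as many as the vertices. -/
theorem card_chains_le {α : Type} [Fintype α] (CC : Finset (List α))
    (hne : ∀ l ∈ CC, l ≠ []) (hdis : ∀ l ∈ CC, ∀ l' ∈ CC, l ≠ l' → ∀ x ∈ l, x ∉ l') :
    CC.card ≤ Fintype.card α := by
  rcases isEmpty_or_nonempty α with hα | ⟨⟨d⟩⟩
  · have : CC = ∅ := by
      rw [Finset.eq_empty_iff_forall_notMem]
      intro l hl
      cases l with
      | nil => exact hne _ hl rfl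
      | cons x t => exact hα.elim x
    rw [this, Finset.card_empty]
    exact Nat.zero_le _
  · rw [← Finset.card_univ]
    refine Finset.card_le_card_of_injOn (fun l => hd d l) (fun l _ => Finset.mem_coe.mpr (Finset.mem_univ _)) ?_
    intro l hl l' hl' heq
    by_contra hne'
    have k1 := select_hd_mem (d := d) (hne l hl)
    have k2 := select_hd_mem (d := d) (hne l' hl')
    dsimp only at heq
    rw [← heq] at k2
    exact hdis l hl l' hl' hne' _ k1 k2

end MP0dbebe.CQ
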