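import Pool.Agent.Lib.MP_0dbebe_co.CQ.CellIneq

/-!
# TYPICAL: most vertices of a cell agree with many indices; pairs that fit few indices are few

PROOF of `typical`. Let `L` be the set on the left. Every `s ∈ L` agrees with less than
`|C| / (2 Q)` indices, so `∑ x ∈ C, |{s ∈ L : agree}| ≤ |L| |C| / (2 Q)` (double counting), and
`cell_lower_index` gives `|L| |C| / (2 Q) ≤ κ |B| sqrt (|α| |C|)`. As `|C| ≥ γ |α|`,
`sqrt (|α| |C|) ≤ |C| / sqrt γ`, so `|L| ≤ 2 Q κ |B| / sqrt γ ≤ |B| / 8` (if `|C| > 0`; if `C` is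
empty then `L` is empty).

PROOF of `dense_pairs`. Suppose `|G| > δ |B| ^ 2`. For `s ∈ B` let `G s = {s' : (s, s') ∈ G}`, let
`A` be the set of `s ∈ B` with `|G s| ≥ (δ / 2) |B|`; then `|A| ≥ (δ / 2) |B|`
(`|G| ≤ |A| |B| + |B| (δ / 2) |B|`). Put `C s = {x ∈ C : w s (h x) = a (h x)}`. For `s ∈ A`:
`∑_{x ∈ C s} |{s' ∈ G s : w s' (z x) = a (z x)}| = ∑_{s' ∈ G s} |{x ∈ C : Fit s s' x}| ≤
|G s| |C| / (4 Q ^ 2)`; by `cell_lower_index` (with `L = G s`, index set `C s`, columns `z x`) it is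
at least `|G s| |C s| / Q - κ |B| sqrt (|α| |C s|)`. So
`|C s| ≤ |C| / (4 Q) + Q κ (|B| / |G s|) |C| / sqrt γ ≤ |C| (1 / (4 Q) + 2 Q κ / (δ sqrt γ)) ≤
|C| / (2 Q)`, because `8 Q ^ 2 κ ≤ δ sqrt γ`. Sum over `s ∈ A` and use `cell_lower_index` with
`L = A`, columns `h x`: `|A| |C| / Q - κ |B| |C| / sqrt γ ≤ ∑_{s ∈ A} |C s| ≤ |A| |C| / (2 Q)`, so
`|A| / (2 Q) ≤ κ |B| / sqrt γ`, `δ / (4 Q) ≤ κ / sqrt γ ≤ δ / (8 Q ^ 2)`: a contradiction
for `Q ≥ 1` (everything is positive; `|C| > 0` because `γ |α| > 0`).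
-/

set_option autoImplicit false

namespace MP0dbebe.CQ

open Finset
open scoped Classical

theorem Typical_sqrt {A c γ : ℝ} (hγ : 0 < γ) (hc : 0 ≤ c) (h : γ * A ≤ c) :
    Real.sqrt (A * c) ≤ c / Real.sqrt γ := by
  have hr : 0 < Real.sqrt γ := Real.sqrt_pos.2 hγ
  rw [Real.sqrt_le_iff]
  refine ⟨by positivity, ?_⟩
  rw [div_pow, Real.sq_sqrt hγ.le, le_div_iff₀ hγ]
  nlinarith

theorem Typical_comm {α ι : Type} (L : Finset α) (C : Finset ι) (R : α → ι → Prop)
    [∀ s x, Decidable (R s x)] :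
    ∑ x ∈ C, ((L.filter fun s => R s x).card : ℝ) =
      ∑ s ∈ L, ((C.filter fun x => R s x).card : ℝ) := by
  simp only [Finset.card_filter, Nat.cast_sum]
  exact Finset.sum_comm

theorem typical {α ι : Type} [Fintype α] {q : ℕ} [NeZero q] {w : α → α → ZMod q} {κ : ℝ}
    (hκ : 0 ≤ κ) {B : Finset α} (hC : Cell w κ B) (hB : B.Nonempty)
    (C : Finset ι) (h : ι → α) (hh : Set.InjOn h (C : Set ι)) (a : α → ZMod q) (Q γ : ℝ)
    (hQ : 1 ≤ Q) (hγ : 0 < γ) (hp : ∀ x ∈ C, (B.card : ℝ) ≤ Q * cn w B (h x) (a (h x)))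
    (hγC : γ * Fintype.card α ≤ C.card) (hsmall : 16 * Q * κ ≤ Real.sqrt γ) :
    8 * (B.filter fun s =>
      2 * Q * ((C.filter fun x => w s (h x) = a (h x)).card : ℝ) < C.card).card ≤ B.card := by
  have hQ0 : 0 < Q := by linarith
  have hr : 0 < Real.sqrt γ := Real.sqrt_pos.2 hγ
  obtain ⟨L, hL⟩ : ∃ L : Finset α, L = B.filter fun s =>
    2 * Q * ((C.filter fun x => w s (h x) = a (h x)).card : ℝ) < C.card := ⟨_, rfl⟩
  rw [← hL]
  have hLB : L ⊆ B := by rw [hL]; exact Finset.filter_subset _ _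
  have h1 := cell_lower_index hκ hC hB L hLB C h hh a Q hQ0 hp
  rw [Typical_comm L C (fun s x => w s (h x) = a (h x))] at h1
  have h2 : ∑ s ∈ L, ((C.filter fun x => w s (h x) = a (h x)).card : ℝ) ≤
      L.card * (C.card / (2 * Q)) := by
    calc ∑ s ∈ L, ((C.filter fun x => w s (h x) = a (h x)).card : ℝ)
        ≤ ∑ _s ∈ L, (C.card : ℝ) / (2 * Q) := by
          refine Finset.sum_le_sum fun s hs => ?_
          rw [hL] at hs
          have h3 := (Finset.mem_filter.1 hs).2
          rw [le_div_iff₀ (by positivity)]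
          linarith
      _ = L.card * (C.card / (2 * Q)) := by rw [Finset.sum_const, nsmul_eq_mul]
  have h3 : Real.sqrt (Fintype.card α * C.card) ≤ C.card / Real.sqrt γ :=
    Typical_sqrt hγ (Nat.cast_nonneg _) hγC
  have hb : (0 : ℝ) < B.card := by exact_mod_cast hB.card_pos
  rcases Nat.eq_zero_or_pos C.card with hc0 | hc0
  · have h4 : L = ∅ := by
      rw [hL, Finset.filter_eq_empty_iff]
      intro s _
      rw [hc0, Nat.cast_zero, not_lt]
      positivity
    rw [h4, Finset.card_empty]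
    omega
  · have hc : (0 : ℝ) < C.card := by exact_mod_cast hc0
    have h4 : κ * B.card * Real.sqrt (Fintype.card α * C.card) ≤
        κ * B.card * (C.card / Real.sqrt γ) :=
      mul_le_mul_of_nonneg_left h3 (by positivity)
    have h5 : (L.card : ℝ) * C.card / Q - L.card * (C.card / (2 * Q)) =
        L.card * C.card / (2 * Q) := by
      field_simp
      ring
    have h6 : (L.card : ℝ) * C.card / (2 * Q) ≤ κ * B.card * (C.card / Real.sqrt γ) := by
      linarith
    have h7 : κ * B.card * (C.card / Real.sqrt γ) ≤ B.card / (16 * Q) * C.card := by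
      have h8 : κ / Real.sqrt γ ≤ 1 / (16 * Q) := by
        rw [div_le_div_iff₀ hr (by positivity)]
        linarith
      calc κ * B.card * (C.card / Real.sqrt γ) = κ / Real.sqrt γ * (B.card * C.card) := by ring
        _ ≤ 1 / (16 * Q) * (B.card * C.card) := mul_le_mul_of_nonneg_right h8 (by positivity)
        _ = B.card / (16 * Q) * C.card := by ring
    have h8 : (L.card : ℝ) * C.card / (2 * Q) ≤ B.card / (16 * Q) * C.card := h6.trans h7
    have h9 : (8 : ℝ) * L.card ≤ B.card := by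
      have h10 : (L.card : ℝ) / (2 * Q) * C.card ≤ B.card / (16 * Q) * C.card := by
        calc (L.card : ℝ) / (2 * Q) * C.card = (L.card : ℝ) * C.card / (2 * Q) := by ring
          _ ≤ _ := h8
      have h11 := le_of_mul_le_mul_right h10 hc
      rw [div_le_div_iff₀ (by positivity) (by positivity)] at h11
      nlinarith
    exact_mod_cast h9

theorem dense_pairs {α ι : Type} [Fintype α] {q : ℕ} [NeZero q] {w : α → α → ZMod q} {κ : ℝ}
    (hκ : 0 < κ) {B : Finset α} (hC : Cell w κ B) (hB : B.Nonempty)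
    (C : Finset ι) (h z : ι → α) (hh : Set.InjOn h (C : Set ι)) (hz : Set.InjOn z (C : Set ι))
    (a : α → ZMod q) (Q γ δ : ℝ) (hQ : 1 ≤ Q) (hγ : 0 < γ) (hδ : 0 < δ)
    (hph : ∀ x ∈ C, (B.card : ℝ) ≤ Q * cn w B (h x) (a (h x)))
    (hpz : ∀ x ∈ C, (B.card : ℝ) ≤ Q * cn w B (z x) (a (z x)))
    (hγC : γ * Fintype.card α ≤ C.card) (hsmall : 8 * Q ^ 2 * κ ≤ δ * Real.sqrt γ)
    (G : Finset (α × α)) (hG : G ⊆ B ×ˢ B)
    (hGfew : ∀ p ∈ G, ((C.filter fun x => Fit w a h z p.1 p.2 x).card : ℝ)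
      ≤ 1 / (4 * Q ^ 2) * C.card) :
    (G.card : ℝ) ≤ δ * (B.card : ℝ) ^ 2 := by
  by_contra hcon
  push Not at hcon
  have hQ0 : 0 < Q := by linarith
  have hr : 0 < Real.sqrt γ := Real.sqrt_pos.2 hγ
  have hb : (0 : ℝ) < B.card := by exact_mod_cast hB.card_pos
  have hα : (0 : ℝ) < Fintype.card α := by
    have : 0 < Fintype.card α := hB.card_pos.trans_le (Finset.card_le_univ B)
    exact_mod_cast this
  have hc : (0 : ℝ) < C.card := (mul_pos hγ hα).trans_le hγC
  obtain ⟨Gs, hGs⟩ : ∃ Gs : α → Finset α, ∀ s, Gs s = B.filter fun s' => (s, s') ∈ G :=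
    ⟨_, fun s => rfl⟩
  obtain ⟨A, hA⟩ : ∃ A : Finset α, A = B.filter fun s => δ / 2 * B.card ≤ ((Gs s).card : ℝ) :=
    ⟨_, rfl⟩
  have hAB : A ⊆ B := by rw [hA]; exact Finset.filter_subset _ _
  have hGB : ∀ s, Gs s ⊆ B := fun s => by rw [hGs]; exact Finset.filter_subset _ _
  -- the size of `A`
  have hGcard : (G.card : ℝ) = ∑ s ∈ B, ((Gs s).card : ℝ) := by
    have h1 : G = (B ×ˢ B).filter fun p => p ∈ G := by
      ext p
      rw [Finset.mem_filter]
      exact ⟨fun hp => ⟨hG hp, hp⟩, fun hp => hp.2⟩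
    conv_lhs => rw [h1]
    rw [Finset.card_filter, Finset.sum_product, Nat.cast_sum]
    refine Finset.sum_congr rfl fun s _ => ?_
    rw [hGs, Finset.card_filter]
  have hAcard : δ / 2 * B.card ≤ (A.card : ℝ) := by
    have h1 : ∑ s ∈ B, ((Gs s).card : ℝ) ≤ A.card * B.card + B.card * (δ / 2 * B.card) := by
      calc ∑ s ∈ B, ((Gs s).card : ℝ)
          ≤ ∑ s ∈ B, ((if δ / 2 * B.card ≤ ((Gs s).card : ℝ) then (B.card : ℝ) else 0) +
              δ / 2 * B.card) := by
            refine Finset.sum_le_sum fun s _ => ?_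
            have h2 : ((Gs s).card : ℝ) ≤ B.card := by
              exact_mod_cast Finset.card_le_card (hGB s)
            have h3 : 0 < δ / 2 * (B.card : ℝ) := by positivity
            split_ifs with h4
            · linarith
            · push Not at h4
              linarith
        _ = A.card * B.card + B.card * (δ / 2 * B.card) := by
            rw [Finset.sum_add_distrib, ← Finset.sum_filter, ← hA, Finset.sum_const,
              Finset.sum_const, nsmul_eq_mul, nsmul_eq_mul]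
    rw [← hGcard] at h1
    have h2 : δ / 2 * B.card * B.card ≤ (A.card : ℝ) * B.card := by
      nlinarith
    exact le_of_mul_le_mul_right h2 hb
  -- every `s ∈ A` agrees with few indices
  have hCs : ∀ s ∈ A, ((C.filter fun x => w s (h x) = a (h x)).card : ℝ) ≤ C.card / (2 * Q) := by
    intro s hs
    obtain ⟨Cs, hCs⟩ : ∃ Cs : Finset ι, Cs = C.filter fun x => w s (h x) = a (h x) := ⟨_, rfl⟩
    rw [← hCs]
    have hCsC : Cs ⊆ C := by rw [hCs]; exact Finset.filter_subset _ _
    have hg : δ / 2 * B.card ≤ ((Gs s).card : ℝ) := by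
      rw [hA] at hs
      exact (Finset.mem_filter.1 hs).2
    have hg0 : (0 : ℝ) < (Gs s).card := lt_of_lt_of_le (by positivity) hg
    have hsB := hAB hs
    have h1 := cell_lower_index hκ.le hC hB (Gs s) (hGB s) Cs z
      (hz.mono (by exact_mod_cast hCsC)) a Q hQ0 (fun x hx => hpz x (hCsC hx))
    rw [Typical_comm (Gs s) Cs (fun s x => w s (z x) = a (z x))] at h1
    have h2 : ∑ s' ∈ Gs s, ((Cs.filter fun x => w s' (z x) = a (z x)).card : ℝ) ≤
        (Gs s).card * (1 / (4 * Q ^ 2) * C.card) := by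
      calc ∑ s' ∈ Gs s, ((Cs.filter fun x => w s' (z x) = a (z x)).card : ℝ)
          ≤ ∑ _s' ∈ Gs s, (1 / (4 * Q ^ 2) * (C.card : ℝ)) := by
            refine Finset.sum_le_sum fun s' hs' => ?_
            rw [hGs] at hs'
            have h3 := hGfew (s, s') (Finset.mem_filter.1 hs').2
            have h4 : (Cs.filter fun x => w s' (z x) = a (z x)) =
                C.filter fun x => Fit w a h z s s' x := by
              ext x
              rw [hCs, Finset.mem_filter, Finset.mem_filter, Finset.mem_filter]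
              exact and_assoc
            rw [h4]
            exact h3
        _ = (Gs s).card * (1 / (4 * Q ^ 2) * C.card) := by
            rw [Finset.sum_const, nsmul_eq_mul]
    have h3 : Real.sqrt (Fintype.card α * Cs.card) ≤ C.card / Real.sqrt γ := by
      refine le_trans (Real.sqrt_le_sqrt ?_) (Typical_sqrt hγ (Nat.cast_nonneg _) hγC)
      have : (Cs.card : ℝ) ≤ C.card := by exact_mod_cast Finset.card_le_card hCsC
      gcongr
    have h4 : κ * B.card * Real.sqrt (Fintype.card α * Cs.card) ≤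
        (Gs s).card * (1 / (4 * Q ^ 2) * C.card) := by
      have h5 : κ * (2 / δ) / Real.sqrt γ ≤ 1 / (4 * Q ^ 2) := by
        rw [div_le_div_iff₀ hr (by positivity)]
        have h6 : κ * (2 / δ) * (4 * Q ^ 2) = 8 * Q ^ 2 * κ / δ := by ring
        rw [h6, div_le_iff₀ hδ]
        linarith
      have h7 : (B.card : ℝ) ≤ 2 / δ * (Gs s).card := by
        have h8 := mul_le_mul_of_nonneg_left hg (show 0 ≤ 2 / δ by positivity)
        have h9 : 2 / δ * (δ / 2 * (B.card : ℝ)) = B.card := by field_simp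
        linarith
      calc κ * B.card * Real.sqrt (Fintype.card α * Cs.card)
          ≤ κ * (2 / δ * (Gs s).card) * (C.card / Real.sqrt γ) := by gcongr
        _ = κ * (2 / δ) / Real.sqrt γ * ((Gs s).card * C.card) := by ring
        _ ≤ 1 / (4 * Q ^ 2) * ((Gs s).card * C.card) :=
            mul_le_mul_of_nonneg_right h5 (by positivity)
        _ = (Gs s).card * (1 / (4 * Q ^ 2) * C.card) := by ring
    have h5 : ((Gs s).card : ℝ) * Cs.card / Q ≤
        (Gs s).card * (1 / (4 * Q ^ 2) * C.card) + (Gs s).card * (1 / (4 * Q ^ 2) * C.card) := by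
      linarith
    have h6 : ((Gs s).card : ℝ) * (Cs.card / Q) ≤ (Gs s).card * (C.card / (2 * Q) / Q) := by
      calc ((Gs s).card : ℝ) * (Cs.card / Q) = ((Gs s).card : ℝ) * Cs.card / Q := by ring
        _ ≤ _ := h5
        _ = (Gs s).card * (C.card / (2 * Q) / Q) := by field_simp; ring
    have h7 := le_of_mul_le_mul_left h6 hg0
    rwa [div_le_div_iff_of_pos_right hQ0] at h7
  -- the final contradiction
  have h1 := cell_lower_index hκ.le hC hB A hAB C h hh a Q hQ0 hph
  rw [Typical_comm A C (fun s x => w s (h x) = a (h x))] at h1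
  have h2 : ∑ s ∈ A, ((C.filter fun x => w s (h x) = a (h x)).card : ℝ) ≤
      A.card * (C.card / (2 * Q)) := by
    calc ∑ s ∈ A, ((C.filter fun x => w s (h x) = a (h x)).card : ℝ)
        ≤ ∑ _s ∈ A, (C.card : ℝ) / (2 * Q) := Finset.sum_le_sum hCs
      _ = A.card * (C.card / (2 * Q)) := by rw [Finset.sum_const, nsmul_eq_mul]
  have h3 : κ * B.card * Real.sqrt (Fintype.card α * C.card) ≤
      κ * B.card * (C.card / Real.sqrt γ) :=
    mul_le_mul_of_nonneg_left (Typical_sqrt hγ (Nat.cast_nonneg _) hγC) (by positivity)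
  have h4 : (A.card : ℝ) * (C.card / (2 * Q)) ≤ κ * B.card * (C.card / Real.sqrt γ) := by
    have h5 : (A.card : ℝ) * C.card / Q = A.card * (C.card / (2 * Q)) +
        A.card * (C.card / (2 * Q)) := by
      field_simp
      ring
    linarith
  have h5 : δ / 2 * B.card * (C.card / (2 * Q)) ≤ κ * B.card * (C.card / Real.sqrt γ) :=
    (mul_le_mul_of_nonneg_right hAcard (by positivity)).trans h4
  have h6 : δ / (4 * Q) * (B.card * C.card) ≤ κ / Real.sqrt γ * (B.card * C.card) := by
    calc δ / (4 * Q) * (B.card * C.card) = δ / 2 * B.card * (C.card / (2 * Q)) := by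
          field_simp; ring
      _ ≤ _ := h5
      _ = κ / Real.sqrt γ * (B.card * C.card) := by ring
  have h7 := le_of_mul_le_mul_right h6 (by positivity)
  rw [div_le_div_iff₀ (by positivity) hr] at h7
  have h8 : 0 < Q * κ := by positivity
  nlinarith

end MP0dbebe.CQ
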